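import Mathlib
import Pool.Agent.U580.VP.Low

set_option autoImplicit false

/-! # Forms with values in thin sets: upper bound -/

namespace Pool.Agent.U580.TT

open MvPolynomial Finset Pool.Agent.R870.RC Pool.Agent.U580.RG Pool.Agent.U580.VP

variable {n : ℕ}

/-- the elements of a set of integers up to `N` -/
noncomputable def cnt (W : Set ℤ) (N : ℕ) : Finset ℤ := by
  classical
  exact (Finset.Icc (-(N : ℤ)) N).filter fun t => t ∈ W

theorem mem_cnt {W : Set ℤ} {N : ℕ} {t : ℤ} : t ∈ cnt W N ↔ |t| ≤ N ∧ t ∈ W := by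
  classical
  unfold cnt
  rw [Finset.mem_filter, Finset.mem_Icc, abs_le]

/-- a symmetric set of integers with about `N ^ θ` elements up to `N` -/
structure Thin (W : Set ℤ) (θ : ℝ) : Prop where
  symm : ∀ t ∈ W, -t ∈ W
  nonneg : 0 ≤ θ
  lt_one : θ < 1
  up : ∃ C : ℝ, 0 < C ∧ ∀ N : ℕ, 1 ≤ N → ((cnt W N).card : ℝ) ≤ C * (N : ℝ) ^ θ
  low : ∃ c : ℝ, 0 < c ∧ ∀ N : ℕ, 1 ≤ N → c * (N : ℝ) ^ θ ≤ ((cnt W N).card : ℝ)

/-- the systems with values in given sets at a point of height between `T` and `B` -/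
def WV (n : ℕ) {s : ℕ} (d : Fin s → ℕ) (W : Fin s → Set ℤ) (H T B : ℕ) :
    Set (Fin s → MvPolynomial (Fin (n + 1)) ℤ) :=
  {F | F ∈ Systems n d H ∧ ∃ x : Fin (n + 1) → ℤ, Prm x ∧ T ≤ ht x ∧ ht x ≤ B ∧
    ∀ i, eval x (F i) ∈ W i}

/-- the forms with a value in a set -/
noncomputable def AV (n d H : ℕ) (W : Set ℤ) (x : Fin (n + 1) → ℤ) :
    Finset (MvPolynomial (Fin (n + 1)) ℤ) := by
  classical
  exact (FF n d H).filter fun F => eval x F ∈ W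

theorem card_AV (d : ℕ) {W : Set ℤ} {θ : ℝ} (hW : Thin W θ) : ∃ K : ℝ, 0 < K ∧
    ∀ (H B : ℕ), 1 ≤ H → ∀ (x : Fin (n + 1) → ℤ) (i0 : Fin (n + 1)) (b : ℕ), Prim x i0 b → b ≤ B →
      ((AV n d H W x).card : ℝ) ≤ K * ((FF n d H).card : ℝ) * mm H B ^ d *
        ((H : ℝ) ^ (θ - 1) * (b : ℝ) ^ (-((d : ℝ) * (1 - θ)))) := by
  classical
  obtain ⟨C, hC, hup⟩ := hW.up
  obtain ⟨M, hM⟩ : ∃ M : ℕ, M = (Mo n d).card := ⟨_, rfl⟩
  have hM1 : 1 ≤ M := hM ▸ Mo_pos n d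
  have hMr : (1 : ℝ) ≤ M := by exact_mod_cast hM1
  obtain ⟨q, hq⟩ : ∃ q : ℝ, q = (cst n d : ℝ) := ⟨_, rfl⟩
  have hq1 : 1 ≤ q := by
    rw [hq]
    have : 1 ≤ cst n d := Nat.one_le_iff_ne_zero.2 (pow_ne_zero _ (by omega))
    exact_mod_cast this
  refine ⟨C * M * q, by positivity, fun H B hH x i0 b hx hbB => ?_⟩
  have hHr : (0 : ℝ) < H := by exact_mod_cast hH
  have hb : 1 ≤ b := hx.2.2.1
  have hbr : (0 : ℝ) < b := by exact_mod_cast hb
  have hμ : (0 : ℝ) < ((min b H : ℕ) : ℝ) := by exact_mod_cast lt_min hb hH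
  have hmm1 : (1 : ℝ) ≤ mm H B := le_max_left _ _
  obtain ⟨S, hS⟩ : ∃ S : ℝ, S = ((FF n d H).card : ℝ) := ⟨_, rfl⟩
  have hS0 : 0 ≤ S := by rw [hS]; exact Nat.cast_nonneg _
  obtain ⟨N, hN⟩ : ∃ N : ℕ, N = M * H * b ^ d := ⟨_, rfl⟩
  have hN1 : 1 ≤ N := by
    rw [hN]
    exact Nat.one_le_iff_ne_zero.2 (by positivity)
  have hsub : AV n d H W x ⊆ (cnt W N).biUnion fun t => (FF n d H).filter fun F => eval x F = t := by
    intro F hF
    unfold AV at hF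
    obtain ⟨h1, h2⟩ := Finset.mem_filter.1 hF
    rw [Finset.mem_biUnion]
    refine ⟨eval x F, mem_cnt.2 ⟨?_, h2⟩, Finset.mem_filter.2 ⟨h1, rfl⟩⟩
    have := abs_eval_le ((mem_FF F).1 h1) x b hx.2.2.2
    rw [← hM, ← hN] at this
    exact this
  have h1 : ((AV n d H W x).card : ℝ) ≤ ∑ t ∈ cnt W N,
      (((FF n d H).filter fun F => eval x F = t).card : ℝ) := by
    exact_mod_cast (Finset.card_le_card hsub).trans Finset.card_biUnion_le
  have hcount : ∀ t ∈ cnt W N, (((FF n d H).filter fun F => eval x F = t).card : ℝ) ≤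
      q * S / (H * ((min b H : ℕ) : ℝ) ^ d) := by
    intro t _
    rw [hq, hS]
    exact count_real d H hH x i0 b hx t
  have hK0 : 0 ≤ q * S / (H * ((min b H : ℕ) : ℝ) ^ d) := by positivity
  have h2 := Finset.sum_le_card_nsmul _ _ _ hcount
  rw [nsmul_eq_mul] at h2
  have h3 := hup N hN1
  have h4 : (N : ℝ) ^ θ ≤ M * ((H : ℝ) * (b : ℝ) ^ d) ^ θ := by
    have e1 : (N : ℝ) = M * ((H : ℝ) * (b : ℝ) ^ d) := by rw [hN]; push_cast; ring
    rw [e1, Real.mul_rpow (by positivity) (by positivity)]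
    refine mul_le_mul_of_nonneg_right ?_ (by positivity)
    calc (M : ℝ) ^ θ ≤ (M : ℝ) ^ (1 : ℝ) := Real.rpow_le_rpow_of_exponent_le hMr hW.lt_one.le
      _ = M := Real.rpow_one _
  have h5 : (b : ℝ) ≤ mm H B * ((min b H : ℕ) : ℝ) := by
    rcases le_total b H with h | h
    · rw [min_eq_left h]
      nlinarith
    · rw [min_eq_right h]
      have h2 : (B : ℝ) / H ≤ mm H B := le_max_right _ _
      have hbBr : (b : ℝ) ≤ B := by exact_mod_cast hbB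
      calc (b : ℝ) ≤ B := hbBr
        _ = (B : ℝ) / H * H := by field_simp
        _ ≤ mm H B * H := mul_le_mul_of_nonneg_right h2 hHr.le
  have h6 : (b : ℝ) ^ d ≤ mm H B ^ d * ((min b H : ℕ) : ℝ) ^ d := by
    rw [← mul_pow]
    exact pow_le_pow_left₀ hbr.le h5 d
  have h7 : q * S / (H * ((min b H : ℕ) : ℝ) ^ d) ≤ q * S * (mm H B ^ d / (H * (b : ℝ) ^ d)) := by
    rw [mul_div_assoc]
    have hqS : 0 ≤ q * S := by positivity
    rw [← mul_div_assoc]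
    rw [div_eq_mul_one_div]
    refine mul_le_mul_of_nonneg_left ?_ hqS
    rw [div_le_div_iff₀ (by positivity) (by positivity)]
    calc 1 * (H * (b : ℝ) ^ d) = H * (b : ℝ) ^ d := one_mul _
      _ ≤ H * (mm H B ^ d * ((min b H : ℕ) : ℝ) ^ d) := mul_le_mul_of_nonneg_left h6 hHr.le
      _ = _ := by ring
  have hX : (0 : ℝ) < H * (b : ℝ) ^ d := by positivity
  have h8 : (H : ℝ) ^ (θ - 1) * (b : ℝ) ^ (-((d : ℝ) * (1 - θ))) =
      ((H : ℝ) * (b : ℝ) ^ d) ^ θ / (H * (b : ℝ) ^ d) := by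
    have e1 : ((H : ℝ) * (b : ℝ) ^ d) ^ θ / (H * (b : ℝ) ^ d) = ((H : ℝ) * (b : ℝ) ^ d) ^ (θ - 1) := by
      rw [Real.rpow_sub hX, Real.rpow_one]
    rw [e1, Real.mul_rpow hHr.le (by positivity), ← Real.rpow_natCast, ← Real.rpow_mul hbr.le]
    congr 2
    ring
  calc ((AV n d H W x).card : ℝ) ≤ _ := h1
    _ ≤ ((cnt W N).card : ℝ) * (q * S / (H * ((min b H : ℕ) : ℝ) ^ d)) := h2
    _ ≤ (C * (M * ((H : ℝ) * (b : ℝ) ^ d) ^ θ)) * (q * S * (mm H B ^ d / (H * (b : ℝ) ^ d))) := by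
        refine mul_le_mul (h3.trans (mul_le_mul_of_nonneg_left h4 hC.le)) h7 hK0 (by positivity)
    _ = C * M * q * S * mm H B ^ d * (((H : ℝ) * (b : ℝ) ^ d) ^ θ / (H * (b : ℝ) ^ d)) := by ring
    _ = _ := by rw [h8, hS]

/-- the systems with values in given sets at `x` -/
noncomputable def PV (n : ℕ) {s : ℕ} (d : Fin s → ℕ) (H : ℕ) (W : Fin s → Set ℤ)
    (x : Fin (n + 1) → ℤ) : Finset (Fin s → MvPolynomial (Fin (n + 1)) ℤ) :=
  Fintype.piFinset fun i => AV n (d i) H (W i) x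

/-- the exponent of the height of the system -/
noncomputable def sg {s : ℕ} (θ : Fin s → ℝ) : ℝ := ∑ i, (1 - θ i)

/-- the weighted degree -/
noncomputable def wd {s : ℕ} (d : Fin s → ℕ) (θ : Fin s → ℝ) : ℝ := ∑ i, (d i : ℝ) * (1 - θ i)

theorem prod_pow {s : ℕ} (d : Fin s → ℕ) (θ : Fin s → ℝ) (H b : ℝ) (hH : 0 < H) (hb : 0 < b) :
    ∏ i, (H ^ (θ i - 1) * b ^ (-((d i : ℝ) * (1 - θ i)))) = H ^ (-sg θ) * b ^ (-wd d θ) := by
  rw [Finset.prod_mul_distrib, ← Real.rpow_sum_of_pos hH, ← Real.rpow_sum_of_pos hb]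
  congr 2
  · unfold sg
    rw [← Finset.sum_neg_distrib]
    exact Finset.sum_congr rfl fun i _ => by ring
  · unfold wd
    rw [← Finset.sum_neg_distrib]

theorem card_PV {s : ℕ} (d : Fin s → ℕ) {W : Fin s → Set ℤ} {θ : Fin s → ℝ}
    (hW : ∀ i, Thin (W i) (θ i)) : ∃ K : ℝ, 0 < K ∧
    ∀ (H B : ℕ), 1 ≤ H → ∀ (x : Fin (n + 1) → ℤ) (i0 : Fin (n + 1)) (b : ℕ), Prim x i0 b → b ≤ B →
      ((PV n d H W x).card : ℝ) ≤ K * (∏ i, ((FF n (d i) H).card : ℝ)) * mm H B ^ (∑ i, d i) *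
        ((H : ℝ) ^ (-sg θ) * (b : ℝ) ^ (-wd d θ)) := by
  classical
  choose K hK h using fun i => card_AV (n := n) (d i) (hW i)
  refine ⟨∏ i, K i, Finset.prod_pos fun i _ => hK i, fun H B hH x i0 b hx hbB => ?_⟩
  have hHr : (0 : ℝ) < H := by exact_mod_cast hH
  have hbr : (0 : ℝ) < b := by exact_mod_cast hx.2.2.1
  unfold PV
  rw [Fintype.card_piFinset, Nat.cast_prod]
  refine (Finset.prod_le_prod (fun i _ => Nat.cast_nonneg _)
    (fun i _ => h i H B hH x i0 b hx hbB)).trans (le_of_eq ?_)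
  rw [Finset.prod_mul_distrib, Finset.prod_mul_distrib, Finset.prod_mul_distrib,
    Finset.prod_pow_eq_pow_sum, prod_pow d θ H b hHr hbr]

/-- the bad systems -/
noncomputable def badW (n : ℕ) {s : ℕ} (d : Fin s → ℕ) (W : Fin s → Set ℤ) (H T B : ℕ) :
    Finset (Fin s → MvPolynomial (Fin (n + 1)) ℤ) := by
  classical
  exact (Finset.univ : Finset (Fin (n + 1))).biUnion fun i0 => (Finset.Icc T B).biUnion fun b =>
    ((Bx n i0 b).filter (fun x => Prim x i0 b)).biUnion fun x => PV n d H W x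

theorem wv_sub {s : ℕ} (d : Fin s → ℕ) (W : Fin s → Set ℤ) (hW : ∀ i, ∀ t ∈ W i, -t ∈ W i)
    (H T B : ℕ) : WV n d W H T B ⊆ ((badW n d W H T B : Finset _) : Set _) := by
  classical
  rintro F ⟨hF, x, hx, hT, hB, h0⟩
  have hx0 : x ≠ 0 := by
    rintro rfl
    obtain ⟨j, hj⟩ := hx 2 Nat.prime_two
    exact hj (dvd_zero _)
  obtain ⟨M, hM⟩ : ∃ M, M = ht x := ⟨_, rfl⟩
  have hxM : ∀ j, |x j| ≤ (M : ℤ) := by
    intro j
    have : (x j).natAbs ≤ M := by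
      rw [hM]
      exact Finset.le_sup (f := fun j => (x j).natAbs) (Finset.mem_univ j)
    rw [← Int.natCast_natAbs]
    exact_mod_cast this
  obtain ⟨g, y, i0, b, hg, hxy, hy, hb⟩ := exists_prim x hx0 M hxM
  have hg1 : g.natAbs = 1 := by
    by_contra hne
    obtain ⟨p, hp, hpg⟩ := Nat.exists_prime_and_dvd hne
    obtain ⟨j, hj⟩ := hx p hp
    apply hj
    rw [hxy j]
    exact Dvd.dvd.mul_right (Int.natCast_dvd.2 hpg) _
  have hxa : ∀ j, (x j).natAbs = (y j).natAbs := by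
    intro j
    rw [hxy j, Int.natAbs_mul, hg1, one_mul]
  have hbM : b = M := by
    refine le_antisymm hb ?_
    rw [hM]
    refine Finset.sup_le fun j _ => ?_
    rw [hxa j]
    have := hy.2.2.2 j
    rw [← Int.natCast_natAbs] at this
    exact_mod_cast this
  rw [← hM] at hT hB
  unfold badW PV AV
  simp only [Finset.coe_biUnion, Set.mem_iUnion, Finset.mem_coe,
    Finset.mem_univ, Finset.mem_Icc, Finset.mem_filter, Fintype.mem_piFinset]
  refine ⟨i0, trivial, b, ⟨hbM ▸ hT, hbM ▸ hB⟩, y, ⟨mem_Bx hy, hy⟩, fun i =>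
    ⟨(mem_FF _).2 (hF i), ?_⟩⟩
  have h1 := eval_smul_pt (hF i).1 g x y hxy
  have h2 := h0 i
  rw [h1] at h2
  rcases Int.natAbs_eq g with h | h
  · rw [hg1] at h
    rw [h] at h2
    simpa using h2
  · rw [hg1] at h
    rw [h] at h2
    rcases neg_one_pow_eq_or ℤ (d i) with h3 | h3
    · have h4 : ((-((1 : ℕ) : ℤ)) ^ d i) = 1 := by simpa using h3
      rw [h4, one_mul] at h2
      exact h2
    · have h4 : ((-((1 : ℕ) : ℤ)) ^ d i) = -1 := by simpa using h3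
      rw [h4] at h2
      have h5 := hW i _ h2
      have h6 : -(-1 * eval y (F i)) = eval y (F i) := by ring
      rwa [h6] at h5

theorem fin_wv {s : ℕ} (d : Fin s → ℕ) (W : Fin s → Set ℤ) (H T B : ℕ) : (WV n d W H T B).Finite :=
  (fin_systems d H).subset fun _ hF => hF.1

theorem per_b' (n : ℕ) (κ : ℝ) (b : ℕ) (hb : 1 ≤ b) (D : ℝ) (hκ : κ = D - (n + 1)) :
    (2 * (3 * (b : ℝ)) ^ n) * (b : ℝ) ^ (-D) = 2 * 3 ^ n * (b : ℝ) ^ (-1 - κ) := by
  have hbr : (0 : ℝ) < b := by exact_mod_cast hb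
  have h4 : (b : ℝ) ^ (-1 - κ) = (b : ℝ) ^ n * (b : ℝ) ^ (-D) := by
    rw [← Real.rpow_natCast, ← Real.rpow_add hbr, hκ]
    congr 1
    ring
  rw [h4, mul_pow]
  ring

theorem up_wv {s : ℕ} (d : Fin s → ℕ) {W : Fin s → Set ℤ} {θ : Fin s → ℝ}
    (hW : ∀ i, Thin (W i) (θ i)) (hκ : (n : ℝ) + 1 < wd d θ) : ∃ K : ℝ, 0 < K ∧
    ∀ (H T B : ℕ), 1 ≤ H → 1 ≤ T → ((WV n d W H T B).ncard : ℝ) ≤
      K * (mm H B ^ (∑ i, d i) * ((H : ℝ) ^ (-sg θ) * (T : ℝ) ^ (-(wd d θ - (n + 1))))) *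
        ∏ i, ((FF n (d i) H).card : ℝ) := by
  classical
  obtain ⟨K, hK, hPV⟩ := card_PV (n := n) d hW
  obtain ⟨κ, hκd⟩ : ∃ κ : ℝ, κ = wd d θ - (n + 1) := ⟨_, rfl⟩
  have hκ0 : 0 < κ := by rw [hκd]; linarith
  rw [← hκd]
  refine ⟨(n + 1) * (2 * 3 ^ n * (1 + 1 / κ)) * K, by positivity, fun H T B hH hT => ?_⟩
  have hHr : (0 : ℝ) < H := by exact_mod_cast hH
  obtain ⟨S, hS⟩ : ∃ S : ℝ, S = ∏ i, ((FF n (d i) H).card : ℝ) := ⟨_, rfl⟩
  have hS0 : 0 ≤ S := by rw [hS]; exact Finset.prod_nonneg fun i _ => Nat.cast_nonneg _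
  rw [← hS]
  obtain ⟨R, hR⟩ : ∃ R : ℝ, R = K * S * mm H B ^ (∑ i, d i) * (H : ℝ) ^ (-sg θ) := ⟨_, rfl⟩
  have hm0 : (0 : ℝ) ≤ mm H B := zero_le_one.trans (le_max_left _ _)
  have hR0 : 0 ≤ R := by rw [hR]; positivity
  have h0 : ((WV n d W H T B).ncard : ℝ) ≤ ((badW n d W H T B).card : ℝ) := by
    have h2 := Set.ncard_le_ncard (wv_sub (n := n) d W (fun i => (hW i).symm) H T B)
      (Finset.finite_toSet _)
    rw [Set.ncard_coe_finset] at h2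
    exact Nat.cast_le.2 h2
  have h1 : ((badW n d W H T B).card : ℝ) ≤ ∑ _i0 : Fin (n + 1), ∑ b ∈ Finset.Icc T B,
      R * (2 * 3 ^ n * (b : ℝ) ^ (-1 - κ)) := by
    unfold badW
    refine (Nat.cast_le.2 Finset.card_biUnion_le).trans ?_
    rw [Nat.cast_sum]
    refine Finset.sum_le_sum fun i0 _ => ?_
    refine (Nat.cast_le.2 Finset.card_biUnion_le).trans ?_
    rw [Nat.cast_sum]
    refine Finset.sum_le_sum fun b hb => ?_
    obtain ⟨hb1, hb2⟩ := Finset.mem_Icc.1 hb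
    refine (Nat.cast_le.2 Finset.card_biUnion_le).trans ?_
    rw [Nat.cast_sum]
    have hb0 : 1 ≤ b := hT.trans hb1
    have hbr : (0 : ℝ) < b := by exact_mod_cast hb0
    have hpt : ∀ x ∈ (Bx n i0 b).filter (fun x => Prim x i0 b), ((PV n d H W x).card : ℝ) ≤
        R * (b : ℝ) ^ (-wd d θ) := by
      intro x hx
      have h3 := hPV H B hH x i0 b (Finset.mem_filter.1 hx).2 hb2
      rw [← hS] at h3
      refine h3.trans (le_of_eq ?_)
      rw [hR]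
      ring
    refine (Finset.sum_le_sum hpt).trans ?_
    rw [Finset.sum_const, nsmul_eq_mul]
    have e5 : ((((Bx n i0 b).filter (fun x => Prim x i0 b)).card : ℕ) : ℝ) ≤ 2 * (3 * b) ^ n := by
      have e6 := (Finset.card_filter_le (Bx n i0 b) (fun x => Prim x i0 b)).trans
        (card_Bx i0 b hb0)
      exact_mod_cast e6
    calc _ ≤ (2 * (3 * b) ^ n : ℝ) * (R * (b : ℝ) ^ (-wd d θ)) :=
          mul_le_mul_of_nonneg_right e5 (by positivity)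
      _ = R * ((2 * (3 * (b : ℝ)) ^ n) * (b : ℝ) ^ (-wd d θ)) := by ring
      _ = _ := by rw [per_b' n κ b hb0 (wd d θ) hκd]
  refine h0.trans (h1.trans ?_)
  rw [Finset.sum_const, Finset.card_univ, Fintype.card_fin, nsmul_eq_mul, ← Finset.mul_sum,
    ← Finset.mul_sum]
  have h2 := sum_rpow κ hκ0 T hT B
  calc ((n + 1 : ℕ) : ℝ) * (R * (2 * 3 ^ n * ∑ b ∈ Finset.Icc T B, (b : ℝ) ^ (-1 - κ)))
      = ((n + 1 : ℕ) : ℝ) * (R * (2 * 3 ^ n)) * ∑ b ∈ Finset.Icc T B, (b : ℝ) ^ (-1 - κ) := by ring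
    _ ≤ ((n + 1 : ℕ) : ℝ) * (R * (2 * 3 ^ n)) * ((1 + 1 / κ) * (T : ℝ) ^ (-κ)) :=
        mul_le_mul_of_nonneg_left h2 (by positivity)
    _ = _ := by
        rw [hR]
        push_cast
        ring

end Pool.Agent.U580.TT
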