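import Mathlib
import Pool.Agent.U580.TT.Up

set_option autoImplicit false

/-! # Forms with values in thin sets: lower bound -/

namespace Pool.Agent.U580.TT

open MvPolynomial Finset Pool.Agent.R870.RC Pool.Agent.U580.RG Pool.Agent.U580.VP

variable {n : ℕ}

/-- the conclusion from the Bonferroni inequality -/
theorem bonf_concl {α β : Type} [DecidableEq α] [DecidableEq β] (P : Finset α) (A : α → Finset β)
    (a γ : ℝ) (hγ : 0 ≤ γ) (ha : ∀ x ∈ P, a ≤ ((A x).card : ℝ))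
    (hp : ∀ x ∈ P, ∀ y ∈ P.erase x, ((A x ∩ A y).card : ℝ) ≤ γ)
    (hc : (P.card : ℝ) * γ ≤ a / 2) : (P.card : ℝ) * (a / 2) ≤ ((P.biUnion A).card : ℝ) := by
  have hb := bonf P A
  have hbr : ∑ x ∈ P, ((A x).card : ℝ) ≤ ((P.biUnion A).card : ℝ) +
      ∑ x ∈ P, ∑ y ∈ P.erase x, ((A x ∩ A y).card : ℝ) := by exact_mod_cast hb
  have h1 : (P.card : ℝ) * a ≤ ∑ x ∈ P, ((A x).card : ℝ) := by
    have := Finset.card_nsmul_le_sum _ _ _ ha
    rwa [nsmul_eq_mul] at this
  have h2 : ∑ x ∈ P, ∑ y ∈ P.erase x, ((A x ∩ A y).card : ℝ) ≤ P.card * (P.card * γ) := by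
    have h3 : ∀ x ∈ P, ∑ y ∈ P.erase x, ((A x ∩ A y).card : ℝ) ≤ P.card * γ := by
      intro x hx
      refine (Finset.sum_le_card_nsmul _ _ _ (hp x hx)).trans ?_
      rw [nsmul_eq_mul]
      refine mul_le_mul_of_nonneg_right ?_ hγ
      exact_mod_cast Finset.card_le_card (Finset.erase_subset _ _)
    have := Finset.sum_le_card_nsmul _ _ _ h3
    rwa [nsmul_eq_mul] at this
  have h3 : (P.card : ℝ) * (P.card * γ) ≤ P.card * (a / 2) :=
    mul_le_mul_of_nonneg_left hc (Nat.cast_nonneg _)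
  have e : (P.card : ℝ) * a = P.card * (a / 2) + P.card * (a / 2) := by ring
  linarith

theorem small_sol (A B t : ℤ) (hA : 0 < A) (hB : 0 < B) (h : IsCoprime A B) :
    ∃ C1 C2 : ℤ, C1 * A + C2 * B = t ∧ 0 ≤ C1 ∧ C1 < B ∧ |C2| * B ≤ |t| + B * A := by
  obtain ⟨u, v, huv⟩ := h
  have h1 := Int.emod_add_mul_ediv (t * u) B
  have h2 := Int.emod_nonneg (t * u) hB.ne'
  have h3 := Int.emod_lt_of_pos (t * u) hB
  have hsol : (t * u) % B * A + (t * v + (t * u) / B * A) * B = t := by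
    have : (t * u) % B = t * u - B * ((t * u) / B) := by linarith
    rw [this]
    linear_combination t * huv
  refine ⟨(t * u) % B, t * v + (t * u) / B * A, hsol, h2, h3, ?_⟩
  have h4 : (t * v + (t * u) / B * A) * B = t - (t * u) % B * A := by linarith
  have h5 : |t * v + (t * u) / B * A| * B = |t - (t * u) % B * A| := by
    rw [← h4, abs_mul, abs_of_pos hB]
  rw [h5]
  refine (abs_sub _ _).trans ?_
  rw [abs_mul, abs_of_nonneg h2, abs_of_pos hA]
  have : (t * u) % B * A ≤ B * A := mul_le_mul_of_nonneg_right h3.le hA.le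
  linarith

/-- a form with a given value at a point of the family -/
theorem part_sol (m d k T : ℕ) (x : Fin (m + 2) → ℤ) (hx : x ∈ Fam m T)
    (hk : (2 * T) ^ d ≤ k) (t : ℤ) (ht : |t| ≤ ((k * T ^ d : ℕ) : ℤ)) :
    ∃ G ∈ Forms (m + 1) d (k + k), eval x G = t := by
  classical
  obtain ⟨h1, h2, h3⟩ := mem_Fam hx
  have hx0 := h1 0
  have hx1 := h1 1
  have hp0 : (0 : ℤ) < x 0 ^ d := pow_pos (by omega) d
  have hp1 : (0 : ℤ) < x 1 ^ d := pow_pos (by omega) d
  have hle : ∀ i, x i ^ d ≤ (k : ℤ) := by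
    intro i
    have := h1 i
    calc x i ^ d ≤ (2 * (T : ℤ)) ^ d := pow_le_pow_left₀ (by omega) this.2 d
      _ ≤ k := by exact_mod_cast hk
  have hT0 : (0 : ℤ) ≤ T := Int.natCast_nonneg T
  -- the solution
  obtain ⟨C, D, hCD, hC, hD⟩ : ∃ C D : ℤ, C * x 0 ^ d + D * x 1 ^ d = t ∧ |C| ≤ k + k ∧ |D| ≤ k + k := by
    have key : ∀ A B : ℤ, 0 < A → 0 < B → IsCoprime A B → A ≤ k → B ≤ k → (T : ℤ) ^ d ≤ B →
        ∃ C D : ℤ, C * A + D * B = t ∧ |C| ≤ k + k ∧ |D| ≤ k + k := by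
      intro A B hA hB hAB hAk hBk hTB
      obtain ⟨C, D, e1, e2, e3, e4⟩ := small_sol A B t hA hB hAB
      refine ⟨C, D, e1, ?_, ?_⟩
      · rw [abs_of_nonneg e2]
        omega
      · have e5 : |t| ≤ k * B := by
          refine ht.trans ?_
          push_cast
          exact mul_le_mul_of_nonneg_left hTB (Int.natCast_nonneg k)
        have e6 : B * A ≤ k * B := by
          calc B * A = A * B := mul_comm _ _
            _ ≤ k * B := mul_le_mul_of_nonneg_right hAk hB.le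
        have e7 : |D| * B ≤ (k + k) * B := by
          have : ((k : ℤ) + k) * B = k * B + k * B := by ring
          rw [this]
          linarith
        exact le_of_mul_le_mul_right e7 hB
    have hcop : IsCoprime (x 0 ^ d) (x 1 ^ d) := h2.pow
    rcases lt_max_iff.1 h3 with h | h
    · obtain ⟨C, D, e1, e2, e3⟩ := key (x 1 ^ d) (x 0 ^ d) hp1 hp0 hcop.symm (hle 1) (hle 0)
        (pow_le_pow_left₀ hT0 h.le d)
      exact ⟨D, C, by rw [add_comm]; exact e1, e3, e2⟩
    · exact key (x 0 ^ d) (x 1 ^ d) hp0 hp1 hcop (hle 0) (hle 1) (pow_le_pow_left₀ hT0 h.le d)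
  have h01 : (1 : Fin (m + 2)) ≠ 0 := by
    intro h
    have := congrArg Fin.val h
    simp at this
  have ev : ∀ (i : Fin (m + 2)) (u : ℤ), eval x (monomial (Finsupp.single i d) u) = u * x i ^ d := by
    intro i u
    rw [eval_monomial, Finsupp.prod_single_index (h := fun a k => x a ^ k) (pow_zero _)]
  rcases Nat.eq_zero_or_pos d with hd0 | hd0
  · -- degree zero
    subst hd0
    refine ⟨monomial (Finsupp.single 0 0) t, forms_monomial _ (by simp) t ?_, ?_⟩
    · refine ht.trans ?_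
      push_cast
      rw [pow_zero, mul_one]
      omega
    · rw [ev, pow_zero, mul_one]
  refine ⟨monomial (Finsupp.single 0 d) C + monomial (Finsupp.single 1 d) D, ⟨?_, fun e => ?_⟩, ?_⟩
  · exact (isHomogeneous_monomial _ (Finsupp.degree_single _ _)).add
      (isHomogeneous_monomial _ (Finsupp.degree_single _ _))
  · rw [coeff_add, coeff_monomial, coeff_monomial]
    have hne : Finsupp.single (0 : Fin (m + 2)) d ≠ Finsupp.single 1 d := by
      intro h
      have h4 := DFunLike.congr_fun h 0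
      rw [Finsupp.single_eq_same, Finsupp.single_apply, if_neg h01] at h4
      omega
    by_cases h4 : Finsupp.single (0 : Fin (m + 2)) d = e
    · rw [if_pos h4, if_neg (fun h5 => hne (h4.trans h5.symm)), add_zero]
      exact_mod_cast hC
    · rw [if_neg h4, zero_add]
      by_cases h5 : Finsupp.single (1 : Fin (m + 2)) d = e
      · rw [if_pos h5]
        exact_mod_cast hD
      · rw [if_neg h5, abs_zero]
        exact_mod_cast Nat.zero_le _
  · rw [map_add, ev, ev]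
    exact hCD

theorem ineq_aux (A A' u w v M h H : ℝ) (hu : 0 < u) (hw : 0 < w) (hv : 0 < v) (hM : 0 < M)
    (hh : 0 < h) (hhH : h ≤ H) (hA' : 0 ≤ A') (h3 : A ≤ u * A') :
    A / (u * (u * (3 * M) * w) * (H * v)) ≤ A' / (u * (3 * M) * (h * (w * v))) := by
  have hH : 0 < H := lt_of_lt_of_le hh hhH
  rw [div_le_div_iff₀ (by positivity) (by positivity)]
  have h7 : u * (3 * M) * (h * (w * v)) ≤ u * (3 * M) * (H * (w * v)) :=
    mul_le_mul_of_nonneg_left (mul_le_mul_of_nonneg_right hhH (by positivity)) (by positivity)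
  calc A * (u * (3 * M) * (h * (w * v))) ≤ (u * A') * (u * (3 * M) * (H * (w * v))) :=
        mul_le_mul h3 h7 (by positivity) (by positivity)
    _ = _ := by ring

/-- many forms have a given value at a point of the family -/
theorem low_target (m d : ℕ) : ∃ c : ℝ, 0 < c ∧ ∀ (H T : ℕ), 1 ≤ T → (2 * T) ^ d ≤ H / 4 →
    ∀ x ∈ Fam m T, ∀ t : ℤ, |t| ≤ ((H / 4 * T ^ d : ℕ) : ℤ) →
      c * (((FF (m + 1) d H).card : ℝ) / (H * (T : ℝ) ^ d)) ≤
        (((FF (m + 1) d H).filter (fun F => eval x F = t)).card : ℝ) := by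
  classical
  obtain ⟨M, hM⟩ : ∃ M, M = (Mo (m + 1) d).card := ⟨_, rfl⟩
  have hM1 : 1 ≤ M := hM ▸ Mo_pos (m + 1) d
  have hMr : (1 : ℝ) ≤ M := by exact_mod_cast hM1
  refine ⟨1 / (3 ^ M * (3 ^ M * (3 * M) * 2 ^ d)), by positivity, fun H T hT hH x hx t ht => ?_⟩
  have h4 : 1 ≤ (2 * T) ^ d := Nat.one_le_pow _ _ (by omega)
  obtain ⟨h, hh⟩ : ∃ h, h = H / 2 := ⟨_, rfl⟩
  have hh1 : 1 ≤ h := by omega
  have hkk : H / 4 + H / 4 ≤ h := by omega
  obtain ⟨G, hG, hGt⟩ := part_sol m d (H / 4) T x hx hH t ht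
  obtain ⟨hx1, -, -⟩ := mem_Fam hx
  have h1 := low_pt (n := m + 1) d h hh1 x (2 * T) (by omega) (fun i => by
    rw [abs_of_nonneg (by have := (hx1 i).1; omega)]
    push_cast
    exact (hx1 i).2)
  have h2 : ((FF (m + 1) d h).filter (fun F => eval x F = 0)).card ≤
      ((FF (m + 1) d H).filter (fun F => eval x F = t)).card := by
    refine Finset.card_le_card_of_injOn (fun F => F + G) ?_ ?_
    · intro F hF
      rw [Finset.mem_coe, Finset.mem_filter, mem_FF] at hF
      rw [Finset.mem_coe, Finset.mem_filter, mem_FF]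
      refine ⟨forms_mono (by omega) (forms_add hF.1 hG), ?_⟩
      rw [map_add, hF.2, hGt, zero_add]
    · intro F _ F' _ h
      exact add_right_cancel h
  have h2r : (((FF (m + 1) d h).filter (fun F => eval x F = 0)).card : ℝ) ≤
      (((FF (m + 1) d H).filter (fun F => eval x F = t)).card : ℝ) := by exact_mod_cast h2
  refine le_trans ?_ (h1.trans h2r)
  have h3 : ((FF (m + 1) d H).card : ℝ) ≤ 3 ^ M * (FF (m + 1) d h).card := by
    have h5 : 2 * H + 1 ≤ 3 * (2 * h + 1) := by omega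
    have h6 : (FF (m + 1) d H).card ≤ 3 ^ M * (FF (m + 1) d h).card := by
      rw [card_FF, card_FF, ← hM, ← mul_pow]
      exact Nat.pow_le_pow_left h5 M
    exact_mod_cast h6
  rw [← hM]
  obtain ⟨A, hA⟩ : ∃ A : ℝ, A = ((FF (m + 1) d H).card : ℝ) := ⟨_, rfl⟩
  obtain ⟨A', hA'⟩ : ∃ A' : ℝ, A' = ((FF (m + 1) d h).card : ℝ) := ⟨_, rfl⟩
  have hA'0 : 0 ≤ A' := hA' ▸ Nat.cast_nonneg _
  rw [← hA, ← hA'] at h3
  rw [← hA, ← hA']
  have hTr : (0 : ℝ) < T := by exact_mod_cast hT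
  have hhr : (0 : ℝ) < h := by exact_mod_cast hh1
  have hhH : (h : ℝ) ≤ H := by
    have : h ≤ H := by omega
    exact_mod_cast this
  have hHr : (0 : ℝ) < H := lt_of_lt_of_le hhr hhH
  have e1 : 1 / (3 ^ M * (3 ^ M * (3 * M) * 2 ^ d)) * (A / (H * (T : ℝ) ^ d)) =
      A / (3 ^ M * (3 ^ M * (3 * M) * 2 ^ d) * (H * (T : ℝ) ^ d)) := by
    field_simp
  rw [e1]
  have e2 : ((2 * T : ℕ) : ℝ) ^ d = 2 ^ d * (T : ℝ) ^ d := by
    push_cast
    exact mul_pow _ _ _
  rw [e2]
  exact ineq_aux A A' (3 ^ M) (2 ^ d) ((T : ℝ) ^ d) M h H (pow_pos (by norm_num) _)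
    (pow_pos (by norm_num) _) (pow_pos hTr _) (by linarith) hhr hhH hA'0 h3

/-- many forms have a value in a thin set -/
theorem low_AV (m d : ℕ) {W : Set ℤ} {θ : ℝ} (hW : Thin W θ) : ∃ c : ℝ, 0 < c ∧
    ∀ (H T : ℕ), 1 ≤ T → (2 * T) ^ d ≤ H / 4 → ∀ x ∈ Fam m T,
      c * ((FF (m + 1) d H).card : ℝ) * ((H : ℝ) ^ (θ - 1) * (T : ℝ) ^ (-((d : ℝ) * (1 - θ)))) ≤
        ((AV (m + 1) d H W x).card : ℝ) := by
  classical
  obtain ⟨c₀, hc₀, hlow⟩ := hW.low
  obtain ⟨c₁, hc₁, htar⟩ := low_target m d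
  refine ⟨c₀ / 8 * c₁, by positivity, fun H T hT hH x hx => ?_⟩
  have hTr : (0 : ℝ) < T := by exact_mod_cast hT
  have h4 : 1 ≤ (2 * T) ^ d := Nat.one_le_pow _ _ (by omega)
  have hH4 : 4 ≤ H := by omega
  have hHr : (0 : ℝ) < H := by exact_mod_cast (show 0 < H by omega)
  obtain ⟨S, hS⟩ : ∃ S : ℝ, S = ((FF (m + 1) d H).card : ℝ) := ⟨_, rfl⟩
  have hS0 : 0 ≤ S := by rw [hS]; exact Nat.cast_nonneg _
  obtain ⟨N, hN⟩ : ∃ N : ℕ, N = H / 4 * T ^ d := ⟨_, rfl⟩
  have hN1 : 1 ≤ N := by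
    rw [hN]
    exact Nat.one_le_iff_ne_zero.2 (Nat.mul_ne_zero (by omega) (pow_ne_zero _ (by omega)))
  have hX : (0 : ℝ) < H * (T : ℝ) ^ d := by positivity
  have h1 : 1 / 8 * (H * (T : ℝ) ^ d) ^ θ ≤ (N : ℝ) ^ θ := by
    have e1 : (H : ℝ) * (T : ℝ) ^ d ≤ 8 * N := by
      have e2 : H ≤ 8 * (H / 4) := by omega
      have e3 : (H : ℝ) ≤ 8 * ((H / 4 : ℕ) : ℝ) := by exact_mod_cast e2
      have e4 : (N : ℝ) = ((H / 4 : ℕ) : ℝ) * (T : ℝ) ^ d := by rw [hN, Nat.cast_mul, Nat.cast_pow]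
      rw [e4]
      calc (H : ℝ) * (T : ℝ) ^ d ≤ 8 * ((H / 4 : ℕ) : ℝ) * (T : ℝ) ^ d :=
            mul_le_mul_of_nonneg_right e3 (by positivity)
        _ = _ := by ring
    have e5 : (H * (T : ℝ) ^ d) ^ θ ≤ (8 * (N : ℝ)) ^ θ :=
      Real.rpow_le_rpow hX.le e1 hW.nonneg
    rw [Real.mul_rpow (by norm_num) (Nat.cast_nonneg _)] at e5
    have e6 : (8 : ℝ) ^ θ ≤ 8 := by
      calc (8 : ℝ) ^ θ ≤ (8 : ℝ) ^ (1 : ℝ) :=
            Real.rpow_le_rpow_of_exponent_le (by norm_num) hW.lt_one.le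
        _ = 8 := Real.rpow_one _
    have e7 : (0 : ℝ) ≤ (N : ℝ) ^ θ := by positivity
    nlinarith
  have h2 := hlow N hN1
  -- disjoint union
  have h3 : ∑ t ∈ cnt W N, (((FF (m + 1) d H).filter (fun F => eval x F = t)).card : ℝ) ≤
      ((AV (m + 1) d H W x).card : ℝ) := by
    have e1 : ((cnt W N).biUnion fun t => (FF (m + 1) d H).filter (fun F => eval x F = t)) ⊆
        AV (m + 1) d H W x := by
      intro F hF
      obtain ⟨t, ht, hF⟩ := Finset.mem_biUnion.1 hF
      obtain ⟨e2, e3⟩ := Finset.mem_filter.1 hF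
      unfold AV
      exact Finset.mem_filter.2 ⟨e2, e3 ▸ (mem_cnt.1 ht).2⟩
    have e2 := Finset.card_le_card e1
    rw [Finset.card_biUnion] at e2
    · exact_mod_cast e2
    · intro t _ t' _ htt'
      rw [Function.onFun, Finset.disjoint_left]
      intro F hF hF'
      exact htt' ((Finset.mem_filter.1 hF).2.symm.trans (Finset.mem_filter.1 hF').2)
  have h5 : ((cnt W N).card : ℝ) * (c₁ * (S / (H * (T : ℝ) ^ d))) ≤
      ∑ t ∈ cnt W N, (((FF (m + 1) d H).filter (fun F => eval x F = t)).card : ℝ) := by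
    have := Finset.card_nsmul_le_sum (cnt W N)
      (fun t => (((FF (m + 1) d H).filter (fun F => eval x F = t)).card : ℝ))
      (c₁ * (S / (H * (T : ℝ) ^ d))) (fun t ht => by
        rw [hS]
        exact htar H T hT hH x hx t (by rw [← hN]; exact (mem_cnt.1 ht).1))
    rwa [nsmul_eq_mul] at this
  have h6 : (c₀ * (1 / 8 * (H * (T : ℝ) ^ d) ^ θ)) * (c₁ * (S / (H * (T : ℝ) ^ d))) ≤
      ((cnt W N).card : ℝ) * (c₁ * (S / (H * (T : ℝ) ^ d))) := by
    refine mul_le_mul_of_nonneg_right ?_ (by positivity)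
    exact (mul_le_mul_of_nonneg_left h1 hc₀.le).trans h2
  refine le_trans (le_of_eq ?_) (h6.trans (h5.trans h3))
  have h8 : (H : ℝ) ^ (θ - 1) * (T : ℝ) ^ (-((d : ℝ) * (1 - θ))) =
      ((H : ℝ) * (T : ℝ) ^ d) ^ θ / (H * (T : ℝ) ^ d) := by
    have e1 : ((H : ℝ) * (T : ℝ) ^ d) ^ θ / (H * (T : ℝ) ^ d) = ((H : ℝ) * (T : ℝ) ^ d) ^ (θ - 1) := by
      rw [Real.rpow_sub hX, Real.rpow_one]
    rw [e1, Real.mul_rpow hHr.le (by positivity), ← Real.rpow_natCast, ← Real.rpow_mul hTr.le]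
    congr 2
    ring
  rw [h8, ← hS]
  ring

/-- few forms have given values at two points -/
theorem up_two' (d H : ℕ) (hd : 1 ≤ d) (x y : Fin (n + 1) → ℤ) (i j : Fin (n + 1))
    (hxi : x i ≠ 0) (hyi : y i ≠ 0) (hij : x i * y j ≠ x j * y i) (hH : 1 ≤ H) (a b : ℤ) :
    (((FF n d H).filter (fun F => eval x F = a ∧ eval y F = b)).card : ℝ) ≤
      3 ^ (Mo n d).card * (FF n d H).card / (H : ℝ) ^ 2 := by
  classical
  obtain ⟨e, rfl⟩ : ∃ e, d = e + 1 := ⟨d - 1, by omega⟩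
  set m1 : Fin (n + 1) →₀ ℕ := Finsupp.single i (e + 1) with hm1
  set m2 : Fin (n + 1) →₀ ℕ := Finsupp.single i e + Finsupp.single j 1 with hm2
  have hd1 : m1.degree = e + 1 := by rw [hm1, Finsupp.degree_single]
  have hd2 : m2.degree = e + 1 := by
    rw [hm2, map_add, Finsupp.degree_single, Finsupp.degree_single]
  have ev1 : ∀ (z : Fin (n + 1) → ℤ) (u : ℤ), eval z (monomial m1 u) = u * z i ^ (e + 1) := by
    intro z u
    rw [eval_monomial, hm1, Finsupp.prod_single_index (h := fun a k => z a ^ k) (pow_zero _)]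
  have ev2 : ∀ (z : Fin (n + 1) → ℤ) (u : ℤ), eval z (monomial m2 u) = u * (z i ^ e * z j) := by
    intro z u
    rw [eval_monomial, hm2, Finsupp.prod_add_index' (h := fun a k => z a ^ k)
      (fun _ => pow_zero _) (fun _ _ _ => pow_add _ _ _),
      Finsupp.prod_single_index (h := fun a k => z a ^ k) (pow_zero _),
      Finsupp.prod_single_index (h := fun a k => z a ^ k) (pow_zero _), pow_one]
  have hcard : ((FF n (e + 1) H).filter (fun F => eval x F = a ∧ eval y F = b)).card *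
      ((Finset.Icc (-(H : ℤ)) H) ×ˢ (Finset.Icc (-(H : ℤ)) H)).card ≤
      (FF n (e + 1) (3 * H)).card := by
    rw [← Finset.card_product]
    refine Finset.card_le_card_of_injOn
      (fun p => p.1 + (monomial m1 p.2.1 + monomial m2 p.2.2)) ?_ ?_
    · rintro ⟨F, u, v⟩ hp
      simp only [Finset.coe_product, Set.mem_prod, Finset.mem_coe, Finset.mem_filter, mem_FF,
        Finset.mem_Icc, ← abs_le] at hp ⊢
      have h1 := forms_add hp.1.1 (forms_add (forms_monomial m1 hd1 u hp.2.1)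
        (forms_monomial m2 hd2 v hp.2.2))
      have e1 : H + (H + H) = 3 * H := by ring
      rwa [e1] at h1
    · rintro ⟨F, u, v⟩ hp ⟨F', u', v'⟩ hp' h
      simp only [Finset.coe_product, Set.mem_prod, Finset.mem_coe, Finset.mem_filter] at hp hp'
      have h : F + (monomial m1 u + monomial m2 v) = F' + (monomial m1 u' + monomial m2 v') := h
      have hx := congrArg (eval x) h
      have hy := congrArg (eval y) h
      simp only [map_add, ev1, ev2, hp.1.2.1, hp.1.2.2, hp'.1.2.1, hp'.1.2.2] at hx hy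
      have h1 : x i ^ e * ((u - u') * x i + (v - v') * x j) = 0 := by
        have : u * x i ^ (e + 1) + v * (x i ^ e * x j) - (u' * x i ^ (e + 1) + v' * (x i ^ e * x j)) = 0 := by
          linarith
        rw [← this]; ring
      have h2 : y i ^ e * ((u - u') * y i + (v - v') * y j) = 0 := by
        have : u * y i ^ (e + 1) + v * (y i ^ e * y j) - (u' * y i ^ (e + 1) + v' * (y i ^ e * y j)) = 0 := by
          linarith
        rw [← this]; ring
      have h3 := (mul_eq_zero.1 h1).resolve_left (pow_ne_zero _ hxi)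
      have h4 := (mul_eq_zero.1 h2).resolve_left (pow_ne_zero _ hyi)
      have h5 : (v - v') * (x i * y j - x j * y i) = 0 := by linear_combination x i * h4 - y i * h3
      have h6 : v - v' = 0 := (mul_eq_zero.1 h5).resolve_right (sub_ne_zero.2 hij)
      rw [h6, zero_mul, add_zero] at h3
      have h7 : u - u' = 0 := (mul_eq_zero.1 h3).resolve_right hxi
      have hv : v = v' := sub_eq_zero.1 h6
      have hu : u = u' := sub_eq_zero.1 h7
      subst hv hu
      have h8 : F = F' := add_right_cancel h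
      rw [h8]
  have h2 : (Finset.Icc (-(H : ℤ)) H).card = 2 * H + 1 := by
    rw [Int.card_Icc]
    omega
  rw [Finset.card_product, h2] at hcard
  have h3 := hcard.trans (card_FF_mul n (e + 1) H 3 (by omega))
  have hHr : (0 : ℝ) < H := by exact_mod_cast hH
  rw [le_div_iff₀ (by positivity)]
  have h4 : ((FF n (e + 1) H).filter (fun F => eval x F = a ∧ eval y F = b)).card * H ^ 2 ≤
      3 ^ (Mo n (e + 1)).card * (FF n (e + 1) H).card := by
    refine le_trans (Nat.mul_le_mul_left _ ?_) h3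
    nlinarith
  exact_mod_cast h4

end Pool.Agent.U580.TT
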