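import Mathlib
import Pool.Agent.U580.TT.Low

set_option autoImplicit false

/-! # Forms with values in thin sets: second moment -/

namespace Pool.Agent.U580.TT

open MvPolynomial Finset Pool.Agent.R870.RC Pool.Agent.U580.RG Pool.Agent.U580.VP

theorem pair_aux (c C M P X Y H T θ : ℝ) (d : ℕ) (hC : 0 < C) (hM : 1 ≤ M) (hH : 1 ≤ H) (hT : 1 ≤ T)
    (hθ0 : 0 ≤ θ) (hθ1 : θ < 1) (hP : 0 ≤ P) (hY : 0 ≤ Y)
    (hc : c ≤ C * Y) (hY2 : Y ≤ M * (H ^ θ * T ^ d)) (hc0 : 0 ≤ c) (hX : X = c * c * (P / H ^ 2)) :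
    X ≤ (C * M) ^ 2 * P * (H ^ (2 * (θ - 1)) * T ^ (2 * d)) := by
  have h1 : c ≤ C * M * (H ^ θ * T ^ d) := by
    calc c ≤ C * Y := hc
      _ ≤ C * (M * (H ^ θ * T ^ d)) := mul_le_mul_of_nonneg_left hY2 hC.le
      _ = _ := by ring
  have hH0 : 0 < H := by linarith
  have h2 : H ^ (2 * (θ - 1)) = H ^ θ * H ^ θ / H ^ 2 := by
    rw [show 2 * (θ - 1) = θ + θ - 2 by ring, Real.rpow_sub hH0, Real.rpow_add hH0]
    norm_num
  have h3 : c * c ≤ (C * M * (H ^ θ * T ^ d)) * (C * M * (H ^ θ * T ^ d)) :=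
    mul_le_mul h1 h1 hc0 (hc0.trans h1)
  rw [hX, h2]
  calc c * c * (P / H ^ 2) ≤ (C * M * (H ^ θ * T ^ d)) * (C * M * (H ^ θ * T ^ d)) * (P / H ^ 2) :=
        mul_le_mul_of_nonneg_right h3 (by positivity)
    _ = _ := by
        rw [show 2 * d = d + d by ring, pow_add]
        ring

/-- few forms have values in a thin set at two points -/
theorem pair_AV (m d : ℕ) (hd : 1 ≤ d) {W : Set ℤ} {θ : ℝ} (hW : Thin W θ) : ∃ K : ℝ, 0 < K ∧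
    ∀ (H T : ℕ), 1 ≤ H → 1 ≤ T → ∀ x ∈ Fam m T, ∀ y ∈ Fam m T, x ≠ y →
      ∀ [DecidableEq (MvPolynomial (Fin (m + 1 + 1)) ℤ)],
      (((AV (m + 1) d H W x ∩ AV (m + 1) d H W y).card : ℕ) : ℝ) ≤
        K * ((FF (m + 1) d H).card : ℝ) * ((H : ℝ) ^ (2 * (θ - 1)) * (T : ℝ) ^ (2 * d)) := by
  classical
  obtain ⟨C, hC, hup⟩ := hW.up
  obtain ⟨M, hM⟩ : ∃ M : ℕ, M = (Mo (m + 1) d).card := ⟨_, rfl⟩
  have hM1 : 1 ≤ M := hM ▸ Mo_pos (m + 1) d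
  have hMr : (1 : ℝ) ≤ M := by exact_mod_cast hM1
  refine ⟨(C * (M * 2 ^ d)) ^ 2 * 3 ^ M, by positivity, fun H T hH hT x hx y hy hxy _ => ?_⟩
  obtain ⟨hx1, -, -⟩ := mem_Fam hx
  obtain ⟨hy1, -, -⟩ := mem_Fam hy
  obtain ⟨j, hj⟩ := Fam_indep hx hy hxy
  obtain ⟨N, hN⟩ : ∃ N : ℕ, N = M * H * (2 * T) ^ d := ⟨_, rfl⟩
  have hN1 : 1 ≤ N := by
    rw [hN]
    exact Nat.one_le_iff_ne_zero.2 (Nat.mul_ne_zero (Nat.mul_ne_zero (by omega) (by omega))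
      (pow_ne_zero _ (by omega)))
  have hval : ∀ z ∈ Fam m T, ∀ F ∈ FF (m + 1) d H, |eval z F| ≤ (N : ℤ) := by
    intro z hz F hF
    obtain ⟨hz1, -, -⟩ := mem_Fam hz
    have := abs_eval_le ((mem_FF F).1 hF) z (2 * T) (fun i => by
      rw [abs_of_nonneg (by have := (hz1 i).1; omega)]
      push_cast
      exact (hz1 i).2)
    rw [← hM, ← hN] at this
    exact this
  have hsub : AV (m + 1) d H W x ∩ AV (m + 1) d H W y ⊆ (cnt W N ×ˢ cnt W N).biUnion fun z =>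
      (FF (m + 1) d H).filter fun F => eval x F = z.1 ∧ eval y F = z.2 := by
    intro F hF
    unfold AV at hF
    obtain ⟨h1, h2⟩ := Finset.mem_inter.1 hF
    obtain ⟨h3, h4⟩ := Finset.mem_filter.1 h1
    obtain ⟨-, h5⟩ := Finset.mem_filter.1 h2
    rw [Finset.mem_biUnion]
    exact ⟨(eval x F, eval y F), Finset.mem_product.2 ⟨mem_cnt.2 ⟨hval x hx F h3, h4⟩,
      mem_cnt.2 ⟨hval y hy F h3, h5⟩⟩, Finset.mem_filter.2 ⟨h3, rfl, rfl⟩⟩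
  obtain ⟨P, hP⟩ : ∃ P : ℝ, P = 3 ^ M * ((FF (m + 1) d H).card : ℝ) := ⟨_, rfl⟩
  have hP0 : 0 ≤ P := by rw [hP]; exact mul_nonneg (pow_nonneg (by norm_num) _) (Nat.cast_nonneg _)
  have h1 : (((AV (m + 1) d H W x ∩ AV (m + 1) d H W y).card : ℕ) : ℝ) ≤
      ∑ z ∈ cnt W N ×ˢ cnt W N,
      (((FF (m + 1) d H).filter fun F => eval x F = z.1 ∧ eval y F = z.2).card : ℝ) := by
    exact_mod_cast (Finset.card_le_card hsub).trans Finset.card_biUnion_le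
  have h2 : ∑ z ∈ cnt W N ×ˢ cnt W N,
      (((FF (m + 1) d H).filter fun F => eval x F = z.1 ∧ eval y F = z.2).card : ℝ) ≤
      ((cnt W N).card : ℝ) * ((cnt W N).card : ℝ) * (P / (H : ℝ) ^ 2) := by
    have := Finset.sum_le_card_nsmul (cnt W N ×ˢ cnt W N)
      (fun z => (((FF (m + 1) d H).filter fun F => eval x F = z.1 ∧ eval y F = z.2).card : ℝ))
      (P / (H : ℝ) ^ 2) (fun z _ => by
        rw [hP, hM]
        exact up_two' (n := m + 1) d H hd x y 0 j (by have := (hx1 0).1; omega)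
          (by have := (hy1 0).1; omega) hj hH z.1 z.2)
    rwa [nsmul_eq_mul, Finset.card_product, Nat.cast_mul] at this
  refine h1.trans (h2.trans ?_)
  have hT1 : (1 : ℝ) ≤ T := by exact_mod_cast hT
  have hH1 : (1 : ℝ) ≤ H := by exact_mod_cast hH
  have h3 : (N : ℝ) ^ θ ≤ (M * 2 ^ d : ℝ) * ((H : ℝ) ^ θ * (T : ℝ) ^ d) := by
    have e1 : (N : ℝ) = (H : ℝ) * ((M * 2 ^ d : ℝ) * (T : ℝ) ^ d) := by
      rw [hN]
      push_cast
      rw [mul_pow]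
      ring
    have e2 : (1 : ℝ) ≤ (M * 2 ^ d : ℝ) * (T : ℝ) ^ d := by
      have a1 : (1 : ℝ) ≤ 2 ^ d := one_le_pow₀ (by norm_num)
      have a2 : (1 : ℝ) ≤ (T : ℝ) ^ d := one_le_pow₀ hT1
      exact one_le_mul_of_one_le_of_one_le (one_le_mul_of_one_le_of_one_le hMr a1) a2
    rw [e1, Real.mul_rpow (by linarith) (by linarith)]
    have e3 : ((M * 2 ^ d : ℝ) * (T : ℝ) ^ d) ^ θ ≤ (M * 2 ^ d : ℝ) * (T : ℝ) ^ d := by
      calc ((M * 2 ^ d : ℝ) * (T : ℝ) ^ d) ^ θ ≤ ((M * 2 ^ d : ℝ) * (T : ℝ) ^ d) ^ (1 : ℝ) :=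
            Real.rpow_le_rpow_of_exponent_le e2 hW.lt_one.le
        _ = _ := Real.rpow_one _
    calc (H : ℝ) ^ θ * ((M * 2 ^ d : ℝ) * (T : ℝ) ^ d) ^ θ ≤
        (H : ℝ) ^ θ * ((M * 2 ^ d : ℝ) * (T : ℝ) ^ d) :=
          mul_le_mul_of_nonneg_left e3 (Real.rpow_nonneg (by linarith) _)
      _ = _ := by ring
  have hM2 : (1 : ℝ) ≤ M * 2 ^ d := by
    have a1 : (1 : ℝ) ≤ 2 ^ d := one_le_pow₀ (by norm_num)
    exact one_le_mul_of_one_le_of_one_le hMr a1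
  refine (pair_aux ((cnt W N).card : ℝ) C (M * 2 ^ d) P _ ((N : ℝ) ^ θ) H T θ d hC hM2 hH1 hT1
    hW.nonneg hW.lt_one hP0 (Real.rpow_nonneg (Nat.cast_nonneg _) _) (hup N hN1) h3
    (Nat.cast_nonneg _) rfl).trans (le_of_eq ?_)
  rw [hP]
  ring

/-- the two bounds for systems -/
theorem low_PV (m : ℕ) {s : ℕ} (d : Fin s → ℕ) {W : Fin s → Set ℤ} {θ : Fin s → ℝ}
    (hW : ∀ i, Thin (W i) (θ i)) : ∃ c : ℝ, 0 < c ∧
    ∀ (H T : ℕ), 1 ≤ T → (∀ i, (2 * T) ^ d i ≤ H / 4) → ∀ x ∈ Fam m T, 1 ≤ H →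
      c * (∏ i, ((FF (m + 1) (d i) H).card : ℝ)) * ((H : ℝ) ^ (-sg θ) * (T : ℝ) ^ (-wd d θ)) ≤
        ((PV (m + 1) d H W x).card : ℝ) := by
  classical
  choose c hc h using fun i => low_AV m (d i) (hW i)
  refine ⟨∏ i, c i, Finset.prod_pos fun i _ => hc i, fun H T hT hH x hx hH1 => ?_⟩
  have hHr : (0 : ℝ) < H := by exact_mod_cast hH1
  have hTr : (0 : ℝ) < T := by exact_mod_cast hT
  unfold PV
  rw [Fintype.card_piFinset, Nat.cast_prod]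
  refine le_trans (le_of_eq ?_) (Finset.prod_le_prod (fun i _ => ?_)
    (fun i _ => h i H T hT (hH i) x hx))
  · rw [Finset.prod_mul_distrib, Finset.prod_mul_distrib, prod_pow d θ H T hHr hTr]
  · refine mul_nonneg (mul_nonneg (hc i).le (Nat.cast_nonneg _)) (mul_nonneg ?_ ?_)
    · exact Real.rpow_nonneg hHr.le _
    · exact Real.rpow_nonneg hTr.le _

theorem pair_PV (m : ℕ) {s : ℕ} (d : Fin s → ℕ) (hd : ∀ i, 1 ≤ d i) {W : Fin s → Set ℤ}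
    {θ : Fin s → ℝ} (hW : ∀ i, Thin (W i) (θ i)) : ∃ K : ℝ, 0 < K ∧
    ∀ (H T : ℕ), 1 ≤ H → 1 ≤ T → ∀ x ∈ Fam m T, ∀ y ∈ Fam m T, x ≠ y →
      ∀ [DecidableEq (Fin s → MvPolynomial (Fin (m + 1 + 1)) ℤ)],
      (((PV (m + 1) d H W x ∩ PV (m + 1) d H W y).card : ℕ) : ℝ) ≤
        K * (∏ i, ((FF (m + 1) (d i) H).card : ℝ)) *
          ((H : ℝ) ^ (-(2 * sg θ)) * (T : ℝ) ^ (2 * ∑ i, d i)) := by
  classical
  choose K hK h using fun i => pair_AV m (d i) (hd i) (hW i)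
  refine ⟨∏ i, K i, Finset.prod_pos fun i _ => hK i, fun H T hH hT x hx y hy hxy _ => ?_⟩
  have hHr : (0 : ℝ) < H := by exact_mod_cast hH
  have hTr : (0 : ℝ) < T := by exact_mod_cast hT
  have hsub : PV (m + 1) d H W x ∩ PV (m + 1) d H W y ⊆
      Fintype.piFinset fun i => AV (m + 1) (d i) H (W i) x ∩ AV (m + 1) (d i) H (W i) y := by
    intro F hF
    obtain ⟨h1, h2⟩ := Finset.mem_inter.1 hF
    unfold PV at h1 h2
    rw [Fintype.mem_piFinset] at h1 h2 ⊢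
    exact fun i => Finset.mem_inter.2 ⟨h1 i, h2 i⟩
  refine (Nat.cast_le.2 (Finset.card_le_card hsub)).trans ?_
  rw [Fintype.card_piFinset, Nat.cast_prod]
  refine (Finset.prod_le_prod (fun i _ => Nat.cast_nonneg _)
    (fun i _ => h i H T hH hT x hx y hy hxy)).trans (le_of_eq ?_)
  rw [Finset.prod_mul_distrib, Finset.prod_mul_distrib, Finset.prod_mul_distrib,
    ← Real.rpow_sum_of_pos hHr, Finset.prod_pow_eq_pow_sum, ← Finset.mul_sum, ← Finset.mul_sum]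
  congr 3
  · unfold sg
    rw [Finset.mul_sum, Finset.mul_sum, ← Finset.sum_neg_distrib]
    exact Finset.sum_congr rfl fun i _ => by ring

theorem union_sub' (m : ℕ) {s : ℕ} (d : Fin s → ℕ) (W : Fin s → Set ℤ) (H T : ℕ)
    [DecidableEq (Fin s → MvPolynomial (Fin (m + 1 + 1)) ℤ)] :
    (((Fam m T).biUnion fun x => PV (m + 1) d H W x : Finset _) : Set _) ⊆
      WV (m + 1) d W H T (2 * T) := by
  classical
  intro F hF
  rw [Finset.mem_coe, Finset.mem_biUnion] at hF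
  obtain ⟨x, hx, hF⟩ := hF
  unfold PV AV at hF
  rw [Fintype.mem_piFinset] at hF
  obtain ⟨i0, -, h6, h7, h8⟩ := prim_of_fam hx
  exact ⟨fun i => (mem_FF _).1 (Finset.mem_filter.1 (hF i)).1, x, h8, h6, h7,
    fun i => (Finset.mem_filter.1 (hF i)).2⟩

theorem concl_aux (C₀ c κ' K S σ τ P C H T : ℝ) (m D : ℕ) (hK : 0 < K) (hc : 0 < c) (hS : 0 ≤ S)
    (hH : 1 ≤ H) (hT : 1 ≤ T) (hσ : 0 < σ) (hτ : τ ≤ D)
    (hC₀ : C₀ = 2 * K * 2 ^ (m + 2) / c) (hC : C₀ ^ (1 / σ) ≤ C)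
    (hP : ((m + 2 + 3 * D : ℕ) : ℝ) / σ ≤ P) (hcond : C * T ^ P ≤ H) :
    (2 * T) ^ (m + 2) * (K * S * (H ^ (-(2 * σ)) * T ^ (2 * D))) ≤
      c * S * (H ^ (-σ) * T ^ (-τ)) / 2 := by
  have hH0 : 0 < H := by linarith
  have hT0 : 0 < T := by linarith
  have hC₀0 : 0 < C₀ := by rw [hC₀]; positivity
  -- the main inequality
  have h1 : C₀ * T ^ (m + 2 + 3 * D) ≤ H ^ σ := by
    have h2 : C₀ ^ (1 / σ) * T ^ (((m + 2 + 3 * D : ℕ) : ℝ) / σ) ≤ H := by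
      refine le_trans ?_ hcond
      refine mul_le_mul hC (Real.rpow_le_rpow_of_exponent_le hT hP) (by positivity) ?_
      exact (Real.rpow_nonneg hC₀0.le _).trans hC
    have h3 := Real.rpow_le_rpow (by positivity) h2 hσ.le
    rw [Real.mul_rpow (by positivity) (by positivity), ← Real.rpow_mul hC₀0.le,
      ← Real.rpow_mul hT0.le, one_div, inv_mul_cancel₀ hσ.ne', Real.rpow_one,
      div_mul_cancel₀ _ hσ.ne', Real.rpow_natCast] at h3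
    exact h3
  have h4 : H ^ (-(2 * σ)) = H ^ (-σ) * (1 / H ^ σ) := by
    rw [show -(2 * σ) = -σ + -σ by ring, Real.rpow_add hH0, Real.rpow_neg hH0.le, one_div]
  have h5 : T ^ (-(D : ℝ)) ≤ T ^ (-τ) := Real.rpow_le_rpow_of_exponent_le hT (by linarith)
  have h6 : T ^ (-(D : ℝ)) = 1 / T ^ D := by
    rw [Real.rpow_neg hT0.le, Real.rpow_natCast, one_div]
  have h7 : K * 2 ^ (m + 2) * T ^ (m + 2 + 3 * D) * (1 / H ^ σ) ≤ c / 2 := by
    rw [hC₀] at h1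
    have hHσ : 0 < H ^ σ := Real.rpow_pos_of_pos hH0 _
    rw [mul_one_div, div_le_iff₀ hHσ]
    have h8 : 2 * K * 2 ^ (m + 2) / c * T ^ (m + 2 + 3 * D) =
      (2 * K * 2 ^ (m + 2) * T ^ (m + 2 + 3 * D)) / c := by ring
    rw [h8, div_le_iff₀ hc] at h1
    linarith
  have hHs : 0 < H ^ (-σ) := Real.rpow_pos_of_pos hH0 _
  rw [h4]
  calc (2 * T) ^ (m + 2) * (K * S * (H ^ (-σ) * (1 / H ^ σ) * T ^ (2 * D)))
      = S * H ^ (-σ) * (1 / T ^ D) * (K * 2 ^ (m + 2) * T ^ (m + 2 + 3 * D) * (1 / H ^ σ)) := by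
        rw [mul_pow, show m + 2 + 3 * D = (m + 2) + 2 * D + D by ring, pow_add T _ D,
          pow_add T (m + 2) (2 * D)]
        field_simp
    _ ≤ S * H ^ (-σ) * (1 / T ^ D) * (c / 2) := mul_le_mul_of_nonneg_left h7 (by positivity)
    _ ≤ S * H ^ (-σ) * T ^ (-τ) * (c / 2) := by
        refine mul_le_mul_of_nonneg_right ?_ (by positivity)
        refine mul_le_mul_of_nonneg_left ?_ (by positivity)
        rw [← h6]
        exact h5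
    _ = _ := by ring

/-- **lower bound** -/
theorem low_wv (m : ℕ) {s : ℕ} (hs : 1 ≤ s) (d : Fin s → ℕ) (hd : ∀ i, 1 ≤ d i) {W : Fin s → Set ℤ}
    {θ : Fin s → ℝ} (hW : ∀ i, Thin (W i) (θ i)) : ∃ c C P : ℝ, 0 < c ∧ 0 < C ∧ 0 < P ∧
    ∀ (H T : ℕ), 1 ≤ H → 1 ≤ T → C * (T : ℝ) ^ P ≤ H →
      c * ((H : ℝ) ^ (-sg θ) * (T : ℝ) ^ (-(wd d θ - (((m + 1 : ℕ) : ℝ) + 1)))) *
        ∏ i, ((FF (m + 1) (d i) H).card : ℝ) ≤ ((WV (m + 1) d W H T (2 * T)).ncard : ℝ) := by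
  classical
  obtain ⟨c, hc, hlow⟩ := low_PV m d hW
  obtain ⟨K, hK, hpair⟩ := pair_PV m d hd hW
  obtain ⟨σ, hσd⟩ : ∃ σ : ℝ, σ = sg θ := ⟨_, rfl⟩
  obtain ⟨τ, hτd⟩ : ∃ τ : ℝ, τ = wd d θ := ⟨_, rfl⟩
  obtain ⟨D, hD⟩ : ∃ D : ℕ, D = ∑ i, d i := ⟨_, rfl⟩
  have hσ : 0 < σ := by
    rw [hσd]
    unfold sg
    have : Nonempty (Fin s) := ⟨⟨0, by omega⟩⟩
    exact Finset.sum_pos (fun i _ => by linarith [(hW i).lt_one]) Finset.univ_nonempty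
  have hτ : τ ≤ D := by
    rw [hτd, hD]
    unfold wd
    push_cast
    refine Finset.sum_le_sum fun i _ => ?_
    have h1 := (hW i).nonneg
    have h2 : (0 : ℝ) ≤ d i := Nat.cast_nonneg _
    nlinarith
  have hdD : ∀ i, d i ≤ D := by
    intro i
    rw [hD]
    exact Finset.single_le_sum (f := d) (fun j _ => Nat.zero_le _) (Finset.mem_univ i)
  rw [← hσd, ← hτd]
  obtain ⟨C₀, hC₀⟩ : ∃ C₀ : ℝ, C₀ = 2 * K * 2 ^ (m + 2) / c := ⟨_, rfl⟩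
  have hC₀0 : 0 < C₀ := by rw [hC₀]; positivity
  refine ⟨c / 2, C₀ ^ (1 / σ) + 8 * 2 ^ D, ((m + 2 + 3 * D : ℕ) : ℝ) / σ + D + 1, by positivity,
    by positivity, by positivity, fun H T hH hT hcond => ?_⟩
  have hH1 : (1 : ℝ) ≤ H := by exact_mod_cast hH
  have hT1 : (1 : ℝ) ≤ T := by exact_mod_cast hT
  have hTr : (0 : ℝ) < T := by linarith
  have hHr : (0 : ℝ) < H := by linarith
  obtain ⟨S, hS⟩ : ∃ S : ℝ, S = ∏ i, ((FF (m + 1) (d i) H).card : ℝ) := ⟨_, rfl⟩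
  have hS0 : 0 ≤ S := by rw [hS]; exact Finset.prod_nonneg fun i _ => Nat.cast_nonneg _
  have hH4 : ∀ i, (2 * T) ^ d i ≤ H / 4 := by
    intro i
    have h1 : (8 * 2 ^ D : ℝ) * (T : ℝ) ^ D ≤ H := by
      refine le_trans ?_ hcond
      have h2 : (T : ℝ) ^ D ≤ (T : ℝ) ^ (((m + 2 + 3 * D : ℕ) : ℝ) / σ + D + 1) := by
        rw [← Real.rpow_natCast]
        refine Real.rpow_le_rpow_of_exponent_le hT1 ?_
        have : (0 : ℝ) ≤ ((m + 2 + 3 * D : ℕ) : ℝ) / σ := by positivity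
        linarith
      refine mul_le_mul ?_ h2 (by positivity) (by positivity)
      have : (0 : ℝ) ≤ C₀ ^ (1 / σ) := Real.rpow_nonneg hC₀0.le _
      linarith
    have h3 : 8 * 2 ^ D * T ^ D ≤ H := by exact_mod_cast h1
    have h4 : (2 * T) ^ d i ≤ 2 ^ D * T ^ D := by
      rw [← mul_pow]
      exact Nat.pow_le_pow_right (by omega) (hdD i)
    have h5 : 8 * (2 ^ D * T ^ D) ≤ H := by rw [← mul_assoc]; exact h3
    omega
  obtain ⟨a, ha⟩ : ∃ a : ℝ, a = c * S * ((H : ℝ) ^ (-σ) * (T : ℝ) ^ (-τ)) := ⟨_, rfl⟩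
  obtain ⟨γ, hγ⟩ : ∃ γ : ℝ, γ = K * S * ((H : ℝ) ^ (-(2 * σ)) * (T : ℝ) ^ (2 * D)) := ⟨_, rfl⟩
  have ha0 : 0 ≤ a := by rw [ha]; positivity
  have hγ0 : 0 ≤ γ := by rw [hγ]; positivity
  obtain ⟨hNa, hNb⟩ := card_Fam m T
  have hN1r : (T : ℝ) ^ (m + 2) ≤ ((Fam m T).card : ℝ) := by exact_mod_cast hNa
  have hN2r : ((Fam m T).card : ℝ) ≤ (2 * T : ℝ) ^ (m + 2) := by exact_mod_cast hNb
  have hcc : ((Fam m T).card : ℝ) * γ ≤ a / 2 := by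
    refine (mul_le_mul_of_nonneg_right hN2r hγ0).trans ?_
    rw [ha, hγ]
    have hP : ((m + 2 + 3 * D : ℕ) : ℝ) / σ ≤ ((m + 2 + 3 * D : ℕ) : ℝ) / σ + D + 1 := by
      have : (0 : ℝ) ≤ (D : ℝ) := Nat.cast_nonneg _
      linarith
    have hC : C₀ ^ (1 / σ) ≤ C₀ ^ (1 / σ) + 8 * 2 ^ D := by
      have : (0 : ℝ) ≤ 8 * 2 ^ D := by positivity
      linarith
    exact concl_aux C₀ c 0 K S σ τ _ _ H T m D hK hc hS0 hH1 hT1 hσ hτ hC₀ hC hP hcond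
  have hmain := bonf_concl (Fam m T) (fun x => PV (m + 1) d H W x) a γ hγ0 (fun x hx => by
      rw [ha, hS, hσd, hτd]
      exact hlow H T hT hH4 x hx hH) (fun x hx y hy => by
      obtain ⟨hne, hy⟩ := Finset.mem_erase.1 hy
      rw [hγ, hS, hD, hσd]
      exact hpair H T hH hT x hx y hy hne.symm) hcc
  have h3 : (((Fam m T).biUnion fun x => PV (m + 1) d H W x).card : ℝ) ≤
      ((WV (m + 1) d W H T (2 * T)).ncard : ℝ) := by
    have := Set.ncard_le_ncard (union_sub' m d W H T) (fin_wv d W H T (2 * T))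
    rw [Set.ncard_coe_finset] at this
    exact_mod_cast this
  refine le_trans ?_ ((mul_le_mul_of_nonneg_right hN1r (by linarith)).trans (hmain.trans h3))
  refine le_of_eq ?_
  rw [ha, hS]
  have e1 : (T : ℝ) ^ (-(τ - (((m + 1 : ℕ) : ℝ) + 1))) = (T : ℝ) ^ (m + 2) * (T : ℝ) ^ (-τ) := by
    rw [← Real.rpow_natCast, ← Real.rpow_add hTr]
    congr 1
    push_cast
    ring
  rw [e1]
  ring

end Pool.Agent.U580.TT
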