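import Mathlib
import Pool.Agent.U580.TT.Fin

set_option autoImplicit false

/-! # Forms with values in thin sets at arbitrary points: lower bounds and pairs -/

namespace Pool.Agent.U580.TT

open MvPolynomial Finset Pool.Agent.R870.RC Pool.Agent.U580.RG Pool.Agent.U580.VP

variable {n : ℕ}

/-- a primitive vector has a coordinate of maximal absolute value -/
theorem prim_of_prm {x : Fin (n + 1) → ℤ} (hx : Prm x) : ∃ i0, Prim x i0 (ht x) := by
  have hx0 : x ≠ 0 := by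
    rintro rfl
    obtain ⟨j, hj⟩ := hx 2 Nat.prime_two
    exact hj (dvd_zero _)
  have hxM : ∀ j, |x j| ≤ ((ht x : ℕ) : ℤ) := by
    intro j
    have : (x j).natAbs ≤ ht x := Finset.le_sup (f := fun j => (x j).natAbs) (Finset.mem_univ j)
    rw [← Int.natCast_natAbs]
    exact_mod_cast this
  obtain ⟨g, y, i0, b, hg, hxy, hy, hb⟩ := exists_prim x hx0 _ hxM
  have hg1 : g.natAbs = 1 := by
    by_contra hne
    obtain ⟨p, hp, hpg⟩ := Nat.exists_prime_and_dvd hne
    obtain ⟨j, hj⟩ := hx p hp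
    apply hj
    rw [hxy j]
    exact Dvd.dvd.mul_right (Int.natCast_dvd.2 hpg) _
  have hxa : ∀ j, (x j).natAbs = (y j).natAbs := by
    intro j
    rw [hxy j, Int.natAbs_mul, hg1, one_mul]
  have hbM : b = ht x := by
    refine le_antisymm hb ?_
    refine Finset.sup_le fun j _ => ?_
    rw [hxa j]
    have := hy.2.2.2 j
    rw [← Int.natCast_natAbs] at this
    exact_mod_cast this
  have hgg : g * g = 1 := by
    rcases Int.natAbs_eq g with h | h <;> rw [hg1] at h <;> rw [h] <;> norm_num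
  have habs : ∀ j, |x j| = |y j| := by
    intro j
    rw [← Int.natCast_natAbs, ← Int.natCast_natAbs, hxa j]
  obtain ⟨⟨a, ha⟩, h1, h2, h3⟩ := hy
  refine ⟨i0, ⟨fun j => g * a j, ?_⟩, ?_, ?_, fun j => ?_⟩
  · have : ∀ j, g * a j * x j = a j * y j := by
      intro j
      rw [hxy j]
      calc g * a j * (g * y j) = (g * g) * (a j * y j) := by ring
        _ = a j * y j := by rw [hgg, one_mul]
    rw [Finset.sum_congr rfl fun j _ => this j]
    exact ha
  · rw [habs, h1, hbM]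
  · rw [← hbM]; exact h2
  · rw [habs, ← hbM]; exact h3 j

/-- a form with a given value at a point -/
theorem part_sol_gen (n d k b : ℕ) (hd : 1 ≤ d) (x : Fin (n + 1) → ℤ) (i0 : Fin (n + 1))
    (hx : Prim x i0 b) (hk : (n + 1) * b ^ d ≤ k) (t : ℤ) (ht : |t| ≤ ((k * b ^ d : ℕ) : ℤ)) :
    ∃ G ∈ Forms n d (k + k), eval x G = t := by
  classical
  obtain ⟨⟨a, ha⟩, hx1, hb, hxb⟩ := hx
  -- Bezout for the powers
  obtain ⟨u, hu⟩ : ∃ u : Fin (n + 1) → ℤ, ∑ i, u i * x i ^ d = 1 := by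
    have h1 : Ideal.span (Set.range x) = ⊤ := by
      rw [Ideal.eq_top_iff_one]
      have : (1 : ℤ) = ∑ i, a i * x i := ha.symm
      rw [this]
      exact Ideal.sum_mem _ fun i _ => Ideal.mul_mem_left _ _ (Ideal.subset_span ⟨i, rfl⟩)
    have h2 := Ideal.span_pow_eq_top (Set.range x) h1 d
    have h3 : (1 : ℤ) ∈ Ideal.span ((fun z => z ^ d) '' Set.range x) := by rw [h2]; trivial
    have h4 : (fun z : ℤ => z ^ d) '' Set.range x = Set.range fun i => x i ^ d := by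
      rw [← Set.range_comp]
      rfl
    rw [h4] at h3
    obtain ⟨u, hu⟩ := (Ideal.mem_span_range_iff_exists_fun).1 h3
    exact ⟨u, hu⟩
  have hb0 : (0 : ℤ) < b := by exact_mod_cast hb
  have hB0 : (0 : ℤ) < (b : ℤ) ^ d := pow_pos hb0 d
  have hxi0 : |x i0 ^ d| = (b : ℤ) ^ d := by rw [abs_pow, hx1]
  have hxid : ∀ i, |x i ^ d| ≤ (b : ℤ) ^ d := by
    intro i
    rw [abs_pow]
    exact pow_le_pow_left₀ (abs_nonneg _) (hxb i) d
  -- reduced coefficients
  obtain ⟨C, hC⟩ : ∃ C : Fin (n + 1) → ℤ, C = fun i => (t * u i) % ((b : ℤ) ^ d) := ⟨_, rfl⟩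
  have hC0 : ∀ i, 0 ≤ C i := fun i => by rw [hC]; exact Int.emod_nonneg _ hB0.ne'
  have hC1 : ∀ i, C i < (b : ℤ) ^ d := fun i => by rw [hC]; exact Int.emod_lt_of_pos _ hB0
  have hxdvd : (x i0 ^ d) ∣ (t - ∑ i ∈ Finset.univ.erase i0, C i * x i ^ d) := by
    have h1 : ((b : ℤ) ^ d) ∣ (t - ∑ i ∈ Finset.univ.erase i0, C i * x i ^ d) := by
      have h2 : ∀ i, ((b : ℤ) ^ d) ∣ (t * u i * x i ^ d - C i * x i ^ d) := by
        intro i
        rw [← sub_mul]
        refine Dvd.dvd.mul_right ?_ _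
        rw [hC]
        exact Int.dvd_self_sub_emod
      have h3 : t - ∑ i ∈ Finset.univ.erase i0, C i * x i ^ d =
          (∑ i ∈ Finset.univ.erase i0, (t * u i * x i ^ d - C i * x i ^ d)) + t * u i0 * x i0 ^ d := by
        have h4 : t = ∑ i, t * u i * x i ^ d := by
          have : ∑ i, t * u i * x i ^ d = t * ∑ i, u i * x i ^ d := by
            rw [Finset.mul_sum]
            exact Finset.sum_congr rfl fun i _ => by ring
          rw [this, hu, mul_one]
        rw [Finset.sum_sub_distrib]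
        have h5 := Finset.add_sum_erase Finset.univ (fun i => t * u i * x i ^ d) (Finset.mem_univ i0)
        linarith
      rw [h3]
      refine dvd_add (Finset.dvd_sum fun i _ => h2 i) ?_
      refine Dvd.dvd.mul_left ?_ _
      rw [← abs_dvd, abs_of_pos hB0, ← hxi0]
      rw [abs_dvd]
    have h6 : (x i0 ^ d) ∣ ((b : ℤ) ^ d) := by
      rw [← hxi0]
      exact (dvd_abs _ _).2 dvd_rfl
    exact h6.trans h1
  obtain ⟨q, hq⟩ := hxdvd
  have hqb : |q| ≤ k + k := by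
    have h1 : |t - ∑ i ∈ Finset.univ.erase i0, C i * x i ^ d| ≤
        k * (b : ℤ) ^ d + (n : ℤ) * ((b : ℤ) ^ d * (b : ℤ) ^ d) := by
      refine (abs_sub _ _).trans (add_le_add ?_ ?_)
      · refine ht.trans (le_of_eq ?_)
        push_cast
        ring
      · refine (Finset.abs_sum_le_sum_abs _ _).trans ?_
        have h2 : ∀ i ∈ Finset.univ.erase i0, |C i * x i ^ d| ≤ (b : ℤ) ^ d * (b : ℤ) ^ d := by
          intro i _
          rw [abs_mul, abs_of_nonneg (hC0 i)]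
          exact mul_le_mul (hC1 i).le (hxid i) (abs_nonneg _) hB0.le
        refine (Finset.sum_le_card_nsmul _ _ _ h2).trans (le_of_eq ?_)
        rw [Finset.card_erase_of_mem (Finset.mem_univ _), Finset.card_univ, Fintype.card_fin,
          nsmul_eq_mul]
        simp
    rw [hq, abs_mul, hxi0] at h1
    have h2 : (b : ℤ) ^ d * |q| ≤ (b : ℤ) ^ d * (k + n * (b : ℤ) ^ d) := by
      refine h1.trans (le_of_eq ?_)
      ring
    have h3 := le_of_mul_le_mul_left h2 hB0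
    have h4 : (n : ℤ) * (b : ℤ) ^ d ≤ k := by
      have h5 : (((n + 1) * b ^ d : ℕ) : ℤ) ≤ k := by exact_mod_cast hk
      push_cast at h5
      nlinarith
    linarith
  -- the form
  obtain ⟨E, hE⟩ : ∃ E : Fin (n + 1) → ℤ, E = Function.update C i0 q := ⟨_, rfl⟩
  have hEi0 : E i0 = q := by rw [hE, Function.update_self]
  have hEi : ∀ i, i ≠ i0 → E i = C i := fun i hi => by rw [hE, Function.update_of_ne hi]
  have hEb : ∀ i, |E i| ≤ k + k := by
    intro i
    by_cases h : i = i0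
    · rw [h, hEi0]; exact hqb
    · rw [hEi i h, abs_of_nonneg (hC0 i)]
      have h1 : (b : ℤ) ^ d ≤ k := by
        have h5 : (((n + 1) * b ^ d : ℕ) : ℤ) ≤ k := by exact_mod_cast hk
        push_cast at h5
        have h6 : (0 : ℤ) ≤ (n : ℤ) * (b : ℤ) ^ d := by positivity
        linarith
      have := hC1 i
      have h7 : (0 : ℤ) ≤ k := Int.natCast_nonneg k
      linarith
  have hsing : ∀ i j : Fin (n + 1), Finsupp.single i d = Finsupp.single j d → i = j := by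
    intro i j h
    have h1 := DFunLike.congr_fun h i
    rw [Finsupp.single_eq_same, Finsupp.single_apply] at h1
    by_contra hne
    rw [if_neg (fun h2 => hne h2.symm)] at h1
    omega
  refine ⟨∑ i, monomial (Finsupp.single i d) (E i), ⟨?_, fun e => ?_⟩, ?_⟩
  · exact IsHomogeneous.sum _ _ _ fun i _ =>
      isHomogeneous_monomial _ (Finsupp.degree_single _ _)
  · rw [coeff_sum]
    by_cases h : ∃ i : Fin (n + 1), Finsupp.single i d = e
    · obtain ⟨i, hi⟩ := h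
      rw [Finset.sum_eq_single i]
      · rw [coeff_monomial, if_pos hi]
        exact_mod_cast hEb i
      · intro j _ hj
        rw [coeff_monomial, if_neg]
        intro h2
        exact hj (hsing j i (h2.trans hi.symm))
      · exact fun h => absurd (Finset.mem_univ _) h
    · rw [Finset.sum_eq_zero, abs_zero]
      · exact_mod_cast Nat.zero_le _
      · intro j _
        rw [coeff_monomial, if_neg]
        exact fun h2 => h ⟨j, h2⟩
  · rw [map_sum]
    have ev : ∀ i : Fin (n + 1), eval x (monomial (Finsupp.single i d) (E i)) = E i * x i ^ d := by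
      intro i
      rw [eval_monomial, Finsupp.prod_single_index (h := fun a k => x a ^ k) (pow_zero _)]
    rw [Finset.sum_congr rfl fun i _ => ev i, ← Finset.add_sum_erase _ _ (Finset.mem_univ i0), hEi0]
    have h1 : ∑ i ∈ Finset.univ.erase i0, E i * x i ^ d =
        ∑ i ∈ Finset.univ.erase i0, C i * x i ^ d :=
      Finset.sum_congr rfl fun i hi => by rw [hEi i (Finset.ne_of_mem_erase hi)]
    rw [h1]
    linarith

/-- many forms have a given value at a point -/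
theorem low_target_gen (n d : ℕ) (hd : 1 ≤ d) : ∃ c : ℝ, 0 < c ∧ ∀ (H b : ℕ),
    (n + 1) * b ^ d ≤ H / 4 → ∀ (x : Fin (n + 1) → ℤ) (i0 : Fin (n + 1)), Prim x i0 b →
    ∀ t : ℤ, |t| ≤ ((H / 4 * b ^ d : ℕ) : ℤ) →
      c * (((FF n d H).card : ℝ) / (H * (b : ℝ) ^ d)) ≤
        (((FF n d H).filter (fun F => eval x F = t)).card : ℝ) := by
  classical
  obtain ⟨M, hM⟩ : ∃ M, M = (Mo n d).card := ⟨_, rfl⟩
  have hM1 : 1 ≤ M := hM ▸ Mo_pos n d
  have hMr : (1 : ℝ) ≤ M := by exact_mod_cast hM1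
  refine ⟨1 / (3 ^ M * (3 ^ M * (3 * M) * 1)), by positivity, fun H b hH x i0 hx t ht => ?_⟩
  have hb : 1 ≤ b := hx.2.2.1
  have h4 : 1 ≤ b ^ d := Nat.one_le_pow _ _ hb
  have h4' : 1 ≤ (n + 1) * b ^ d := Nat.mul_pos (Nat.succ_pos n) h4
  obtain ⟨h, hh⟩ : ∃ h, h = H / 2 := ⟨_, rfl⟩
  have hh1 : 1 ≤ h := by omega
  have hkk : H / 4 + H / 4 ≤ h := by omega
  obtain ⟨G, hG, hGt⟩ := part_sol_gen n d (H / 4) b hd x i0 hx hH t ht
  have h1 := low_pt (n := n) d h hh1 x b hb hx.2.2.2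
  have h2 : ((FF n d h).filter (fun F => eval x F = 0)).card ≤
      ((FF n d H).filter (fun F => eval x F = t)).card := by
    refine Finset.card_le_card_of_injOn (fun F => F + G) ?_ ?_
    · intro F hF
      rw [Finset.mem_coe, Finset.mem_filter, mem_FF] at hF
      rw [Finset.mem_coe, Finset.mem_filter, mem_FF]
      refine ⟨forms_mono (by omega) (forms_add hF.1 hG), ?_⟩
      rw [map_add, hF.2, hGt, zero_add]
    · intro F _ F' _ h
      exact add_right_cancel h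
  have h2r : (((FF n d h).filter (fun F => eval x F = 0)).card : ℝ) ≤
      (((FF n d H).filter (fun F => eval x F = t)).card : ℝ) := by exact_mod_cast h2
  refine le_trans ?_ (h1.trans h2r)
  have h3 : ((FF n d H).card : ℝ) ≤ 3 ^ M * (FF n d h).card := by
    have h5 : 2 * H + 1 ≤ 3 * (2 * h + 1) := by omega
    have h6 : (FF n d H).card ≤ 3 ^ M * (FF n d h).card := by
      rw [card_FF, card_FF, ← hM, ← mul_pow]
      exact Nat.pow_le_pow_left h5 M
    exact_mod_cast h6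
  rw [← hM]
  obtain ⟨A, hA⟩ : ∃ A : ℝ, A = ((FF n d H).card : ℝ) := ⟨_, rfl⟩
  obtain ⟨A', hA'⟩ : ∃ A' : ℝ, A' = ((FF n d h).card : ℝ) := ⟨_, rfl⟩
  have hA'0 : 0 ≤ A' := hA' ▸ Nat.cast_nonneg _
  rw [← hA, ← hA'] at h3
  rw [← hA, ← hA']
  have hbr : (0 : ℝ) < b := by exact_mod_cast hb
  have hhr : (0 : ℝ) < h := by exact_mod_cast hh1
  have hhH : (h : ℝ) ≤ H := by
    have : h ≤ H := by omega
    exact_mod_cast this
  have hHr : (0 : ℝ) < H := lt_of_lt_of_le hhr hhH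
  have e1 : 1 / (3 ^ M * (3 ^ M * (3 * M) * 1)) * (A / (H * (b : ℝ) ^ d)) =
      A / (3 ^ M * (3 ^ M * (3 * M) * 1) * (H * (b : ℝ) ^ d)) := by
    field_simp
  rw [e1]
  have h9 := ineq_aux A A' (3 ^ M) 1 ((b : ℝ) ^ d) M h H (pow_pos (by norm_num) _)
    one_pos (pow_pos hbr _) (by linarith) hhr hhH hA'0 h3
  rw [one_mul] at h9
  exact h9

/-- a set of integers which is thin up to the sign -/
structure Semi (W : Set ℤ) (θ : ℝ) : Prop where
  ex : ∃ W' : Set ℤ, Thin W' θ ∧ W ⊆ W' ∧ ∀ t ∈ W', t ∈ W ∨ -t ∈ W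

theorem Thin.semi {W : Set ℤ} {θ : ℝ} (h : Thin W θ) : Semi W θ :=
  ⟨⟨W, h, le_rfl, fun _ ht => Or.inl ht⟩⟩

theorem Semi.nonneg {W : Set ℤ} {θ : ℝ} (h : Semi W θ) : 0 ≤ θ := by
  obtain ⟨W', h1, -⟩ := h.ex
  exact h1.nonneg

theorem Semi.lt_one {W : Set ℤ} {θ : ℝ} (h : Semi W θ) : θ < 1 := by
  obtain ⟨W', h1, -⟩ := h.ex
  exact h1.lt_one

/-- many forms have a value in a thin set, any point -/
theorem low_AV_gen (n d : ℕ) (hd : 1 ≤ d) {W : Set ℤ} {θ : ℝ} (hW : Semi W θ) : ∃ c : ℝ, 0 < c ∧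
    ∀ (H b : ℕ), (n + 1) * b ^ d ≤ H / 4 → ∀ (x : Fin (n + 1) → ℤ) (i0 : Fin (n + 1)), Prim x i0 b →
      c * ((FF n d H).card : ℝ) * ((H : ℝ) ^ (θ - 1) * (b : ℝ) ^ (-((d : ℝ) * (1 - θ)))) ≤
        ((AV n d H W x).card : ℝ) := by
  classical
  obtain ⟨W', hW', hsub, hneg⟩ := hW.ex
  obtain ⟨c₀, hc₀, hlow⟩ := hW'.low
  obtain ⟨c₁, hc₁, htar⟩ := low_target_gen n d hd
  refine ⟨c₀ / 8 * c₁ / 2, by positivity, fun H b hH x i0 hx => ?_⟩
  have hb : 1 ≤ b := hx.2.2.1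
  have hbr : (0 : ℝ) < b := by exact_mod_cast hb
  have h4 : 1 ≤ b ^ d := Nat.one_le_pow _ _ hb
  have h4' : 1 ≤ (n + 1) * b ^ d := Nat.mul_pos (Nat.succ_pos n) h4
  have hH4 : 4 ≤ H := by omega
  have hHr : (0 : ℝ) < H := by exact_mod_cast (show 0 < H by omega)
  obtain ⟨S, hS⟩ : ∃ S : ℝ, S = ((FF n d H).card : ℝ) := ⟨_, rfl⟩
  have hS0 : 0 ≤ S := by rw [hS]; exact Nat.cast_nonneg _
  obtain ⟨N, hN⟩ : ∃ N : ℕ, N = H / 4 * b ^ d := ⟨_, rfl⟩
  have hN1 : 1 ≤ N := by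
    rw [hN]
    exact Nat.one_le_iff_ne_zero.2 (Nat.mul_ne_zero (by omega) (pow_ne_zero _ (by omega)))
  have hX : (0 : ℝ) < H * (b : ℝ) ^ d := by positivity
  have h1 : 1 / 8 * (H * (b : ℝ) ^ d) ^ θ ≤ (N : ℝ) ^ θ := by
    have e1 : (H : ℝ) * (b : ℝ) ^ d ≤ 8 * N := by
      have e2 : H ≤ 8 * (H / 4) := by omega
      have e3 : (H : ℝ) ≤ 8 * ((H / 4 : ℕ) : ℝ) := by exact_mod_cast e2
      have e4 : (N : ℝ) = ((H / 4 : ℕ) : ℝ) * (b : ℝ) ^ d := by rw [hN, Nat.cast_mul, Nat.cast_pow]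
      rw [e4]
      calc (H : ℝ) * (b : ℝ) ^ d ≤ 8 * ((H / 4 : ℕ) : ℝ) * (b : ℝ) ^ d :=
            mul_le_mul_of_nonneg_right e3 (by positivity)
        _ = _ := by ring
    have e5 : (H * (b : ℝ) ^ d) ^ θ ≤ (8 * (N : ℝ)) ^ θ :=
      Real.rpow_le_rpow hX.le e1 hW'.nonneg
    rw [Real.mul_rpow (by norm_num) (Nat.cast_nonneg _)] at e5
    have e6 : (8 : ℝ) ^ θ ≤ 8 := by
      calc (8 : ℝ) ^ θ ≤ (8 : ℝ) ^ (1 : ℝ) :=
            Real.rpow_le_rpow_of_exponent_le (by norm_num) hW'.lt_one.le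
        _ = 8 := Real.rpow_one _
    have e7 : (0 : ℝ) ≤ (N : ℝ) ^ θ := by positivity
    nlinarith
  have h2 := hlow N hN1
  -- disjoint union
  have h3 : ∑ t ∈ cnt W' N, (((FF n d H).filter (fun F => eval x F = t)).card : ℝ) ≤
      ((AV n d H W' x).card : ℝ) := by
    have e1 : ((cnt W' N).biUnion fun t => (FF n d H).filter (fun F => eval x F = t)) ⊆
        AV n d H W' x := by
      intro F hF
      obtain ⟨t, ht, hF⟩ := Finset.mem_biUnion.1 hF
      obtain ⟨e2, e3⟩ := Finset.mem_filter.1 hF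
      unfold AV
      exact Finset.mem_filter.2 ⟨e2, e3 ▸ (mem_cnt.1 ht).2⟩
    have e2 := Finset.card_le_card e1
    rw [Finset.card_biUnion] at e2
    · exact_mod_cast e2
    · intro t _ t' _ htt'
      rw [Function.onFun, Finset.disjoint_left]
      intro F hF hF'
      exact htt' ((Finset.mem_filter.1 hF).2.symm.trans (Finset.mem_filter.1 hF').2)
  have h5 : ((cnt W' N).card : ℝ) * (c₁ * (S / (H * (b : ℝ) ^ d))) ≤
      ∑ t ∈ cnt W' N, (((FF n d H).filter (fun F => eval x F = t)).card : ℝ) := by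
    have := Finset.card_nsmul_le_sum (cnt W' N)
      (fun t => (((FF n d H).filter (fun F => eval x F = t)).card : ℝ))
      (c₁ * (S / (H * (b : ℝ) ^ d))) (fun t ht => by
        rw [hS]
        exact htar H b hH x i0 hx t (by rw [← hN]; exact (mem_cnt.1 ht).1))
    rwa [nsmul_eq_mul] at this
  have h6 : (c₀ * (1 / 8 * (H * (b : ℝ) ^ d) ^ θ)) * (c₁ * (S / (H * (b : ℝ) ^ d))) ≤
      ((cnt W' N).card : ℝ) * (c₁ * (S / (H * (b : ℝ) ^ d))) := by
    refine mul_le_mul_of_nonneg_right ?_ (by positivity)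
    exact (mul_le_mul_of_nonneg_left h1 hc₀.le).trans h2
  have h7 : ((AV n d H W' x).card : ℝ) ≤ 2 * ((AV n d H W x).card : ℝ) := by
    have e1 : AV n d H W' x ⊆ AV n d H W x ∪ (AV n d H W x).image fun F => -F := by
      intro F hF
      unfold AV at hF ⊢
      obtain ⟨e2, e3⟩ := Finset.mem_filter.1 hF
      rcases hneg _ e3 with e4 | e4
      · exact Finset.mem_union_left _ (Finset.mem_filter.2 ⟨e2, e4⟩)
      · refine Finset.mem_union_right _ (Finset.mem_image.2 ⟨-F, Finset.mem_filter.2 ⟨?_, ?_⟩,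
          neg_neg F⟩)
        · rw [mem_FF] at e2 ⊢
          refine ⟨e2.1.neg, fun m => ?_⟩
          rw [coeff_neg, abs_neg]
          exact e2.2 m
        · rw [map_neg]
          exact e4
    have e5 := (Finset.card_le_card e1).trans (Finset.card_union_le _ _)
    have e6 : ((AV n d H W x).image fun F => -F).card ≤ (AV n d H W x).card :=
      Finset.card_image_le
    have e7 : (AV n d H W' x).card ≤ 2 * (AV n d H W x).card := by omega
    exact_mod_cast e7
  have h9 := h6.trans (h5.trans (h3.trans h7))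
  have h8 : (H : ℝ) ^ (θ - 1) * (b : ℝ) ^ (-((d : ℝ) * (1 - θ))) =
      ((H : ℝ) * (b : ℝ) ^ d) ^ θ / (H * (b : ℝ) ^ d) := by
    have e1 : ((H : ℝ) * (b : ℝ) ^ d) ^ θ / (H * (b : ℝ) ^ d) = ((H : ℝ) * (b : ℝ) ^ d) ^ (θ - 1) := by
      rw [Real.rpow_sub hX, Real.rpow_one]
    rw [e1, Real.mul_rpow hHr.le (by positivity), ← Real.rpow_natCast, ← Real.rpow_mul hbr.le]
    congr 2
    ring
  rw [h8, ← hS]
  have h10 : c₀ / 8 * c₁ / 2 * S * (((H : ℝ) * (b : ℝ) ^ d) ^ θ / (H * (b : ℝ) ^ d)) =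
      ((c₀ * (1 / 8 * (H * (b : ℝ) ^ d) ^ θ)) * (c₁ * (S / (H * (b : ℝ) ^ d)))) / 2 := by ring
  rw [h10]
  linarith

end Pool.Agent.U580.TT
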