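import Mathlib
import Pool.Agent.U580.TT.Gen

set_option autoImplicit false

/-! # Forms with values in thin sets: the law for arbitrary sets of points -/

namespace Pool.Agent.U580.TT

open MvPolynomial Finset Pool.Agent.R870.RC Pool.Agent.U580.RG Pool.Agent.U580.VP

variable {n : ℕ}

/-- few forms have given values at two points: two monomials with independent values -/
theorem up_two_mon (d H : ℕ) (x y : Fin (n + 1) → ℤ) (m1 m2 : Fin (n + 1) →₀ ℕ)
    (hd1 : m1.degree = d) (hd2 : m2.degree = d) (p q r t : ℤ)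
    (ex1 : ∀ u : ℤ, eval x (monomial m1 u) = u * p) (ex2 : ∀ u : ℤ, eval x (monomial m2 u) = u * q)
    (ey1 : ∀ u : ℤ, eval y (monomial m1 u) = u * r) (ey2 : ∀ u : ℤ, eval y (monomial m2 u) = u * t)
    (hdet : p * t - q * r ≠ 0) (hH : 1 ≤ H) (a b : ℤ) :
    (((FF n d H).filter (fun F => eval x F = a ∧ eval y F = b)).card : ℝ) ≤
      3 ^ (Mo n d).card * (FF n d H).card / (H : ℝ) ^ 2 := by
  classical
  have hcard : ((FF n d H).filter (fun F => eval x F = a ∧ eval y F = b)).card *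
      ((Finset.Icc (-(H : ℤ)) H) ×ˢ (Finset.Icc (-(H : ℤ)) H)).card ≤
      (FF n d (3 * H)).card := by
    rw [← Finset.card_product]
    refine Finset.card_le_card_of_injOn
      (fun p => p.1 + (monomial m1 p.2.1 + monomial m2 p.2.2)) ?_ ?_
    · rintro ⟨F, u, v⟩ hp
      simp only [Finset.coe_product, Set.mem_prod, Finset.mem_coe, Finset.mem_filter, mem_FF,
        Finset.mem_Icc, ← abs_le] at hp ⊢
      have h1 := forms_add hp.1.1 (forms_add (forms_monomial m1 hd1 u hp.2.1)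
        (forms_monomial m2 hd2 v hp.2.2))
      have e1 : H + (H + H) = 3 * H := by ring
      rwa [e1] at h1
    · rintro ⟨F, u, v⟩ hp ⟨F', u', v'⟩ hp' h
      simp only [Finset.coe_product, Set.mem_prod, Finset.mem_coe, Finset.mem_filter] at hp hp'
      have h : F + (monomial m1 u + monomial m2 v) = F' + (monomial m1 u' + monomial m2 v') := h
      have hx := congrArg (eval x) h
      have hy := congrArg (eval y) h
      simp only [map_add, ex1, ex2, ey1, ey2, hp.1.2.1, hp.1.2.2, hp'.1.2.1, hp'.1.2.2] at hx hy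
      have h3 : (u - u') * p + (v - v') * q = 0 := by linarith
      have h4 : (u - u') * r + (v - v') * t = 0 := by linarith
      have h5 : (u - u') * (p * t - q * r) = 0 := by linear_combination t * h3 - q * h4
      have h6 : (v - v') * (p * t - q * r) = 0 := by linear_combination p * h4 - r * h3
      have hu : u = u' := sub_eq_zero.1 ((mul_eq_zero.1 h5).resolve_right hdet)
      have hv : v = v' := sub_eq_zero.1 ((mul_eq_zero.1 h6).resolve_right hdet)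
      subst hv hu
      have h8 : F = F' := add_right_cancel h
      rw [h8]
  have h2 : (Finset.Icc (-(H : ℤ)) H).card = 2 * H + 1 := by
    rw [Int.card_Icc]
    omega
  rw [Finset.card_product, h2] at hcard
  have h3 := hcard.trans (card_FF_mul n d H 3 (by omega))
  have hHr : (0 : ℝ) < H := by exact_mod_cast hH
  rw [le_div_iff₀ (by positivity)]
  have h4 : ((FF n d H).filter (fun F => eval x F = a ∧ eval y F = b)).card * H ^ 2 ≤
      3 ^ (Mo n d).card * (FF n d H).card := by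
    refine le_trans (Nat.mul_le_mul_left _ ?_) h3
    nlinarith
  exact_mod_cast h4

/-- two vectors which do not represent the same point -/
def Indep (x y : Fin (n + 1) → ℤ) : Prop := ∃ i j, x i * y j ≠ x j * y i

theorem up_two_gen (d H : ℕ) (hd : 1 ≤ d) (x y : Fin (n + 1) → ℤ) (hx : x ≠ 0) (hy : y ≠ 0)
    (hxy : Indep x y) (hH : 1 ≤ H) (a b : ℤ) :
    (((FF n d H).filter (fun F => eval x F = a ∧ eval y F = b)).card : ℝ) ≤
      3 ^ (Mo n d).card * (FF n d H).card / (H : ℝ) ^ 2 := by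
  classical
  by_cases hcom : ∃ i, x i ≠ 0 ∧ y i ≠ 0
  · obtain ⟨i, hxi, hyi⟩ := hcom
    have hj : ∃ j, x i * y j ≠ x j * y i := by
      by_contra hno
      push Not at hno
      obtain ⟨k, l, hkl⟩ := hxy
      apply hkl
      have h1 := hno k
      have h2 := hno l
      have h3 : x i * (x k * y l - x l * y k) = 0 := by
        linear_combination x k * h2 - x l * h1
      have := (mul_eq_zero.1 h3).resolve_left hxi
      linarith
    obtain ⟨j, hij⟩ := hj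
    exact up_two' d H hd x y i j hxi hyi hij hH a b
  · push Not at hcom
    obtain ⟨i, hi⟩ := Function.ne_iff.1 hx
    obtain ⟨j, hj⟩ := Function.ne_iff.1 hy
    have hi : x i ≠ 0 := hi
    have hj : y j ≠ 0 := hj
    have hyi : y i = 0 := hcom i hi
    have hxj : x j = 0 := by
      by_contra h
      exact hj (hcom j h)
    have ev : ∀ (z : Fin (n + 1) → ℤ) (k : Fin (n + 1)) (u : ℤ),
        eval z (monomial (Finsupp.single k d) u) = u * z k ^ d := by
      intro z k u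
      rw [eval_monomial, Finsupp.prod_single_index (h := fun a k => z a ^ k) (pow_zero _)]
    refine up_two_mon d H x y (Finsupp.single i d) (Finsupp.single j d)
      (Finsupp.degree_single _ _) (Finsupp.degree_single _ _) (x i ^ d) (x j ^ d) (y i ^ d) (y j ^ d)
      (ev x i) (ev x j) (ev y i) (ev y j) ?_ hH a b
    rw [hyi, hxj, zero_pow (by omega), mul_zero, sub_zero]
    exact mul_ne_zero (pow_ne_zero _ hi) (pow_ne_zero _ hj)

/-- few forms have values in a thin set at two points -/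
theorem pair_AV_gen (n d : ℕ) (hd : 1 ≤ d) {W : Set ℤ} {θ : ℝ} (hW : Semi W θ) : ∃ K : ℝ, 0 < K ∧
    ∀ (H B : ℕ), 1 ≤ H → 1 ≤ B → ∀ x y : Fin (n + 1) → ℤ, (∀ i, |x i| ≤ B) → (∀ i, |y i| ≤ B) →
      x ≠ 0 → y ≠ 0 → Indep x y → ∀ [DecidableEq (MvPolynomial (Fin (n + 1)) ℤ)],
      (((AV n d H W x ∩ AV n d H W y).card : ℕ) : ℝ) ≤
        K * ((FF n d H).card : ℝ) * ((H : ℝ) ^ (2 * (θ - 1)) * (B : ℝ) ^ (2 * d)) := by
  classical
  obtain ⟨W', hW', hsub', -⟩ := hW.ex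
  obtain ⟨C, hC, hup⟩ := hW'.up
  obtain ⟨M, hM⟩ : ∃ M : ℕ, M = (Mo n d).card := ⟨_, rfl⟩
  have hM1 : 1 ≤ M := hM ▸ Mo_pos n d
  have hMr : (1 : ℝ) ≤ M := by exact_mod_cast hM1
  refine ⟨(C * M) ^ 2 * 3 ^ M, by positivity, fun H B hH hB x y hx hy hx0 hy0 hxy _ => ?_⟩
  obtain ⟨N, hN⟩ : ∃ N : ℕ, N = M * H * B ^ d := ⟨_, rfl⟩
  have hN1 : 1 ≤ N := by
    rw [hN]
    exact Nat.one_le_iff_ne_zero.2 (Nat.mul_ne_zero (Nat.mul_ne_zero (by omega) (by omega))
      (pow_ne_zero _ (by omega)))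
  have hval : ∀ z : Fin (n + 1) → ℤ, (∀ i, |z i| ≤ B) → ∀ F ∈ FF n d H, |eval z F| ≤ (N : ℤ) := by
    intro z hz F hF
    have := abs_eval_le ((mem_FF F).1 hF) z B hz
    rw [← hM, ← hN] at this
    exact this
  have hsub : AV n d H W x ∩ AV n d H W y ⊆ (cnt W' N ×ˢ cnt W' N).biUnion fun z =>
      (FF n d H).filter fun F => eval x F = z.1 ∧ eval y F = z.2 := by
    intro F hF
    unfold AV at hF
    obtain ⟨h1, h2⟩ := Finset.mem_inter.1 hF
    obtain ⟨h3, h4⟩ := Finset.mem_filter.1 h1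
    obtain ⟨-, h5⟩ := Finset.mem_filter.1 h2
    rw [Finset.mem_biUnion]
    exact ⟨(eval x F, eval y F), Finset.mem_product.2 ⟨mem_cnt.2 ⟨hval x hx F h3, hsub' h4⟩,
      mem_cnt.2 ⟨hval y hy F h3, hsub' h5⟩⟩, Finset.mem_filter.2 ⟨h3, rfl, rfl⟩⟩
  obtain ⟨P, hP⟩ : ∃ P : ℝ, P = 3 ^ M * ((FF n d H).card : ℝ) := ⟨_, rfl⟩
  have hP0 : 0 ≤ P := by rw [hP]; exact mul_nonneg (pow_nonneg (by norm_num) _) (Nat.cast_nonneg _)
  have h1 : (((AV n d H W x ∩ AV n d H W y).card : ℕ) : ℝ) ≤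
      ∑ z ∈ cnt W' N ×ˢ cnt W' N,
      (((FF n d H).filter fun F => eval x F = z.1 ∧ eval y F = z.2).card : ℝ) := by
    exact_mod_cast (Finset.card_le_card hsub).trans Finset.card_biUnion_le
  have h2 : ∑ z ∈ cnt W' N ×ˢ cnt W' N,
      (((FF n d H).filter fun F => eval x F = z.1 ∧ eval y F = z.2).card : ℝ) ≤
      ((cnt W' N).card : ℝ) * ((cnt W' N).card : ℝ) * (P / (H : ℝ) ^ 2) := by
    have := Finset.sum_le_card_nsmul (cnt W' N ×ˢ cnt W' N)
      (fun z => (((FF n d H).filter fun F => eval x F = z.1 ∧ eval y F = z.2).card : ℝ))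
      (P / (H : ℝ) ^ 2) (fun z _ => by
        rw [hP, hM]
        exact up_two_gen d H hd x y hx0 hy0 hxy hH z.1 z.2)
    rwa [nsmul_eq_mul, Finset.card_product, Nat.cast_mul] at this
  refine h1.trans (h2.trans ?_)
  have hB1 : (1 : ℝ) ≤ B := by exact_mod_cast hB
  have hH1 : (1 : ℝ) ≤ H := by exact_mod_cast hH
  have h3 : (N : ℝ) ^ θ ≤ (M : ℝ) * ((H : ℝ) ^ θ * (B : ℝ) ^ d) := by
    have e1 : (N : ℝ) = (H : ℝ) * ((M : ℝ) * (B : ℝ) ^ d) := by
      rw [hN]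
      push_cast
      ring
    have e2 : (1 : ℝ) ≤ (M : ℝ) * (B : ℝ) ^ d := by
      have a2 : (1 : ℝ) ≤ (B : ℝ) ^ d := one_le_pow₀ hB1
      exact one_le_mul_of_one_le_of_one_le hMr a2
    rw [e1, Real.mul_rpow (by linarith) (by linarith)]
    have e3 : ((M : ℝ) * (B : ℝ) ^ d) ^ θ ≤ (M : ℝ) * (B : ℝ) ^ d := by
      calc ((M : ℝ) * (B : ℝ) ^ d) ^ θ ≤ ((M : ℝ) * (B : ℝ) ^ d) ^ (1 : ℝ) :=
            Real.rpow_le_rpow_of_exponent_le e2 hW'.lt_one.le
        _ = _ := Real.rpow_one _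
    calc (H : ℝ) ^ θ * ((M : ℝ) * (B : ℝ) ^ d) ^ θ ≤
        (H : ℝ) ^ θ * ((M : ℝ) * (B : ℝ) ^ d) :=
          mul_le_mul_of_nonneg_left e3 (Real.rpow_nonneg (by linarith) _)
      _ = _ := by ring
  refine (pair_aux ((cnt W' N).card : ℝ) C M P _ ((N : ℝ) ^ θ) H B θ d hC hMr hH1 hB1
    hW'.nonneg hW'.lt_one hP0 (Real.rpow_nonneg (Nat.cast_nonneg _) _) (hup N hN1) h3
    (Nat.cast_nonneg _) rfl).trans (le_of_eq ?_)
  rw [hP]
  ring

/-- the upper bound for systems -/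
theorem up_PV_gen {s : ℕ} (d : Fin s → ℕ) {W : Fin s → Set ℤ} {θ : Fin s → ℝ}
    (hW : ∀ i, Semi (W i) (θ i)) : ∃ K : ℝ, 0 < K ∧
    ∀ (H B : ℕ), 1 ≤ H → ∀ x : Fin (n + 1) → ℤ, Prm x → ht x ≤ B →
      ((PV n d H W x).card : ℝ) ≤ K * (∏ i, ((FF n (d i) H).card : ℝ)) * mm H B ^ (∑ i, d i) *
        ((H : ℝ) ^ (-sg θ) * (ht x : ℝ) ^ (-wd d θ)) := by
  classical
  choose W' hW' hsub hneg using fun i => (hW i).ex
  obtain ⟨K, hK, h⟩ := card_PV (n := n) d hW'
  refine ⟨K, hK, fun H B hH x hx hB => ?_⟩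
  obtain ⟨i0, hi0⟩ := prim_of_prm hx
  refine le_trans ?_ (h H B hH x i0 (ht x) hi0 hB)
  refine Nat.cast_le.2 (Finset.card_le_card ?_)
  unfold PV AV
  intro F hF
  rw [Fintype.mem_piFinset] at hF ⊢
  intro i
  obtain ⟨h1, h2⟩ := Finset.mem_filter.1 (hF i)
  exact Finset.mem_filter.2 ⟨h1, hsub i h2⟩

/-- the lower bound for systems -/
theorem low_PV_gen {s : ℕ} (d : Fin s → ℕ) (hd : ∀ i, 1 ≤ d i) {W : Fin s → Set ℤ}
    {θ : Fin s → ℝ} (hW : ∀ i, Semi (W i) (θ i)) : ∃ c : ℝ, 0 < c ∧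
    ∀ (H : ℕ), 1 ≤ H → ∀ x : Fin (n + 1) → ℤ, Prm x → (∀ i, (n + 1) * (ht x) ^ d i ≤ H / 4) →
      c * (∏ i, ((FF n (d i) H).card : ℝ)) * ((H : ℝ) ^ (-sg θ) * (ht x : ℝ) ^ (-wd d θ)) ≤
        ((PV n d H W x).card : ℝ) := by
  classical
  choose c hc h using fun i => low_AV_gen n (d i) (hd i) (hW i)
  refine ⟨∏ i, c i, Finset.prod_pos fun i _ => hc i, fun H hH x hx hxH => ?_⟩
  obtain ⟨i0, hi0⟩ := prim_of_prm hx
  have hHr : (0 : ℝ) < H := by exact_mod_cast hH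
  have hbr : (0 : ℝ) < (ht x : ℝ) := by exact_mod_cast hi0.2.2.1
  unfold PV
  rw [Fintype.card_piFinset, Nat.cast_prod]
  refine le_trans (le_of_eq ?_) (Finset.prod_le_prod (fun i _ => ?_)
    (fun i _ => h i H (ht x) (hxH i) x i0 hi0))
  · rw [Finset.prod_mul_distrib, Finset.prod_mul_distrib, prod_pow d θ H (ht x) hHr hbr]
  · refine mul_nonneg (mul_nonneg (hc i).le (Nat.cast_nonneg _)) (mul_nonneg ?_ ?_)
    · exact Real.rpow_nonneg hHr.le _
    · exact Real.rpow_nonneg hbr.le _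

/-- the pair bound for systems -/
theorem pair_PV_gen {s : ℕ} (d : Fin s → ℕ) (hd : ∀ i, 1 ≤ d i) {W : Fin s → Set ℤ}
    {θ : Fin s → ℝ} (hW : ∀ i, Semi (W i) (θ i)) : ∃ K : ℝ, 0 < K ∧
    ∀ (H B : ℕ), 1 ≤ H → 1 ≤ B → ∀ x y : Fin (n + 1) → ℤ, (∀ i, |x i| ≤ B) → (∀ i, |y i| ≤ B) →
      x ≠ 0 → y ≠ 0 → Indep x y → ∀ [DecidableEq (Fin s → MvPolynomial (Fin (n + 1)) ℤ)],
      (((PV n d H W x ∩ PV n d H W y).card : ℕ) : ℝ) ≤
        K * (∏ i, ((FF n (d i) H).card : ℝ)) *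
          ((H : ℝ) ^ (-(2 * sg θ)) * (B : ℝ) ^ (2 * ∑ i, d i)) := by
  classical
  choose K hK h using fun i => pair_AV_gen n (d i) (hd i) (hW i)
  refine ⟨∏ i, K i, Finset.prod_pos fun i _ => hK i, fun H B hH hB x y hx hy hx0 hy0 hxy _ => ?_⟩
  have hHr : (0 : ℝ) < H := by exact_mod_cast hH
  have hsub : PV n d H W x ∩ PV n d H W y ⊆
      Fintype.piFinset fun i => AV n (d i) H (W i) x ∩ AV n (d i) H (W i) y := by
    intro F hF
    obtain ⟨h1, h2⟩ := Finset.mem_inter.1 hF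
    unfold PV at h1 h2
    rw [Fintype.mem_piFinset] at h1 h2 ⊢
    exact fun i => Finset.mem_inter.2 ⟨h1 i, h2 i⟩
  refine (Nat.cast_le.2 (Finset.card_le_card hsub)).trans ?_
  rw [Fintype.card_piFinset, Nat.cast_prod]
  refine (Finset.prod_le_prod (fun i _ => Nat.cast_nonneg _)
    (fun i _ => h i H B hH hB x y hx hy hx0 hy0 hxy)).trans (le_of_eq ?_)
  rw [Finset.prod_mul_distrib, Finset.prod_mul_distrib, Finset.prod_mul_distrib,
    ← Real.rpow_sum_of_pos hHr, Finset.prod_pow_eq_pow_sum, ← Finset.mul_sum, ← Finset.mul_sum]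
  congr 3
  · unfold sg
    rw [Finset.mul_sum, Finset.mul_sum, ← Finset.sum_neg_distrib]
    exact Finset.sum_congr rfl fun i _ => by ring

end Pool.Agent.U580.TT
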