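import Mathlib
import Pool.Agent.U580.TT.Law

set_option autoImplicit false

/-! # The law of the points of random systems: all sets of points -/

namespace Pool.Agent.U580.TT

open MvPolynomial Finset Pool.Agent.R870.RC Pool.Agent.U580.RG Pool.Agent.U580.VP

variable {n : ℕ}

theorem abs_le_ht (x : Fin (n + 1) → ℤ) (j : Fin (n + 1)) : |x j| ≤ ((ht x : ℕ) : ℤ) := by
  have : (x j).natAbs ≤ ht x := Finset.le_sup (f := fun j => (x j).natAbs) (Finset.mem_univ j)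
  rw [← Int.natCast_natAbs]
  exact_mod_cast this

theorem card_pts {B : ℕ} (hB : 1 ≤ B) (A : Finset (Fin (n + 1) → ℤ))
    (hA : ∀ x ∈ A, Prm x ∧ ht x ≤ B) : A.card ≤ (3 * B) ^ (n + 1) := by
  classical
  have h1 : A ⊆ Fintype.piFinset fun _ : Fin (n + 1) => Finset.Icc (-(B : ℤ)) B := by
    intro x hx
    rw [Fintype.mem_piFinset]
    intro j
    rw [Finset.mem_Icc, ← abs_le]
    refine (abs_le_ht x j).trans ?_
    exact_mod_cast (hA x hx).2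
  have h2 := Finset.card_le_card h1
  rw [Fintype.card_piFinset_const, Int.card_Icc] at h2
  refine h2.trans (Nat.pow_le_pow_left ?_ _)
  omega

theorem ht_pos {x : Fin (n + 1) → ℤ} (hx : Prm x) : 1 ≤ ht x := by
  obtain ⟨i0, hi0⟩ := prim_of_prm hx
  exact hi0.2.2.1

theorem prm_ne_zero {x : Fin (n + 1) → ℤ} (hx : Prm x) : x ≠ 0 := by
  rintro rfl
  obtain ⟨j, hj⟩ := hx 2 Nat.prime_two
  exact hj (dvd_zero _)

theorem wd_nonneg {s : ℕ} (d : Fin s → ℕ) {θ : Fin s → ℝ} (hθ : ∀ i, θ i < 1) : 0 ≤ wd d θ := by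
  unfold wd
  exact Finset.sum_nonneg fun i _ => mul_nonneg (Nat.cast_nonneg _) (by linarith [hθ i])

theorem wd_le {s : ℕ} (d : Fin s → ℕ) {θ : Fin s → ℝ} (hθ : ∀ i, 0 ≤ θ i) :
    wd d θ ≤ ((∑ i, d i : ℕ) : ℝ) := by
  unfold wd
  push_cast
  refine Finset.sum_le_sum fun i _ => ?_
  have h2 : (0 : ℝ) ≤ d i := Nat.cast_nonneg _
  nlinarith [hθ i]

theorem pair_concl (K c S σ H B b τ N X : ℝ) (k D : ℕ) (hK : 0 < K) (hc : 0 < c) (hH : 1 ≤ H)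
    (hB : 1 ≤ B) (hb : 1 ≤ b) (hbB : b ≤ B) (hτ0 : 0 ≤ τ) (hτ : τ ≤ D)
    (hN : N ≤ (3 * B) ^ k) (hS : 0 ≤ S)
    (hX : c * S * (H ^ (-σ) * b ^ (-τ)) ≤ X) :
    N * (K * S * (H ^ (-(2 * σ)) * B ^ (2 * D))) ≤
      (K * 3 ^ k / c) * B ^ (k + 3 * D) * H ^ (-σ) * X := by
  have hH0 : 0 < H := by linarith
  have hB0 : 0 < B := by linarith
  have hb0 : 0 < b := by linarith
  have h1 : H ^ (-(2 * σ)) = H ^ (-σ) * H ^ (-σ) := by
    rw [← Real.rpow_add hH0]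
    congr 1
    ring
  have h2 : 1 ≤ B ^ D * b ^ (-τ) := by
    have e1 : b ^ (-τ) = 1 / b ^ τ := by rw [Real.rpow_neg hb0.le, one_div]
    rw [e1, mul_one_div, le_div_iff₀ (Real.rpow_pos_of_pos hb0 _), one_mul]
    calc b ^ τ ≤ B ^ τ := Real.rpow_le_rpow hb0.le hbB hτ0
      _ ≤ B ^ (D : ℝ) := Real.rpow_le_rpow_of_exponent_le hB hτ
      _ = B ^ D := Real.rpow_natCast _ _
  have hHs : 0 < H ^ (-σ) := Real.rpow_pos_of_pos hH0 _
  have hBD : 0 < B ^ D := pow_pos hB0 _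
  calc N * (K * S * (H ^ (-(2 * σ)) * B ^ (2 * D)))
      ≤ (3 * B) ^ k * (K * S * (H ^ (-(2 * σ)) * B ^ (2 * D))) :=
        mul_le_mul_of_nonneg_right hN (by positivity)
    _ = (K * 3 ^ k) * (B ^ k * B ^ (2 * D)) * H ^ (-σ) * (S * H ^ (-σ)) * 1 := by
        rw [h1, mul_pow]
        ring
    _ ≤ (K * 3 ^ k) * (B ^ k * B ^ (2 * D)) * H ^ (-σ) * (S * H ^ (-σ)) * (B ^ D * b ^ (-τ)) :=
        mul_le_mul_of_nonneg_left h2 (by positivity)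
    _ = (K * 3 ^ k / c) * B ^ (k + 3 * D) * H ^ (-σ) * (c * S * (H ^ (-σ) * b ^ (-τ))) := by
        rw [show k + 3 * D = k + 2 * D + D by ring, pow_add, pow_add]
        field_simp
    _ ≤ _ := mul_le_mul_of_nonneg_left hX (by positivity)

/-- the expected number of points in a set -/
theorem gt {s : ℕ} (d : Fin s → ℕ) (hd : ∀ i, 1 ≤ d i) {W : Fin s → Set ℤ} {θ : Fin s → ℝ}
    (hW : ∀ i, Semi (W i) (θ i)) : ∃ (c C : ℝ) (P : ℕ), 0 < c ∧ 0 < C ∧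
    ∀ H B : ℕ, 1 ≤ H → 1 ≤ B → ∀ A : Finset (Fin (n + 1) → ℤ), (∀ x ∈ A, Prm x ∧ ht x ≤ B) →
    (∀ x ∈ A, ∀ y ∈ A, x ≠ y → Indep x y) →
    ∀ [DecidableEq (Fin s → MvPolynomial (Fin (n + 1)) ℤ)],
    (∑ x ∈ A, ((PV n d H W x).card : ℝ) ≤ C * mm H B ^ (∑ i, d i) *
      ((H : ℝ) ^ (-sg θ) * ∑ x ∈ A, (ht x : ℝ) ^ (-wd d θ)) * ∏ i, ((FF n (d i) H).card : ℝ)) ∧
    (C * (B : ℝ) ^ P ≤ H →
      c * ((H : ℝ) ^ (-sg θ) * ∑ x ∈ A, (ht x : ℝ) ^ (-wd d θ)) * ∏ i, ((FF n (d i) H).card : ℝ) ≤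
        ∑ x ∈ A, ((PV n d H W x).card : ℝ) ∧
      ∑ x ∈ A, ∑ y ∈ A.erase x, ((PV n d H W x ∩ PV n d H W y).card : ℝ) ≤
        C * (B : ℝ) ^ P * (H : ℝ) ^ (-sg θ) * ∑ x ∈ A, ((PV n d H W x).card : ℝ)) := by
  classical
  obtain ⟨K₁, hK₁, hup⟩ := up_PV_gen (n := n) d hW
  obtain ⟨c, hc, hlow⟩ := low_PV_gen (n := n) d hd hW
  obtain ⟨K, hK, hpair⟩ := pair_PV_gen (n := n) d hd hW
  obtain ⟨σ, hσd⟩ : ∃ σ : ℝ, σ = sg θ := ⟨_, rfl⟩
  obtain ⟨τ, hτd⟩ : ∃ τ : ℝ, τ = wd d θ := ⟨_, rfl⟩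
  obtain ⟨D, hD⟩ : ∃ D : ℕ, D = ∑ i, d i := ⟨_, rfl⟩
  have hτ0 : 0 ≤ τ := by rw [hτd]; exact wd_nonneg d fun i => (hW i).lt_one
  have hτ : τ ≤ D := by rw [hτd, hD]; exact wd_le d fun i => (hW i).nonneg
  have hdD : ∀ i, d i ≤ D := by
    intro i
    rw [hD]
    exact Finset.single_le_sum (f := d) (fun j _ => Nat.zero_le _) (Finset.mem_univ i)
  rw [← hσd, ← hτd, ← hD]
  rw [← hσd, ← hτd, ← hD] at hup
  rw [← hσd, ← hτd] at hlow
  rw [← hσd, ← hD] at hpair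
  refine ⟨c, K₁ + 8 * (n + 1) + K * 3 ^ (n + 1) / c, n + 1 + 3 * D, hc, by positivity,
    fun H B hH hB A hA hind _ => ⟨?_, fun hcond => ?_⟩⟩
  · obtain ⟨S, hS⟩ : ∃ S : ℝ, S = ∏ i, ((FF n (d i) H).card : ℝ) := ⟨_, rfl⟩
    have hS0 : 0 ≤ S := by rw [hS]; exact Finset.prod_nonneg fun i _ => Nat.cast_nonneg _
    rw [← hS]
    have hm0 : (0 : ℝ) ≤ mm H B := zero_le_one.trans (le_max_left _ _)
    obtain ⟨u, hu⟩ : ∃ u : ℝ, u = mm H B ^ D := ⟨_, rfl⟩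
    have hu0 : 0 ≤ u := by rw [hu]; positivity
    have h1 : ∀ x ∈ A, ((PV n d H W x).card : ℝ) ≤
        (K₁ * S * u * (H : ℝ) ^ (-σ)) * (ht x : ℝ) ^ (-τ) := by
      intro x hx
      have := hup H B hH x (hA x hx).1 (hA x hx).2
      rw [← hS, ← hu] at this
      refine this.trans (le_of_eq ?_)
      ring
    refine (Finset.sum_le_sum h1).trans ?_
    rw [← Finset.mul_sum, ← hu]
    obtain ⟨Z, hZ⟩ : ∃ Z : ℝ, Z = ∑ x ∈ A, (ht x : ℝ) ^ (-τ) := ⟨_, rfl⟩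
    have hZ0 : 0 ≤ Z := by
      rw [hZ]; exact Finset.sum_nonneg fun x _ => Real.rpow_nonneg (Nat.cast_nonneg _) _
    rw [← hZ]
    have hHs : (0 : ℝ) ≤ (H : ℝ) ^ (-σ) := Real.rpow_nonneg (Nat.cast_nonneg _) _
    have h2 : K₁ ≤ K₁ + 8 * (n + 1) + K * 3 ^ (n + 1) / c := by
      have : (0 : ℝ) ≤ 8 * ((n : ℝ) + 1) + K * 3 ^ (n + 1) / c := by positivity
      linarith
    calc K₁ * S * u * (H : ℝ) ^ (-σ) * Z = K₁ * (u * ((H : ℝ) ^ (-σ) * Z) * S) := by ring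
      _ ≤ (K₁ + 8 * (n + 1) + K * 3 ^ (n + 1) / c) * (u * ((H : ℝ) ^ (-σ) * Z) * S) :=
          mul_le_mul_of_nonneg_right h2 (by positivity)
      _ = _ := by ring
  · obtain ⟨S, hS⟩ : ∃ S : ℝ, S = ∏ i, ((FF n (d i) H).card : ℝ) := ⟨_, rfl⟩
    have hS0 : 0 ≤ S := by rw [hS]; exact Finset.prod_nonneg fun i _ => Nat.cast_nonneg _
    rw [← hS]
    have hB1 : (1 : ℝ) ≤ B := by exact_mod_cast hB
    have hH1 : (1 : ℝ) ≤ H := by exact_mod_cast hH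
    have hHs : (0 : ℝ) ≤ (H : ℝ) ^ (-σ) := Real.rpow_nonneg (Nat.cast_nonneg _) _
    have hxH : ∀ x ∈ A, ∀ i, (n + 1) * (ht x) ^ d i ≤ H / 4 := by
      intro x hx i
      have h1 : (8 * (n + 1) : ℝ) * (B : ℝ) ^ (n + 1 + 3 * D) ≤ H := by
        refine le_trans (mul_le_mul_of_nonneg_right ?_ (by positivity)) hcond
        have : (0 : ℝ) ≤ K₁ + K * 3 ^ (n + 1) / c := by positivity
        linarith
      have h2 : 8 * (n + 1) * B ^ (n + 1 + 3 * D) ≤ H := by exact_mod_cast h1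
      have h3 : (ht x) ^ d i ≤ B ^ (n + 1 + 3 * D) := by
        calc (ht x) ^ d i ≤ B ^ d i := Nat.pow_le_pow_left (hA x hx).2 _
          _ ≤ B ^ (n + 1 + 3 * D) := Nat.pow_le_pow_right hB (by have := hdD i; omega)
      have h4 : (n + 1) * (ht x) ^ d i ≤ (n + 1) * B ^ (n + 1 + 3 * D) := Nat.mul_le_mul_left _ h3
      have h5 : 8 * (n + 1) * B ^ (n + 1 + 3 * D) = 8 * ((n + 1) * B ^ (n + 1 + 3 * D)) := by ring
      rw [h5] at h2
      omega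
    have hl : ∀ x ∈ A, c * S * ((H : ℝ) ^ (-σ) * (ht x : ℝ) ^ (-τ)) ≤
        ((PV n d H W x).card : ℝ) := by
      intro x hx
      have := hlow H hH x (hA x hx).1 (hxH x hx)
      rwa [← hS] at this
    refine ⟨?_, ?_⟩
    · refine le_trans (le_of_eq ?_) (Finset.sum_le_sum hl)
      rw [← Finset.mul_sum, ← Finset.mul_sum]
      ring
    · rw [Finset.mul_sum]
      refine Finset.sum_le_sum fun x hx => ?_
      have hne := prm_ne_zero (hA x hx).1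
      have hle : ∀ z ∈ A, ∀ j, |z j| ≤ (B : ℤ) := fun z hz j =>
        (abs_le_ht z j).trans (by exact_mod_cast (hA z hz).2)
      have h1 : ∑ y ∈ A.erase x, ((PV n d H W x ∩ PV n d H W y).card : ℝ) ≤
          (A.card : ℝ) * (K * S * ((H : ℝ) ^ (-(2 * σ)) * (B : ℝ) ^ (2 * D))) := by
        have h2 := Finset.sum_le_card_nsmul (A.erase x)
          (fun y => ((PV n d H W x ∩ PV n d H W y).card : ℝ))
          (K * S * ((H : ℝ) ^ (-(2 * σ)) * (B : ℝ) ^ (2 * D))) (fun y hy => by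
            obtain ⟨hyx, hyA⟩ := Finset.mem_erase.1 hy
            have := hpair H B hH hB x y (hle x hx) (hle y hyA) hne (prm_ne_zero (hA y hyA).1)
              (hind x hx y hyA (Ne.symm hyx))
            rwa [← hS] at this)
        rw [nsmul_eq_mul] at h2
        refine h2.trans (mul_le_mul_of_nonneg_right ?_ (by positivity))
        exact_mod_cast Finset.card_le_card (Finset.erase_subset _ _)
      refine h1.trans ?_
      have hb := ht_pos (hA x hx).1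
      have h3 := pair_concl K c S σ H B (ht x) τ (A.card : ℝ) ((PV n d H W x).card : ℝ) (n + 1) D
        hK hc hH1 hB1 (by exact_mod_cast hb) (by exact_mod_cast (hA x hx).2) hτ0 hτ
        (by exact_mod_cast card_pts hB A hA) hS0 (hl x hx)
      refine h3.trans ?_
      refine mul_le_mul_of_nonneg_right (mul_le_mul_of_nonneg_right
        (mul_le_mul_of_nonneg_right ?_ (by positivity)) hHs) (Nat.cast_nonneg _)
      have : (0 : ℝ) ≤ K₁ + 8 * ((n : ℝ) + 1) := by positivity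
      linarith

/-- the systems with values in given sets at a point of `A` -/
def WA (n : ℕ) {s : ℕ} (d : Fin s → ℕ) (W : Fin s → Set ℤ) (H : ℕ) (A : Set (Fin (n + 1) → ℤ)) :
    Set (Fin s → MvPolynomial (Fin (n + 1)) ℤ) :=
  {F | F ∈ Systems n d H ∧ ∃ x ∈ A, ∀ i, eval x (F i) ∈ W i}

/-- the systems with values in given sets at two points of `A` -/
def WA2 (n : ℕ) {s : ℕ} (d : Fin s → ℕ) (W : Fin s → Set ℤ) (H : ℕ) (A : Set (Fin (n + 1) → ℤ)) :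
    Set (Fin s → MvPolynomial (Fin (n + 1)) ℤ) :=
  {F | F ∈ Systems n d H ∧ ∃ x ∈ A, ∃ y ∈ A, x ≠ y ∧ (∀ i, eval x (F i) ∈ W i) ∧
    ∀ i, eval y (F i) ∈ W i}

theorem mem_PV {s : ℕ} (d : Fin s → ℕ) (W : Fin s → Set ℤ) (H : ℕ) (x : Fin (n + 1) → ℤ)
    (F : Fin s → MvPolynomial (Fin (n + 1)) ℤ) :
    F ∈ PV n d H W x ↔ F ∈ Systems n d H ∧ ∀ i, eval x (F i) ∈ W i := by
  classical
  unfold PV AV
  rw [Fintype.mem_piFinset]
  constructor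
  · intro h
    exact ⟨fun i => (mem_FF _).1 (Finset.mem_filter.1 (h i)).1,
      fun i => (Finset.mem_filter.1 (h i)).2⟩
  · rintro ⟨h1, h2⟩ i
    exact Finset.mem_filter.2 ⟨(mem_FF _).2 (h1 i), h2 i⟩

theorem wa_eq {s : ℕ} (d : Fin s → ℕ) (W : Fin s → Set ℤ) (H : ℕ) (A : Finset (Fin (n + 1) → ℤ))
    [DecidableEq (Fin s → MvPolynomial (Fin (n + 1)) ℤ)] :
    WA n d W H (A : Set _) = ((A.biUnion fun x => PV n d H W x : Finset _) : Set _) := by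
  ext F
  rw [Finset.mem_coe, Finset.mem_biUnion]
  constructor
  · rintro ⟨h1, x, hx, h2⟩
    exact ⟨x, hx, (mem_PV d W H x F).2 ⟨h1, h2⟩⟩
  · rintro ⟨x, hx, h⟩
    obtain ⟨h1, h2⟩ := (mem_PV d W H x F).1 h
    exact ⟨h1, x, hx, h2⟩

theorem wa2_sub {s : ℕ} (d : Fin s → ℕ) (W : Fin s → Set ℤ) (H : ℕ) (A : Finset (Fin (n + 1) → ℤ))
    [DecidableEq (Fin s → MvPolynomial (Fin (n + 1)) ℤ)] :
    WA2 n d W H (A : Set _) ⊆ ((A.biUnion fun x => (A.erase x).biUnion fun y =>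
      (PV n d H W x ∩ PV n d H W y) : Finset _) : Set _) := by
  classical
  rintro F ⟨h1, x, hx, y, hy, hxy, h2, h3⟩
  rw [Finset.mem_coe, Finset.mem_biUnion]
  refine ⟨x, hx, Finset.mem_biUnion.2 ⟨y, Finset.mem_erase.2 ⟨hxy.symm, hy⟩, ?_⟩⟩
  exact Finset.mem_inter.2 ⟨(mem_PV d W H x F).2 ⟨h1, h2⟩, (mem_PV d W H y F).2 ⟨h1, h3⟩⟩

/-- **the law of the points**: existence in an arbitrary set of points -/
theorem law {s : ℕ} (d : Fin s → ℕ) (hd : ∀ i, 1 ≤ d i) {W : Fin s → Set ℤ} {θ : Fin s → ℝ}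
    (hW : ∀ i, Semi (W i) (θ i)) : ∃ (c C : ℝ) (P : ℕ), 0 < c ∧ 0 < C ∧
    ∀ H B : ℕ, 1 ≤ H → 1 ≤ B → ∀ A : Finset (Fin (n + 1) → ℤ), (∀ x ∈ A, Prm x ∧ ht x ≤ B) →
    (∀ x ∈ A, ∀ y ∈ A, x ≠ y → Indep x y) →
    ∃ E : ℝ, E = ∑ x ∈ A, ((WA n d W H {x}).ncard : ℝ) ∧ 0 ≤ E ∧
    ((WA n d W H (A : Set _)).ncard : ℝ) ≤ E ∧
    (E ≤ C * mm H B ^ (∑ i, d i) *
      ((H : ℝ) ^ (-sg θ) * ∑ x ∈ A, (ht x : ℝ) ^ (-wd d θ)) * ∏ i, ((FF n (d i) H).card : ℝ)) ∧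
    (C * (B : ℝ) ^ P ≤ H →
      c * ((H : ℝ) ^ (-sg θ) * ∑ x ∈ A, (ht x : ℝ) ^ (-wd d θ)) * ∏ i, ((FF n (d i) H).card : ℝ) ≤
        E ∧
      E ≤ ((WA n d W H (A : Set _)).ncard : ℝ) + C * (B : ℝ) ^ P * (H : ℝ) ^ (-sg θ) * E ∧
      ((WA2 n d W H (A : Set _)).ncard : ℝ) ≤ C * (B : ℝ) ^ P * (H : ℝ) ^ (-sg θ) * E) := by
  classical
  obtain ⟨c, C, P, hc, hC, h⟩ := gt (n := n) d hd hW
  refine ⟨c, C, P, hc, hC, fun H B hH hB A hA hind => ?_⟩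
  have hE : ∑ x ∈ A, ((WA n d W H {x}).ncard : ℝ) = ∑ x ∈ A, ((PV n d H W x).card : ℝ) := by
    refine Finset.sum_congr rfl fun x _ => ?_
    have h1 := wa_eq d W H ({x} : Finset (Fin (n + 1) → ℤ))
    rw [Finset.coe_singleton, Finset.singleton_biUnion] at h1
    rw [h1, Set.ncard_coe_finset]
  obtain ⟨h1, h2⟩ := h H B hH hB A hA hind
  refine ⟨_, rfl, Finset.sum_nonneg fun x _ => Nat.cast_nonneg _, ?_, ?_, fun hcond => ?_⟩
  · rw [hE, wa_eq, Set.ncard_coe_finset]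
    exact_mod_cast Finset.card_biUnion_le
  · rw [hE]; exact h1
  · obtain ⟨h3, h4⟩ := h2 hcond
    rw [hE]
    refine ⟨h3, ?_, ?_⟩
    · have hb := bonf A fun x => PV n d H W x
      have hbr : ∑ x ∈ A, ((PV n d H W x).card : ℝ) ≤ ((A.biUnion fun x => PV n d H W x).card : ℝ) +
        ∑ x ∈ A, ∑ y ∈ A.erase x, ((PV n d H W x ∩ PV n d H W y).card : ℝ) := by exact_mod_cast hb
      rw [wa_eq, Set.ncard_coe_finset]
      linarith
    · have h5 := Set.ncard_le_ncard (wa2_sub d W H A) (Finset.finite_toSet _)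
      rw [Set.ncard_coe_finset] at h5
      have h6 : (((A.biUnion fun x => (A.erase x).biUnion fun y =>
          (PV n d H W x ∩ PV n d H W y)).card : ℕ) : ℝ) ≤
          ∑ x ∈ A, ∑ y ∈ A.erase x, ((PV n d H W x ∩ PV n d H W y).card : ℝ) := by
        have e1 := Finset.card_biUnion_le (s := A) (t := fun x => (A.erase x).biUnion fun y =>
          (PV n d H W x ∩ PV n d H W y))
        have e2 : ∑ x ∈ A, ((A.erase x).biUnion fun y => (PV n d H W x ∩ PV n d H W y)).card ≤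
            ∑ x ∈ A, ∑ y ∈ A.erase x, (PV n d H W x ∩ PV n d H W y).card :=
          Finset.sum_le_sum fun x _ => Finset.card_biUnion_le
        exact_mod_cast e1.trans e2
      exact (Nat.cast_le.2 h5).trans (h6.trans h4)

end Pool.Agent.U580.TT
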