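import Mathlib
import Pool.Agent.U580.TT.Thm

set_option autoImplicit false

/-! # Random polynomials in one variable and binary forms -/

namespace Pool.Agent.U580.TT

open MvPolynomial Finset Pool.Agent.R870.RC Pool.Agent.U580.RG Pool.Agent.U580.VP

/-- the polynomials of degree at most `d` with coefficients in `[-H, H]` -/
def Pl (d H : ℕ) : Set (Polynomial ℤ) := {f | f.natDegree ≤ d ∧ ∀ k, |f.coeff k| ≤ (H : ℤ)}

/-- the exponent of `X 0 ^ (d - k) X 1 ^ k` -/
noncomputable def ex (d k : ℕ) : Fin 2 →₀ ℕ := Finsupp.single 0 (d - k) + Finsupp.single 1 k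

theorem ex_zero (d k : ℕ) : ex d k 0 = d - k := by
  unfold ex
  rw [Finsupp.add_apply, Finsupp.single_eq_same, Finsupp.single_apply]
  simp

theorem ex_one (d k : ℕ) : ex d k 1 = k := by
  unfold ex
  rw [Finsupp.add_apply, Finsupp.single_eq_same, Finsupp.single_apply]
  simp

theorem ex_deg {d k : ℕ} (h : k ≤ d) : (ex d k).degree = d := by
  unfold ex
  rw [map_add, Finsupp.degree_single, Finsupp.degree_single]
  omega

theorem ex_inj {d k l : ℕ} (h : ex d k = ex d l) : k = l := by
  have := DFunLike.congr_fun h 1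
  rwa [ex_one, ex_one] at this

theorem ex_surj {d : ℕ} (e : Fin 2 →₀ ℕ) (he : e.degree = d) : ex d (e 1) = e := by
  have h1 : e 0 + e 1 = d := by
    rw [← he, Finsupp.degree_eq_sum]
    simp
  ext i
  fin_cases i
  · show ex d (e 1) 0 = e 0
    rw [ex_zero]
    omega
  · show ex d (e 1) 1 = e 1
    rw [ex_one]

/-- the binary form of a polynomial -/
noncomputable def hom (d : ℕ) (f : Polynomial ℤ) : MvPolynomial (Fin 2) ℤ :=
  ∑ k ∈ Finset.range (d + 1), monomial (ex d k) (f.coeff k)

theorem eval_hom (d : ℕ) (f : Polynomial ℤ) (x : Fin 2 → ℤ) :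
    eval x (hom d f) = ∑ k ∈ Finset.range (d + 1), f.coeff k * (x 0 ^ (d - k) * x 1 ^ k) := by
  unfold hom
  rw [map_sum]
  refine Finset.sum_congr rfl fun k _ => ?_
  rw [eval_monomial, ex, Finsupp.prod_add_index' (h := fun a k => x a ^ k)
      (fun _ => pow_zero _) (fun _ _ _ => pow_add _ _ _),
      Finsupp.prod_single_index (h := fun a k => x a ^ k) (pow_zero _),
      Finsupp.prod_single_index (h := fun a k => x a ^ k) (pow_zero _)]

theorem coeff_hom (d : ℕ) (f : Polynomial ℤ) {k : ℕ} (hk : k ≤ d) :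
    (hom d f).coeff (ex d k) = f.coeff k := by
  classical
  unfold hom
  rw [coeff_sum, Finset.sum_eq_single k]
  · rw [coeff_monomial, if_pos rfl]
  · intro l _ hl
    rw [coeff_monomial, if_neg fun h => hl (ex_inj h)]
  · intro h
    exact absurd (Finset.mem_range.2 (by omega)) h

theorem hom_mem {d H : ℕ} {f : Polynomial ℤ} (hf : f ∈ Pl d H) : hom d f ∈ Forms 1 d H := by
  classical
  refine ⟨IsHomogeneous.sum _ _ _ fun k hk => isHomogeneous_monomial _ (ex_deg (by
    have := Finset.mem_range.1 hk; omega)), fun e => ?_⟩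
  unfold hom
  rw [coeff_sum]
  by_cases h : ∃ k ≤ d, ex d k = e
  · obtain ⟨k, hk, rfl⟩ := h
    rw [Finset.sum_eq_single k]
    · rw [coeff_monomial, if_pos rfl]
      exact hf.2 k
    · intro l _ hl
      rw [coeff_monomial, if_neg fun h => hl (ex_inj h)]
    · intro h
      exact absurd (Finset.mem_range.2 (by omega)) h
  · rw [Finset.sum_eq_zero, abs_zero]
    · exact_mod_cast Nat.zero_le _
    · intro k hk
      rw [coeff_monomial, if_neg]
      exact fun h2 => h ⟨k, by have := Finset.mem_range.1 hk; omega, h2⟩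

theorem hom_inj {d H : ℕ} : Set.InjOn (hom d) (Pl d H) := by
  intro f hf g hg h
  ext k
  by_cases hk : k ≤ d
  · rw [← coeff_hom d f hk, ← coeff_hom d g hk, h]
  · rw [Polynomial.coeff_eq_zero_of_natDegree_lt (by have := hf.1; omega),
      Polynomial.coeff_eq_zero_of_natDegree_lt (by have := hg.1; omega)]

theorem hom_surj {d H : ℕ} {F : MvPolynomial (Fin 2) ℤ} (hF : F ∈ Forms 1 d H) :
    ∃ f ∈ Pl d H, hom d f = F := by
  classical
  obtain ⟨f, hf⟩ : ∃ f : Polynomial ℤ,
      f = ∑ k ∈ Finset.range (d + 1), Polynomial.monomial k (F.coeff (ex d k)) := ⟨_, rfl⟩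
  have hco : ∀ k, f.coeff k = if k ≤ d then F.coeff (ex d k) else 0 := by
    intro k
    rw [hf, Polynomial.finsetSum_coeff]
    by_cases hk : k ≤ d
    · rw [if_pos hk, Finset.sum_eq_single k]
      · rw [Polynomial.coeff_monomial, if_pos rfl]
      · intro l _ hl
        rw [Polynomial.coeff_monomial, if_neg hl]
      · intro h
        exact absurd (Finset.mem_range.2 (by omega)) h
    · rw [if_neg hk, Finset.sum_eq_zero]
      intro l hl
      rw [Polynomial.coeff_monomial, if_neg]
      have := Finset.mem_range.1 hl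
      omega
  refine ⟨f, ⟨?_, fun k => ?_⟩, ?_⟩
  · refine Polynomial.natDegree_le_iff_coeff_eq_zero.2 fun k hk => ?_
    rw [hco, if_neg (by omega)]
  · rw [hco]
    split_ifs
    · exact hF.2 _
    · rw [abs_zero]
      exact_mod_cast Nat.zero_le _
  · ext e
    by_cases he : e.degree = d
    · have hk : e 1 ≤ d := by
        rw [← he, Finsupp.degree_eq_sum]
        simp
      rw [← ex_surj e he, coeff_hom d f hk, hco, if_pos hk]
    · have h1 : F.coeff e = 0 := by
        by_contra h
        apply he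
        rw [Finsupp.degree_eq_weight_one]
        exact hF.1 h
      rw [h1]
      unfold hom
      rw [coeff_sum]
      refine Finset.sum_eq_zero fun k hk => ?_
      rw [coeff_monomial, if_neg]
      intro h
      apply he
      rw [← h]
      exact ex_deg (by have := Finset.mem_range.1 hk; omega)

/-- counting polynomials is counting systems with one form -/
theorem ncard_hom (d H : ℕ) (Q : (Fin 1 → MvPolynomial (Fin 2) ℤ) → Prop) :
    {f | f ∈ Pl d H ∧ Q (fun _ => hom d f)}.ncard =
      {F | F ∈ Systems 1 (fun _ : Fin 1 => d) H ∧ Q F}.ncard := by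
  have h1 : {F | F ∈ Systems 1 (fun _ : Fin 1 => d) H ∧ Q F} =
      (fun f => fun _ : Fin 1 => hom d f) '' {f | f ∈ Pl d H ∧ Q (fun _ => hom d f)} := by
    ext F
    constructor
    · rintro ⟨hF, hQ⟩
      obtain ⟨f, hf, hfF⟩ := hom_surj (hF 0)
      have h2 : (fun _ : Fin 1 => hom d f) = F := by
        funext i
        rw [Subsingleton.elim i 0, hfF]
      exact ⟨f, ⟨hf, by rw [h2]; exact hQ⟩, h2⟩
    · rintro ⟨f, ⟨hf, hQ⟩, rfl⟩
      exact ⟨fun _ => hom_mem hf, hQ⟩
  rw [h1, Set.InjOn.ncard_image]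
  intro f hf g hg h
  exact hom_inj hf.1 hg.1 (congrFun h 0)

end Pool.Agent.U580.TT
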