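import Mathlib
import Pool.Agent.U580.TT.Gen

set_option autoImplicit false

/-! # The set of `m`-th powers is thin -/

namespace Pool.Agent.U580.TT

open Finset

/-- the `m`-th powers -/
def Pow (m : ℕ) : Set ℤ := {t | ∃ y : ℤ, t = y ^ m}

/-- the `m`-th powers and their negatives -/
def PowPM (m : ℕ) : Set ℤ := {t | ∃ y : ℕ, t = (y : ℤ) ^ m ∨ t = -(y : ℤ) ^ m}

theorem thin_powPM {m : ℕ} (hm : 2 ≤ m) : Thin (PowPM m) (1 / (m : ℝ)) := by
  classical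
  have hmr : (2 : ℝ) ≤ m := by exact_mod_cast hm
  have hmr0 : (0 : ℝ) < m := by linarith
  have key : ∀ N : ℕ, 1 ≤ N → ∀ y : ℕ, y ^ m ≤ N ↔ y ≤ ⌊(N : ℝ) ^ (1 / (m : ℝ))⌋₊ := by
    intro N hN y
    rw [Nat.le_floor_iff (by positivity)]
    have h1 : ((y : ℝ) ^ m) ^ (1 / (m : ℝ)) = y := by
      rw [← Real.rpow_natCast, ← Real.rpow_mul (Nat.cast_nonneg y), mul_one_div_cancel hmr0.ne',
        Real.rpow_one]
    have h2 : ((N : ℝ) ^ (1 / (m : ℝ))) ^ m = N := by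
      rw [← Real.rpow_natCast, ← Real.rpow_mul (Nat.cast_nonneg N), one_div_mul_cancel hmr0.ne',
        Real.rpow_one]
    constructor
    · intro h
      have h3 : (y : ℝ) ^ m ≤ N := by exact_mod_cast h
      calc (y : ℝ) = ((y : ℝ) ^ m) ^ (1 / (m : ℝ)) := h1.symm
        _ ≤ _ := Real.rpow_le_rpow (by positivity) h3 (by positivity)
    · intro h
      have h3 : (y : ℝ) ^ m ≤ ((N : ℝ) ^ (1 / (m : ℝ))) ^ m :=
        pow_le_pow_left₀ (Nat.cast_nonneg y) h m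
      rw [h2] at h3
      exact_mod_cast h3
  refine ⟨?_, by positivity, ?_, ⟨4, by norm_num, fun N hN => ?_⟩, ⟨1 / 2, by norm_num, fun N hN => ?_⟩⟩
  · rintro t ⟨y, h | h⟩
    · exact ⟨y, Or.inr (by rw [h])⟩
    · exact ⟨y, Or.inl (by rw [h, neg_neg])⟩
  · rw [div_lt_one hmr0]
    linarith
  · have hNr : (1 : ℝ) ≤ N := by exact_mod_cast hN
    have hy1 : 1 ≤ (N : ℝ) ^ (1 / (m : ℝ)) := Real.one_le_rpow hNr (by positivity)
    have hsub : cnt (PowPM m) N ⊆ (Finset.range (⌊(N : ℝ) ^ (1 / (m : ℝ))⌋₊ + 1)).image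
        (fun y : ℕ => (y : ℤ) ^ m) ∪ (Finset.range (⌊(N : ℝ) ^ (1 / (m : ℝ))⌋₊ + 1)).image
        (fun y : ℕ => -(y : ℤ) ^ m) := by
      intro t ht
      rw [mem_cnt] at ht
      obtain ⟨h1, y, h2⟩ := ht
      have h3 : |t| = (y : ℤ) ^ m := by
        rcases h2 with h | h
        · rw [h, abs_of_nonneg (by positivity)]
        · rw [h, abs_neg, abs_of_nonneg (by positivity)]
      rw [h3] at h1
      have h4 : y ^ m ≤ N := by exact_mod_cast h1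
      have h5 : y ∈ Finset.range (⌊(N : ℝ) ^ (1 / (m : ℝ))⌋₊ + 1) := by
        rw [Finset.mem_range]
        have := (key N hN y).1 h4
        omega
      rw [Finset.mem_union, Finset.mem_image, Finset.mem_image]
      rcases h2 with h | h
      · exact Or.inl ⟨y, h5, h.symm⟩
      · exact Or.inr ⟨y, h5, h.symm⟩
    have h1 := (Finset.card_le_card hsub).trans (Finset.card_union_le _ _)
    have h2 := Finset.card_image_le (s := Finset.range (⌊(N : ℝ) ^ (1 / (m : ℝ))⌋₊ + 1))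
      (f := fun y : ℕ => (y : ℤ) ^ m)
    have h3 := Finset.card_image_le (s := Finset.range (⌊(N : ℝ) ^ (1 / (m : ℝ))⌋₊ + 1))
      (f := fun y : ℕ => -(y : ℤ) ^ m)
    rw [Finset.card_range] at h2 h3
    have h4 : (cnt (PowPM m) N).card ≤ 2 * (⌊(N : ℝ) ^ (1 / (m : ℝ))⌋₊ + 1) := by omega
    have h5 : ((cnt (PowPM m) N).card : ℝ) ≤ 2 * ((⌊(N : ℝ) ^ (1 / (m : ℝ))⌋₊ : ℝ) + 1) := by
      exact_mod_cast h4
    have h6 : (⌊(N : ℝ) ^ (1 / (m : ℝ))⌋₊ : ℝ) ≤ (N : ℝ) ^ (1 / (m : ℝ)) :=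
      Nat.floor_le (by positivity)
    linarith
  · have hNr : (1 : ℝ) ≤ N := by exact_mod_cast hN
    have hy1 : 1 ≤ (N : ℝ) ^ (1 / (m : ℝ)) := Real.one_le_rpow hNr (by positivity)
    have hk1 : 1 ≤ ⌊(N : ℝ) ^ (1 / (m : ℝ))⌋₊ := Nat.le_floor (by simpa using hy1)
    have hk2 : (N : ℝ) ^ (1 / (m : ℝ)) / 2 ≤ (⌊(N : ℝ) ^ (1 / (m : ℝ))⌋₊ : ℝ) := by
      have h1 := Nat.lt_floor_add_one ((N : ℝ) ^ (1 / (m : ℝ)))
      have h2 : (1 : ℝ) ≤ (⌊(N : ℝ) ^ (1 / (m : ℝ))⌋₊ : ℝ) := by exact_mod_cast hk1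
      linarith
    have h1 : (Finset.Icc 1 ⌊(N : ℝ) ^ (1 / (m : ℝ))⌋₊).image (fun a : ℕ => ((a : ℤ)) ^ m) ⊆
        cnt (PowPM m) N := by
      intro t ht
      obtain ⟨a, ha, rfl⟩ := Finset.mem_image.1 ht
      obtain ⟨h2, h3⟩ := Finset.mem_Icc.1 ha
      rw [mem_cnt]
      have h6 : a ^ m ≤ N := (key N hN a).2 h3
      refine ⟨?_, a, Or.inl rfl⟩
      rw [abs_of_nonneg (by positivity)]
      exact_mod_cast h6
    have h2 := Finset.card_le_card h1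
    rw [Finset.card_image_of_injOn, Nat.card_Icc, Nat.add_sub_cancel] at h2
    · have h3 : (⌊(N : ℝ) ^ (1 / (m : ℝ))⌋₊ : ℝ) ≤ ((cnt (PowPM m) N).card : ℝ) := by
        exact_mod_cast h2
      linarith
    · intro a _ b _ hab
      have h3 : ((a : ℕ)) ^ m = b ^ m := by
        have h4 : ((a : ℤ)) ^ m = (b : ℤ) ^ m := hab
        exact_mod_cast h4
      exact Nat.pow_left_injective (by omega) h3

theorem semi_pow {m : ℕ} (hm : 2 ≤ m) : Semi (Pow m) (1 / (m : ℝ)) := by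
  refine ⟨⟨PowPM m, thin_powPM hm, ?_, ?_⟩⟩
  · rintro t ⟨y, rfl⟩
    rcases Int.natAbs_eq y with h | h
    · exact ⟨y.natAbs, Or.inl (by rw [← h])⟩
    · rcases Nat.even_or_odd m with he | ho
      · refine ⟨y.natAbs, Or.inl ?_⟩
        rw [h, he.neg_pow]
        simp
      · refine ⟨y.natAbs, Or.inr ?_⟩
        rw [h, ho.neg_pow]
        simp
  · rintro t ⟨y, h | h⟩
    · exact Or.inl ⟨y, h⟩
    · exact Or.inr ⟨y, by rw [h, neg_neg]⟩

end Pool.Agent.U580.TT
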