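import Mathlib
import Pool.Agent.U580.TT.Bin
import Pool.Agent.U580.TT.Pow

set_option autoImplicit false

/-! # Random polynomials in one variable: the law of the abscissas -/

namespace Pool.Agent.U580.TT

open MvPolynomial Finset Pool.Agent.R870.RC Pool.Agent.U580.RG Pool.Agent.U580.VP

/-- the polynomials whose form has a value in `W` at a point of `A` -/
def PA (d : ℕ) (W : Set ℤ) (H : ℕ) (A : Set (Fin 2 → ℤ)) : Set (Polynomial ℤ) :=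
  {f | f ∈ Pl d H ∧ ∃ x ∈ A, eval x (hom d f) ∈ W}

/-- the polynomials whose form has values in `W` at two points of `A` -/
def PA2 (d : ℕ) (W : Set ℤ) (H : ℕ) (A : Set (Fin 2 → ℤ)) : Set (Polynomial ℤ) :=
  {f | f ∈ Pl d H ∧ ∃ x ∈ A, ∃ y ∈ A, x ≠ y ∧ eval x (hom d f) ∈ W ∧ eval y (hom d f) ∈ W}

theorem pa_eq (d : ℕ) (W : Set ℤ) (H : ℕ) (A : Set (Fin 2 → ℤ)) :
    (PA d W H A).ncard = (WA 1 (fun _ : Fin 1 => d) (fun _ => W) H A).ncard := by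
  have h := ncard_hom d H fun F => ∃ x ∈ A, ∀ i : Fin 1, eval x (F i) ∈ W
  have h1 : PA d W H A = {f | f ∈ Pl d H ∧ ∃ x ∈ A, ∀ _ : Fin 1, eval x (hom d f) ∈ W} := by
    ext f
    exact and_congr Iff.rfl (exists_congr fun x => and_congr Iff.rfl
      ⟨fun h _ => h, fun h => h 0⟩)
  rw [h1, h]
  rfl

theorem pa2_eq (d : ℕ) (W : Set ℤ) (H : ℕ) (A : Set (Fin 2 → ℤ)) :
    (PA2 d W H A).ncard = (WA2 1 (fun _ : Fin 1 => d) (fun _ => W) H A).ncard := by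
  have h := ncard_hom d H fun F => ∃ x ∈ A, ∃ y ∈ A, x ≠ y ∧ (∀ i : Fin 1, eval x (F i) ∈ W) ∧
    ∀ i : Fin 1, eval y (F i) ∈ W
  have h1 : PA2 d W H A = {f | f ∈ Pl d H ∧ ∃ x ∈ A, ∃ y ∈ A, x ≠ y ∧
      (∀ _ : Fin 1, eval x (hom d f) ∈ W) ∧ ∀ _ : Fin 1, eval y (hom d f) ∈ W} := by
    ext f
    exact and_congr Iff.rfl (exists_congr fun x => and_congr Iff.rfl (exists_congr fun y =>
      and_congr Iff.rfl (and_congr Iff.rfl (and_congr ⟨fun h _ => h, fun h => h 0⟩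
        ⟨fun h _ => h, fun h => h 0⟩))))
  rw [h1, h]
  rfl

theorem pl_card (d H : ℕ) : (Pl d H).Finite ∧ 0 < (Pl d H).ncard ∧
    ((Pl d H).ncard : ℝ) = ((FF 1 d H).card : ℝ) := by
  have h := ncard_hom d H fun _ => True
  have h1 : {f | f ∈ Pl d H ∧ True} = Pl d H := by ext f; simp
  have h2 : {F | F ∈ Systems 1 (fun _ : Fin 1 => d) H ∧ True} =
      Systems 1 (fun _ : Fin 1 => d) H := by ext f; simp
  rw [h1, h2] at h
  have h3 : (Systems 1 (fun _ : Fin 1 => d) H).ncard = (FF 1 d H).card := by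
    classical
    have h4 : Systems 1 (fun _ : Fin 1 => d) H =
        ((Fintype.piFinset fun _ : Fin 1 => FF 1 d H :
          Finset (Fin 1 → MvPolynomial (Fin 2) ℤ)) : Set _) := by
      ext F
      rw [Finset.mem_coe, Fintype.mem_piFinset]
      exact forall_congr' fun i => (mem_FF _).symm
    rw [h4, Set.ncard_coe_finset, Fintype.card_piFinset]
    simp
  have h5 : 0 < (Pl d H).ncard := by
    rw [h, h3, card_FF]
    positivity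
  exact ⟨Set.finite_of_ncard_pos h5, h5, by rw [h, h3]⟩

theorem sg_one (θ : ℝ) : sg (fun _ : Fin 1 => θ) = 1 - θ := by
  unfold sg
  simp

theorem wd_one (d : ℕ) (θ : ℝ) : wd (fun _ : Fin 1 => d) (fun _ => θ) = d * (1 - θ) := by
  unfold wd
  simp

/-- **the law of the abscissas** -/
theorem poly_law (d : ℕ) (hd : 1 ≤ d) {W : Set ℤ} {θ : ℝ} (hW : Semi W θ) :
    ∃ (c C : ℝ) (P : ℕ), 0 < c ∧ 0 < C ∧ ∀ H B : ℕ, 1 ≤ H → 1 ≤ B →
    ∀ A : Finset (Fin 2 → ℤ), (∀ x ∈ A, Prm x ∧ ht x ≤ B) →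
    (∀ x ∈ A, ∀ y ∈ A, x ≠ y → Indep x y) →
    (((PA d W H (A : Set _)).ncard : ℝ) ≤ C * mm H B ^ d *
      ((H : ℝ) ^ (-(1 - θ)) * ∑ x ∈ A, (ht x : ℝ) ^ (-((d : ℝ) * (1 - θ)))) * ((Pl d H).ncard : ℝ)) ∧
    (C * (B : ℝ) ^ P ≤ H → C * (B : ℝ) ^ P ≤ (H : ℝ) ^ (1 - θ) →
      c * ((H : ℝ) ^ (-(1 - θ)) * ∑ x ∈ A, (ht x : ℝ) ^ (-((d : ℝ) * (1 - θ)))) *
        ((Pl d H).ncard : ℝ) ≤ ((PA d W H (A : Set _)).ncard : ℝ) ∧
      ((PA2 d W H (A : Set _)).ncard : ℝ) ≤ C * (B : ℝ) ^ P * (H : ℝ) ^ (-(1 - θ)) *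
        ((PA d W H (A : Set _)).ncard : ℝ)) := by
  classical
  obtain ⟨c, C, P, hc, hC, h⟩ := law (n := 1) (fun _ : Fin 1 => d) (fun _ => hd)
    (W := fun _ => W) (θ := fun _ => θ) (fun _ => hW)
  refine ⟨c / 2, 2 * C, P, by positivity, by positivity, fun H B hH hB A hA hind => ?_⟩
  obtain ⟨E, -, hE0, h1, h2, h3⟩ := h H B hH hB A hA hind
  rw [sg_one, wd_one] at h2 h3
  obtain ⟨-, hpl, hcard⟩ := pl_card d H
  have hprod : ∏ _i : Fin 1, ((FF 1 d H).card : ℝ) = ((Pl d H).ncard : ℝ) := by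
    rw [hcard]; simp
  have hsum : ∑ _i : Fin 1, d = d := by simp
  rw [hprod, hsum] at h2
  rw [hprod] at h3
  obtain ⟨S, hS⟩ : ∃ S : ℝ, S = ((Pl d H).ncard : ℝ) := ⟨_, rfl⟩
  have hS0 : 0 ≤ S := by rw [hS]; exact Nat.cast_nonneg _
  obtain ⟨Z, hZ⟩ : ∃ Z : ℝ, Z = (H : ℝ) ^ (-(1 - θ)) * ∑ x ∈ A, (ht x : ℝ) ^ (-((d : ℝ) * (1 - θ))) :=
    ⟨_, rfl⟩
  have hZ0 : 0 ≤ Z := by
    rw [hZ]
    exact mul_nonneg (Real.rpow_nonneg (Nat.cast_nonneg _) _)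
      (Finset.sum_nonneg fun x _ => Real.rpow_nonneg (Nat.cast_nonneg _) _)
  rw [← hS, ← hZ] at h2 h3
  rw [← hS, ← hZ, pa_eq, pa2_eq]
  obtain ⟨U, hU⟩ : ∃ U : ℝ, U = ((WA 1 (fun _ : Fin 1 => d) (fun _ => W) H (A : Set _)).ncard : ℝ) :=
    ⟨_, rfl⟩
  rw [← hU] at h1 h3 ⊢
  have hm0 : (0 : ℝ) ≤ mm H B := zero_le_one.trans (le_max_left _ _)
  refine ⟨?_, fun hc1 hc2 => ?_⟩
  · refine (h1.trans h2).trans ?_
    refine mul_le_mul_of_nonneg_right (mul_le_mul_of_nonneg_right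
      (mul_le_mul_of_nonneg_right (by linarith) (by positivity)) hZ0) hS0
  · have hBP : (0 : ℝ) ≤ (B : ℝ) ^ P := by positivity
    obtain ⟨h4, h5, h6⟩ := h3 (by nlinarith)
    have hHr : (0 : ℝ) < H := by exact_mod_cast hH
    have h7 : C * (B : ℝ) ^ P * (H : ℝ) ^ (-(1 - θ)) ≤ 1 / 2 := by
      rw [Real.rpow_neg hHr.le, ← div_eq_mul_inv, div_le_iff₀ (Real.rpow_pos_of_pos hHr _)]
      linarith
    have h8 : E ≤ 2 * U := by
      have h9 : C * (B : ℝ) ^ P * (H : ℝ) ^ (-(1 - θ)) * E ≤ 1 / 2 * E :=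
        mul_le_mul_of_nonneg_right h7 hE0
      linarith
    refine ⟨?_, ?_⟩
    · have e1 : c / 2 * Z * S = (c * Z * S) / 2 := by ring
      rw [e1]
      linarith
    · refine h6.trans ?_
      have hHs : (0 : ℝ) ≤ (H : ℝ) ^ (-(1 - θ)) := Real.rpow_nonneg hHr.le _
      calc C * (B : ℝ) ^ P * (H : ℝ) ^ (-(1 - θ)) * E ≤
          C * (B : ℝ) ^ P * (H : ℝ) ^ (-(1 - θ)) * (2 * U) :=
            mul_le_mul_of_nonneg_left h8 (by positivity)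
        _ = _ := by ring

end Pool.Agent.U580.TT
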