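import Mathlib
import Pool.Agent.U580.TT.Up

set_option autoImplicit false

/-! # The sets of `m`-full integers are thin -/

namespace Pool.Agent.U580.TT

open Finset

/-- every prime factor of `t ≠ 0` divides it at least `m` times; for `m = 0` (which stands for `∞`)
there is no prime factor -/
def IsFull (m : ℕ) (t : ℤ) : Prop :=
  t ≠ 0 ∧ ∀ p : ℕ, p.Prime → (p : ℤ) ∣ t → m ≠ 0 ∧ (p : ℤ) ^ m ∣ t

/-- `m`-full natural numbers -/
def NFull (m t : ℕ) : Prop := t ≠ 0 ∧ ∀ p : ℕ, p.Prime → p ∣ t → p ^ m ∣ t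

theorem full_decomp (m : ℕ) (hm : 2 ≤ m) (t : ℕ) : NFull m t →
    ∃ (a : ℕ) (b : Fin (m - 1) → ℕ), 1 ≤ a ∧ (∀ r, 1 ≤ b r) ∧
      t = a ^ m * ∏ r, b r ^ (m + 1 + (r : ℕ)) := by
  induction t using Nat.recOnPosPrimePosCoprime with
  | zero => exact fun h => absurd rfl h.1
  | one => exact fun _ => ⟨1, fun _ => 1, le_rfl, fun _ => le_rfl, by simp⟩
  | prime_pow p e hp he =>
    intro h
    have h1 : p ^ m ∣ p ^ e := h.2 p hp (dvd_pow_self p he.ne')
    have h2 : m ≤ e := (Nat.pow_dvd_pow_iff_le_right hp.one_lt).1 h1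
    have h3 : m * (e / m) + e % m = e := Nat.div_add_mod e m
    have h4 : 1 ≤ e / m := (Nat.one_le_div_iff (by omega)).2 h2
    have h5 : e % m < m := Nat.mod_lt _ (by omega)
    by_cases h6 : e % m = 0
    · refine ⟨p ^ (e / m), fun _ => 1, Nat.one_le_pow _ _ hp.pos, fun _ => le_rfl, ?_⟩
      rw [Finset.prod_eq_one (fun _ _ => one_pow _), mul_one, ← pow_mul]
      congr 1
      rw [mul_comm]
      omega
    · have h7 : e % m - 1 < m - 1 := by omega
      refine ⟨p ^ (e / m - 1), fun r => if r = ⟨e % m - 1, h7⟩ then p else 1,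
        Nat.one_le_pow _ _ hp.pos, fun r => ?_, ?_⟩
      · dsimp only
        split_ifs
        · exact hp.one_le
        · exact le_rfl
      · rw [Finset.prod_eq_single (⟨e % m - 1, h7⟩ : Fin (m - 1)) (fun r _ hr => by
          dsimp only
          rw [if_neg hr, one_pow]) (fun h => absurd (Finset.mem_univ _) h)]
        dsimp only
        rw [if_pos rfl, ← pow_mul, ← pow_add]
        congr 1
        obtain ⟨q, hq⟩ : ∃ q, e / m = q + 1 := ⟨e / m - 1, by omega⟩
        rw [hq] at h3 ⊢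
        rw [Nat.add_sub_cancel]
        have h8 : m * (q + 1) = q * m + m := by ring
        rw [h8] at h3
        show e = q * m + (m + 1 + (e % m - 1))
        omega
  | coprime a b ha hb hab iha ihb =>
    intro h
    have h1 : NFull m a := by
      refine ⟨by omega, fun p hp hpa => ?_⟩
      have h2 := h.2 p hp (hpa.mul_right b)
      have h3 : Nat.Coprime (p ^ m) b := (Nat.Coprime.coprime_dvd_left hpa hab).pow_left m
      exact h3.dvd_of_dvd_mul_right h2
    have h2 : NFull m b := by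
      refine ⟨by omega, fun p hp hpb => ?_⟩
      have h2 := h.2 p hp (hpb.mul_left a)
      have h3 : Nat.Coprime (p ^ m) a := (Nat.Coprime.coprime_dvd_left hpb hab.symm).pow_left m
      exact h3.dvd_of_dvd_mul_left h2
    obtain ⟨a1, b1, c1, d1, e1⟩ := iha h1
    obtain ⟨a2, b2, c2, d2, e2⟩ := ihb h2
    refine ⟨a1 * a2, fun r => b1 r * b2 r, Nat.mul_pos c1 c2, fun r => Nat.mul_pos (d1 r) (d2 r), ?_⟩
    have e3 : ∏ r : Fin (m - 1), (b1 r * b2 r) ^ (m + 1 + (r : ℕ)) =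
        (∏ r, b1 r ^ (m + 1 + (r : ℕ))) * ∏ r, b2 r ^ (m + 1 + (r : ℕ)) := by
      rw [← Finset.prod_mul_distrib]
      exact Finset.prod_congr rfl fun r _ => mul_pow _ _ _
    rw [e3, mul_pow]
    calc a * b = (a1 ^ m * ∏ r, b1 r ^ (m + 1 + (r : ℕ))) * (a2 ^ m * ∏ r, b2 r ^ (m + 1 + (r : ℕ))) := by
          rw [← e1, ← e2]
      _ = _ := by ring

/-- the number of `m`-full numbers up to `N` -/
theorem card_full_le (m : ℕ) (hm : 2 ≤ m) : ∃ C : ℝ, 0 < C ∧ ∀ N : ℕ, 1 ≤ N → ∀ S : Finset ℕ,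
    (∀ t ∈ S, t ≤ N ∧ NFull m t) → (S.card : ℝ) ≤ C * (N : ℝ) ^ (1 / (m : ℝ)) := by
  classical
  have hmr : (0 : ℝ) < m := by exact_mod_cast (by omega : 0 < m)
  obtain ⟨u, hu⟩ : ∃ u : ℝ, u = 1 + 1 / (m : ℝ) := ⟨_, rfl⟩
  have hu1 : 1 < u := by rw [hu]; have : 0 < 1 / (m : ℝ) := by positivity
                         linarith
  have hsum : Summable fun b : ℕ => (b : ℝ) ^ (-u) := by
    have := (Real.summable_nat_rpow (p := -u)).2 (by linarith)
    exact this
  obtain ⟨Z, hZ⟩ : ∃ Z : ℝ, Z = (∑' b : ℕ, (b : ℝ) ^ (-u)) + 1 := ⟨_, rfl⟩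
  have hZb : ∀ N : ℕ, ∑ b ∈ Finset.Icc 1 N, (b : ℝ) ^ (-u) ≤ Z := by
    intro N
    have h1 := hsum.sum_le_tsum (Finset.Icc 1 N) (fun b _ => Real.rpow_nonneg (Nat.cast_nonneg b) _)
    rw [hZ]
    linarith
  have hZ0 : 0 < Z := by
    rw [hZ]
    have h2 : 0 ≤ ∑' b : ℕ, (b : ℝ) ^ (-u) :=
      tsum_nonneg fun b => Real.rpow_nonneg (Nat.cast_nonneg b) _
    linarith
  refine ⟨Z ^ (m - 1), by positivity, fun N hN S hS => ?_⟩
  have hNr : (1 : ℝ) ≤ N := by exact_mod_cast hN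
  obtain ⟨Q, hQ⟩ : ∃ Q : (Fin (m - 1) → ℕ) → ℕ, Q = fun b => ∏ r : Fin (m - 1), b r ^ (m + 1 + (r : ℕ)) := ⟨_, rfl⟩
  have hsub : S ⊆ (Fintype.piFinset fun _ : Fin (m - 1) => Finset.Icc 1 N).biUnion fun b =>
      ((Finset.Icc 1 N).filter fun a => a ^ m * Q b ≤ N).image fun a => a ^ m * Q b := by
    intro t ht
    obtain ⟨h1, h2⟩ := hS t ht
    obtain ⟨a, b, ha, hb, he⟩ := full_decomp m hm t h2
    have heQ : t = a ^ m * Q b := by rw [hQ]; exact he
    have hQ1 : 1 ≤ Q b := by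
      rw [hQ]
      exact Finset.prod_pos fun r _ => Nat.pow_pos (hb r)
    have ham : 1 ≤ a ^ m := Nat.one_le_pow _ _ ha
    rw [Finset.mem_biUnion]
    refine ⟨b, Fintype.mem_piFinset.2 fun r => Finset.mem_Icc.2 ⟨hb r, ?_⟩,
      Finset.mem_image.2 ⟨a, Finset.mem_filter.2 ⟨Finset.mem_Icc.2 ⟨ha, ?_⟩, ?_⟩, heQ.symm⟩⟩
    · have h3 : b r ^ (m + 1 + (r : ℕ)) ≤ Q b := by
        rw [hQ]
        exact Finset.single_le_prod' (f := fun r => b r ^ (m + 1 + (r : ℕ)))
          (fun i _ => Nat.one_le_pow _ _ (hb i)) (Finset.mem_univ r)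
      calc b r ≤ b r ^ (m + 1 + (r : ℕ)) := Nat.le_self_pow (by omega) _
        _ ≤ Q b := h3
        _ ≤ a ^ m * Q b := Nat.le_mul_of_pos_left _ ham
        _ ≤ N := heQ ▸ h1
    · calc a ≤ a ^ m := Nat.le_self_pow (by omega) _
        _ ≤ a ^ m * Q b := Nat.le_mul_of_pos_right _ hQ1
        _ ≤ N := heQ ▸ h1
    · exact heQ ▸ h1
  have hcard : (S.card : ℝ) ≤ ∑ b ∈ Fintype.piFinset fun _ : Fin (m - 1) => Finset.Icc 1 N,
      ((((Finset.Icc 1 N).filter fun a => a ^ m * Q b ≤ N).card : ℕ) : ℝ) := by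
    have h1 := (Finset.card_le_card hsub).trans Finset.card_biUnion_le
    have h2 : S.card ≤ ∑ b ∈ Fintype.piFinset fun _ : Fin (m - 1) => Finset.Icc 1 N,
        ((Finset.Icc 1 N).filter fun a => a ^ m * Q b ≤ N).card :=
      h1.trans (Finset.sum_le_sum fun b _ => Finset.card_image_le)
    exact_mod_cast h2
  have hone : ∀ b ∈ Fintype.piFinset fun _ : Fin (m - 1) => Finset.Icc 1 N,
      ((((Finset.Icc 1 N).filter fun a => a ^ m * Q b ≤ N).card : ℕ) : ℝ) ≤
        (N : ℝ) ^ (1 / (m : ℝ)) * ∏ r, ((b r : ℕ) : ℝ) ^ (-u) := by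
    intro b hb
    have hb1 : ∀ r, 1 ≤ b r := fun r => (Finset.mem_Icc.1 (Fintype.mem_piFinset.1 hb r)).1
    have hbr : ∀ r, (1 : ℝ) ≤ b r := fun r => by exact_mod_cast hb1 r
    have hQ1 : 1 ≤ Q b := by
      rw [hQ]
      exact Finset.prod_pos fun r _ => Nat.pow_pos (hb1 r)
    have hQr : (0 : ℝ) < Q b := by exact_mod_cast hQ1
    obtain ⟨y, hy⟩ : ∃ y : ℝ, y = ((N : ℝ) / Q b) ^ (1 / (m : ℝ)) := ⟨_, rfl⟩
    have hy0 : 0 ≤ y := by rw [hy]; positivity
    have h1 : ((Finset.Icc 1 N).filter fun a => a ^ m * Q b ≤ N) ⊆ Finset.Icc 1 ⌊y⌋₊ := by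
      intro a ha
      obtain ⟨h2, h3⟩ := Finset.mem_filter.1 ha
      refine Finset.mem_Icc.2 ⟨(Finset.mem_Icc.1 h2).1, Nat.le_floor ?_⟩
      have h4 : ((a : ℝ)) ^ m * Q b ≤ N := by exact_mod_cast h3
      have h5 : ((a : ℝ)) ^ m ≤ N / Q b := (le_div_iff₀ hQr).2 h4
      rw [hy]
      calc (a : ℝ) = ((a : ℝ) ^ m) ^ (1 / (m : ℝ)) := by
            rw [← Real.rpow_natCast, ← Real.rpow_mul (Nat.cast_nonneg a), mul_one_div_cancel hmr.ne',
              Real.rpow_one]
        _ ≤ _ := Real.rpow_le_rpow (by positivity) h5 (by positivity)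
    have h2 : ((((Finset.Icc 1 N).filter fun a => a ^ m * Q b ≤ N).card : ℕ) : ℝ) ≤ y := by
      have h3 := Finset.card_le_card h1
      rw [Nat.card_Icc, Nat.add_sub_cancel] at h3
      exact (Nat.cast_le.2 h3).trans (Nat.floor_le hy0)
    refine h2.trans ?_
    rw [hy, Real.div_rpow (Nat.cast_nonneg N) hQr.le, div_eq_mul_inv]
    refine mul_le_mul_of_nonneg_left ?_ (by positivity)
    rw [← Real.rpow_neg hQr.le]
    have h3 : ((Q b : ℕ) : ℝ) = ∏ r, ((b r : ℕ) : ℝ) ^ (m + 1 + (r : ℕ)) := by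
      rw [hQ]
      push_cast
      rfl
    rw [h3, ← Real.finsetProd_rpow _ _ (fun r _ => by positivity)]
    refine Finset.prod_le_prod (fun r _ => by positivity) fun r _ => ?_
    rw [← Real.rpow_natCast, ← Real.rpow_mul (by linarith [hbr r])]
    refine Real.rpow_le_rpow_of_exponent_le (hbr r) ?_
    rw [hu]
    push_cast
    have h4 : (0 : ℝ) ≤ ((r : ℕ) : ℝ) := Nat.cast_nonneg _
    have h5 : ((m : ℝ) + 1 + ((r : ℕ) : ℝ)) * -(1 / (m : ℝ)) = -(1 + 1 / (m : ℝ)) - (r : ℕ) / m := by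
      field_simp
      ring
    rw [h5]
    have h6 : (0 : ℝ) ≤ ((r : ℕ) : ℝ) / m := by positivity
    linarith
  calc (S.card : ℝ) ≤ _ := hcard
    _ ≤ _ := Finset.sum_le_sum hone
    _ = (N : ℝ) ^ (1 / (m : ℝ)) * ∏ _r : Fin (m - 1), ∑ b ∈ Finset.Icc 1 N, (b : ℝ) ^ (-u) := by
        rw [← Finset.mul_sum, Finset.prod_univ_sum]
    _ ≤ (N : ℝ) ^ (1 / (m : ℝ)) * Z ^ (m - 1) := by
        refine mul_le_mul_of_nonneg_left ?_ (by positivity)
        rw [Finset.prod_const, Finset.card_univ, Fintype.card_fin]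
        exact pow_le_pow_left₀ (Finset.sum_nonneg fun b _ => by positivity) (hZb N) _
    _ = _ := mul_comm _ _

theorem isFull_iff {m : ℕ} (hm : 2 ≤ m) (t : ℤ) : IsFull m t ↔ NFull m t.natAbs := by
  unfold IsFull NFull
  refine and_congr (by rw [Ne, Ne, Int.natAbs_eq_zero]) (forall_congr' fun p => forall_congr' fun hp => ?_)
  rw [Int.natCast_dvd, ← Int.natCast_pow, Int.natCast_dvd]
  exact ⟨fun h h1 => (h h1).2, fun h h1 => ⟨by omega, h h1⟩⟩

theorem isFull_zero_iff (t : ℤ) : IsFull 0 t ↔ t = 1 ∨ t = -1 := by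
  unfold IsFull
  have hx : (t = 1 ∨ t = -1) ↔ t.natAbs = 1 := by omega
  rw [hx]
  constructor
  · rintro ⟨_, h2⟩
    by_contra h3
    obtain ⟨p, hp, hpt⟩ := Nat.exists_prime_and_dvd h3
    exact (h2 p hp (Int.natCast_dvd.2 hpt)).1 rfl
  · intro h
    refine ⟨fun h0 => by rw [h0] at h; simp at h, fun p hp hpt => ?_⟩
    have h1 := Int.natCast_dvd.1 hpt
    rw [h] at h1
    exact absurd (Nat.dvd_one.1 h1) hp.one_lt.ne'

theorem isFull_neg {m : ℕ} {t : ℤ} (h : IsFull m t) : IsFull m (-t) := by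
  refine ⟨neg_ne_zero.2 h.1, fun p hp hpt => ?_⟩
  rw [Int.dvd_neg] at hpt ⊢
  exact h.2 p hp hpt

theorem thin_zero : Thin {0} 0 := by
  classical
  have h : ∀ N : ℕ, (cnt {0} N).card = 1 := by
    intro N
    rw [Finset.card_eq_one]
    refine ⟨0, ?_⟩
    ext t
    rw [mem_cnt, Set.mem_singleton_iff, Finset.mem_singleton]
    constructor
    · exact fun h => h.2
    · rintro rfl
      exact ⟨by simp, rfl⟩
  refine ⟨fun t ht => ?_, le_rfl, one_pos, ⟨1, one_pos, fun N _ => ?_⟩, ⟨1, one_pos, fun N _ => ?_⟩⟩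
  · rw [Set.mem_singleton_iff] at ht ⊢
    rw [ht, neg_zero]
  · rw [h, Real.rpow_zero]
    simp
  · rw [h, Real.rpow_zero]
    simp

theorem thin_full {m : ℕ} (hm : m ≠ 1) : Thin {t | IsFull m t} (1 / (m : ℝ)) := by
  classical
  rcases Nat.eq_zero_or_pos m with rfl | hm0
  · -- the units
    have h1 : ((1 : ℝ) / ((0 : ℕ) : ℝ)) = 0 := by simp
    rw [h1]
    have hsub : ∀ N : ℕ, cnt {t | IsFull 0 t} N ⊆ {1, -1} := by
      intro N t ht
      rw [mem_cnt, Set.mem_ofPred_eq, isFull_zero_iff] at ht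
      simpa using ht.2
    refine ⟨fun t ht => isFull_neg ht, le_rfl, one_pos, ⟨2, two_pos, fun N _ => ?_⟩,
      ⟨1, one_pos, fun N hN => ?_⟩⟩
    · rw [Real.rpow_zero, mul_one]
      have h2 := (Finset.card_le_card (hsub N)).trans Finset.card_le_two
      exact_mod_cast h2
    · rw [Real.rpow_zero, mul_one]
      have h2 : (1 : ℤ) ∈ cnt {t | IsFull 0 t} N := by
        rw [mem_cnt, Set.mem_ofPred_eq, isFull_zero_iff]
        refine ⟨?_, Or.inl rfl⟩
        rw [abs_one]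
        exact_mod_cast hN
      have h3 : 1 ≤ (cnt {t | IsFull 0 t} N).card := Finset.card_pos.2 ⟨1, h2⟩
      exact_mod_cast h3
  · have hm2 : 2 ≤ m := by omega
    have hmr : (2 : ℝ) ≤ m := by exact_mod_cast hm2
    have hmr0 : (0 : ℝ) < m := by linarith
    obtain ⟨C, hC, hup⟩ := card_full_le m hm2
    refine ⟨fun t ht => isFull_neg ht, by positivity, ?_, ⟨2 * C, by positivity, fun N hN => ?_⟩,
      ⟨1 / 2, by norm_num, fun N hN => ?_⟩⟩
    · rw [div_lt_one hmr0]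
      linarith
    · have h1 : (cnt {t | IsFull m t} N) ⊆
          ((Finset.Icc 1 N).filter fun a => NFull m a).image (fun a : ℕ => (a : ℤ)) ∪
          ((Finset.Icc 1 N).filter fun a => NFull m a).image (fun a : ℕ => -(a : ℤ)) := by
        intro t ht
        rw [mem_cnt, Set.mem_ofPred_eq, isFull_iff hm2] at ht
        obtain ⟨h2, h3⟩ := ht
        have h4 : t.natAbs ∈ (Finset.Icc 1 N).filter fun a => NFull m a := by
          refine Finset.mem_filter.2 ⟨Finset.mem_Icc.2 ⟨Nat.one_le_iff_ne_zero.2 h3.1, ?_⟩, h3⟩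
          have h5 : ((t.natAbs : ℕ) : ℤ) ≤ N := by
            rw [Int.natCast_natAbs]
            exact h2
          exact_mod_cast h5
        rw [Finset.mem_union, Finset.mem_image, Finset.mem_image]
        rcases Int.natAbs_eq t with h5 | h5
        · exact Or.inl ⟨_, h4, h5.symm⟩
        · exact Or.inr ⟨_, h4, h5.symm⟩
      have h2 := hup N hN ((Finset.Icc 1 N).filter fun a => NFull m a) (fun t ht => by
        obtain ⟨h3, h4⟩ := Finset.mem_filter.1 ht
        exact ⟨(Finset.mem_Icc.1 h3).2, h4⟩)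
      have h3 : (cnt {t | IsFull m t} N).card ≤
          2 * ((Finset.Icc 1 N).filter fun a => NFull m a).card := by
        refine (Finset.card_le_card h1).trans ((Finset.card_union_le _ _).trans ?_)
        have h4 := Finset.card_image_le (s := (Finset.Icc 1 N).filter fun a => NFull m a)
          (f := fun a : ℕ => (a : ℤ))
        have h5 := Finset.card_image_le (s := (Finset.Icc 1 N).filter fun a => NFull m a)
          (f := fun a : ℕ => -(a : ℤ))
        omega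
      have h4 : ((cnt {t | IsFull m t} N).card : ℝ) ≤
          2 * (((Finset.Icc 1 N).filter fun a => NFull m a).card : ℝ) := by exact_mod_cast h3
      linarith
    · have hNr : (1 : ℝ) ≤ N := by exact_mod_cast hN
      obtain ⟨y, hy⟩ : ∃ y : ℝ, y = (N : ℝ) ^ (1 / (m : ℝ)) := ⟨_, rfl⟩
      have hy1 : 1 ≤ y := by rw [hy]; exact Real.one_le_rpow hNr (by positivity)
      have hk1 : 1 ≤ ⌊y⌋₊ := Nat.le_floor (by simpa using hy1)
      have hk2 : y / 2 ≤ (⌊y⌋₊ : ℝ) := by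
        have h1 := Nat.lt_floor_add_one y
        have h2 : (1 : ℝ) ≤ (⌊y⌋₊ : ℝ) := by exact_mod_cast hk1
        linarith
      have h1 : (Finset.Icc 1 ⌊y⌋₊).image (fun a : ℕ => ((a : ℤ)) ^ m) ⊆ cnt {t | IsFull m t} N := by
        intro t ht
        obtain ⟨a, ha, rfl⟩ := Finset.mem_image.1 ht
        obtain ⟨h2, h3⟩ := Finset.mem_Icc.1 ha
        rw [mem_cnt, Set.mem_ofPred_eq]
        have h4 : ((a : ℕ) : ℝ) ≤ y := (Nat.le_floor_iff (by linarith)).1 h3
        refine ⟨?_, ?_, ?_⟩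
        · have h5 : ((a : ℕ) : ℝ) ^ m ≤ N := by
            calc ((a : ℕ) : ℝ) ^ m ≤ y ^ m := pow_le_pow_left₀ (Nat.cast_nonneg _) h4 m
              _ = N := by
                rw [hy, ← Real.rpow_natCast, ← Real.rpow_mul (by linarith),
                  one_div_mul_cancel hmr0.ne', Real.rpow_one]
          have h6 : a ^ m ≤ N := by exact_mod_cast h5
          rw [abs_of_nonneg (by positivity)]
          exact_mod_cast h6
        · exact pow_ne_zero _ (by exact_mod_cast (by omega : a ≠ 0))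
        · intro p hp hpa
          refine ⟨by omega, pow_dvd_pow_of_dvd ?_ m⟩
          exact Int.Prime.dvd_pow' hp hpa
      have h2 := Finset.card_le_card h1
      rw [Finset.card_image_of_injOn, Nat.card_Icc, Nat.add_sub_cancel] at h2
      · have h3 : (⌊y⌋₊ : ℝ) ≤ ((cnt {t | IsFull m t} N).card : ℝ) := by exact_mod_cast h2
        rw [← hy]
        linarith
      · intro a _ b _ hab
        have h3 : ((a : ℕ)) ^ m = b ^ m := by
          have h4 : ((a : ℤ)) ^ m = (b : ℤ) ^ m := hab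
          exact_mod_cast h4
        exact Nat.pow_left_injective (by omega) h3

end Pool.Agent.U580.TT
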