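import Mathlib
import Pool.Agent.U580.TT.BinLaw

/-!
# The integral points of random superelliptic curves

For `m ≥ 2` and random integer polynomials `f` of degree at most `d` with coefficients in `[-H, H]` let
`σ = 1 - 1/m`. There are `c, C > 0` and `P` such that

* for every finite set `A` of integers, contained in `[-B, B]`, the probability that `y ^ m = f(x)` has
  an integral point with `x ∈ A` is at most `C max(1, B/H) ^ d H ^ (-σ) ∑_{x ∈ A} max(1, |x|) ^ (-d σ)`,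
  and at least `c H ^ (-σ) ∑_{x ∈ A} max(1, |x|) ^ (-d σ)` if `H ≥ C B ^ P`; the probability of two such
  points with different abscissas in `A` is then `C B ^ P H ^ (-σ)` times smaller;
* if `κ = d σ - 1 > 0` (for `m = 2`: `d ≥ 3`), then the probability of an integral point with
  `T ≤ |x| ≤ B` is at most `C max(1, B/H) ^ d H ^ (-σ) T ^ (-κ)`, and at least `c H ^ (-σ) T ^ (-κ)` if
  `B ≥ 2 T` and `H ≥ C T ^ P`.

So up to constants the abscissa of the integral point has the law `max(1, |x|) ^ (-d σ)` on the integers,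
and almost all the curves which have an integral point of small height have exactly one abscissa. For
`m = 2` and a curve of genus `g` the exponent `κ` of the tail is `g - 1/2` (`d = 2 g + 1`), resp. `g`
(`d = 2 g + 2`).
-/

set_option autoImplicit false

namespace Pool.Agent.U580.TT.RandomPolynomialsOut

open Polynomial Pool.Agent.U580.TT

/-- the integer polynomials of degree at most `d` with coefficients in `[-H, H]` -/
def Polys (d H : ℕ) : Set ℤ[X] := {f | f.natDegree ≤ d ∧ ∀ k, |f.coeff k| ≤ (H : ℤ)}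

/-- the curve `y ^ m = f(x)` has an integral point with abscissa `x` -/
def IsAbscissa (m : ℕ) (f : ℤ[X]) (x : ℤ) : Prop := ∃ y : ℤ, y ^ m = f.eval x

/-- the polynomials for which there is an integral point with abscissa in `A` -/
def WithPoint (d m H : ℕ) (A : Set ℤ) : Set ℤ[X] := {f | f ∈ Polys d H ∧ ∃ x ∈ A, IsAbscissa m f x}

/-- the polynomials for which there are integral points with two different abscissas in `A` -/
def WithTwoPoints (d m H : ℕ) (A : Set ℤ) : Set ℤ[X] :=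
  {f | f ∈ Polys d H ∧ ∃ x ∈ A, ∃ x' ∈ A, x ≠ x' ∧ IsAbscissa m f x ∧ IsAbscissa m f x'}

/-- the proportion of a set of polynomials among all polynomials of degree at most `d` with
coefficients in `[-H, H]` -/
noncomputable def proportion (d H : ℕ) (S : Set ℤ[X]) : ℝ := (S.ncard : ℝ) / ((Polys d H).ncard : ℝ)

/-- the exponent of the size `H` -/
noncomputable def sig (m : ℕ) : ℝ := 1 - 1 / (m : ℝ)

/-- the expected law of the abscissas: `∑_{x ∈ A} max(1, |x|) ^ (-d (1 - 1/m))` -/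
noncomputable def mass (d m : ℕ) (A : Finset ℤ) : ℝ :=
  ∑ x ∈ A, (max 1 (|(x : ℝ)|)) ^ (-((d : ℝ) * sig m))

/-- the point of the projective line -/
def v (x : ℤ) : Fin 2 → ℤ := ![1, x]

theorem v_inj : Function.Injective v := by
  intro x y h
  have := congrFun h 1
  simpa [v] using this

theorem prm_v (x : ℤ) : Pool.Agent.U580.RG.Prm (v x) := by
  intro p hp
  refine ⟨0, fun h => ?_⟩
  have h1 : (p : ℤ) ∣ 1 := h
  have h2 : p ∣ 1 := by exact_mod_cast h1
  exact hp.one_lt.ne' (Nat.dvd_one.1 h2)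

theorem ht_v (x : ℤ) : Pool.Agent.U580.VP.ht (v x) = max 1 x.natAbs := by
  unfold Pool.Agent.U580.VP.ht v
  rw [Fin.univ_succ, Finset.sup_cons]
  simp

theorem ht_v_real (x : ℤ) : ((Pool.Agent.U580.VP.ht (v x) : ℕ) : ℝ) = max 1 |(x : ℝ)| := by
  rw [ht_v]
  push_cast
  rw [Nat.cast_natAbs]
  push_cast
  rfl

theorem indep_v {x y : ℤ} (h : x ≠ y) : Indep (v x) (v y) := by
  refine ⟨0, 1, ?_⟩
  show 1 * y ≠ x * 1
  rw [one_mul, mul_one]
  exact h.symm

theorem eval_v {d H : ℕ} {f : ℤ[X]} (hf : f ∈ Pl d H) (x : ℤ) :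
    MvPolynomial.eval (v x) (hom d f) = f.eval x := by
  rw [eval_hom, Polynomial.eval_eq_sum_range' (n := d + 1) (by have := hf.1; omega)]
  refine Finset.sum_congr rfl fun k _ => ?_
  show f.coeff k * (1 ^ (d - k) * x ^ k) = f.coeff k * x ^ k
  rw [one_pow, one_mul]

theorem with_eq (d m H : ℕ) (A : Finset ℤ) :
    WithPoint d m H (A : Set ℤ) = PA d (Pow m) H ((A.image v : Finset (Fin 2 → ℤ)) : Set _) := by
  ext f
  constructor
  · rintro ⟨hf, x, hx, y, hy⟩
    refine ⟨hf, v x, Finset.mem_coe.2 (Finset.mem_image_of_mem v hx), y, ?_⟩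
    rw [eval_v hf, hy]
  · rintro ⟨hf, z, hz, y, hy⟩
    obtain ⟨x, hx, rfl⟩ := Finset.mem_image.1 (Finset.mem_coe.1 hz)
    rw [eval_v hf] at hy
    exact ⟨hf, x, hx, y, hy.symm⟩

theorem two_eq (d m H : ℕ) (A : Finset ℤ) :
    WithTwoPoints d m H (A : Set ℤ) = PA2 d (Pow m) H ((A.image v : Finset (Fin 2 → ℤ)) : Set _) := by
  ext f
  constructor
  · rintro ⟨hf, x, hx, x', hx', hxx, ⟨y, hy⟩, ⟨y', hy'⟩⟩
    refine ⟨hf, v x, Finset.mem_coe.2 (Finset.mem_image_of_mem v hx), v x',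
      Finset.mem_coe.2 (Finset.mem_image_of_mem v hx'), fun h => hxx (v_inj h), ⟨y, ?_⟩, ⟨y', ?_⟩⟩
    · rw [eval_v hf, hy]
    · rw [eval_v hf, hy']
  · rintro ⟨hf, z, hz, z', hz', hzz, ⟨y, hy⟩, ⟨y', hy'⟩⟩
    obtain ⟨x, hx, rfl⟩ := Finset.mem_image.1 (Finset.mem_coe.1 hz)
    obtain ⟨x', hx', rfl⟩ := Finset.mem_image.1 (Finset.mem_coe.1 hz')
    rw [eval_v hf] at hy hy'
    exact ⟨hf, x, hx, x', hx', fun h => hzz (congrArg v h), ⟨y, hy.symm⟩, ⟨y', hy'.symm⟩⟩

/-- the condition on the size of `H` -/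
theorem cond_of {C : ℝ} {P m H B : ℕ} (hC : 0 < C) (hm : 2 ≤ m) (hH : 1 ≤ H) (hB : 1 ≤ B)
    (h : (C ^ 2 + C) * (B : ℝ) ^ (2 * P) ≤ H) :
    C * (B : ℝ) ^ P ≤ H ∧ C * (B : ℝ) ^ P ≤ (H : ℝ) ^ (1 - 1 / (m : ℝ)) := by
  have hBr : (1 : ℝ) ≤ B := by exact_mod_cast hB
  have hHr : (1 : ℝ) ≤ H := by exact_mod_cast hH
  have hBP : (1 : ℝ) ≤ (B : ℝ) ^ P := one_le_pow₀ hBr
  have e1 : (B : ℝ) ^ (2 * P) = (B : ℝ) ^ P * (B : ℝ) ^ P := by rw [two_mul, pow_add]
  rw [e1] at h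
  have h1 : C * (B : ℝ) ^ P ≤ H := by
    refine le_trans ?_ h
    have h2 : (B : ℝ) ^ P ≤ (B : ℝ) ^ P * (B : ℝ) ^ P := by nlinarith
    have h3 : C * (B : ℝ) ^ P ≤ C * ((B : ℝ) ^ P * (B : ℝ) ^ P) :=
      mul_le_mul_of_nonneg_left h2 hC.le
    have h4 : 0 ≤ C ^ 2 * ((B : ℝ) ^ P * (B : ℝ) ^ P) := by positivity
    nlinarith
  refine ⟨h1, ?_⟩
  have hm2 : (2 : ℝ) ≤ m := by exact_mod_cast hm
  have h5 : (1 : ℝ) / 2 ≤ 1 - 1 / (m : ℝ) := by
    have h6 : 1 / (m : ℝ) ≤ 1 / 2 := one_div_le_one_div_of_le (by norm_num) hm2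
    linarith
  refine le_trans ?_ (Real.rpow_le_rpow_of_exponent_le hHr h5)
  have h7 : (C * (B : ℝ) ^ P) ^ 2 ≤ H := by
    refine le_trans ?_ h
    have : 0 ≤ C * ((B : ℝ) ^ P * (B : ℝ) ^ P) := by positivity
    nlinarith
  have h8 : C * (B : ℝ) ^ P = ((C * (B : ℝ) ^ P) ^ 2) ^ ((1 : ℝ) / 2) := by
    rw [← Real.sqrt_eq_rpow, Real.sqrt_sq (by positivity)]
  rw [h8]
  exact Real.rpow_le_rpow (by positivity) h7 (by norm_num)

theorem mass_image (d m : ℕ) (A : Finset ℤ) :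
    ∑ x ∈ A.image v, ((Pool.Agent.U580.VP.ht x : ℕ) : ℝ) ^ (-((d : ℝ) * (1 - 1 / (m : ℝ)))) =
      mass d m A := by
  rw [Finset.sum_image fun x _ y _ h => v_inj h]
  unfold mass sig
  exact Finset.sum_congr rfl fun x _ => by rw [ht_v_real]

theorem mass_nonneg (d m : ℕ) (A : Finset ℤ) : 0 ≤ mass d m A :=
  Finset.sum_nonneg fun x _ => Real.rpow_nonneg (zero_le_one.trans (le_max_left _ _)) _

/-- the sum over a dyadic window -/
theorem mass_low (d m T : ℕ) (hm : 2 ≤ m) (hT : 1 ≤ T) :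
    (2 : ℝ) ^ (-((d : ℝ) * sig m)) * (T : ℝ) ^ (-((d : ℝ) * sig m - 1)) ≤
      mass d m (Finset.Icc (T : ℤ) (2 * T)) := by
  have hTr : (0 : ℝ) < T := by exact_mod_cast hT
  have hs : 0 ≤ (d : ℝ) * sig m := by
    unfold sig
    have hm2 : (2 : ℝ) ≤ m := by exact_mod_cast hm
    have : 1 / (m : ℝ) ≤ 1 := by
      rw [div_le_one (by linarith)]
      linarith
    exact mul_nonneg (Nat.cast_nonneg _) (by linarith)
  unfold mass
  have h1 : ∀ x ∈ Finset.Icc (T : ℤ) (2 * T), (2 * (T : ℝ)) ^ (-((d : ℝ) * sig m)) ≤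
      (max 1 |(x : ℝ)|) ^ (-((d : ℝ) * sig m)) := by
    intro x hx
    obtain ⟨h2, h3⟩ := Finset.mem_Icc.1 hx
    have h4 : (T : ℝ) ≤ x := by exact_mod_cast h2
    have h5 : (x : ℝ) ≤ 2 * T := by exact_mod_cast h3
    have h6 : (1 : ℝ) ≤ T := by exact_mod_cast hT
    have h7 : max 1 |(x : ℝ)| ≤ 2 * T := by
      rw [abs_of_nonneg (by linarith)]
      exact max_le (by linarith) h5
    exact Real.rpow_le_rpow_of_nonpos (lt_of_lt_of_le one_pos (le_max_left _ _)) h7 (by linarith)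
  have h2 := Finset.card_nsmul_le_sum _ _ _ h1
  rw [nsmul_eq_mul, Int.card_Icc] at h2
  refine le_trans ?_ h2
  have h3 : ((((2 * (T : ℤ)) + 1 - T).toNat : ℕ) : ℝ) = T + 1 := by
    have : ((2 * (T : ℤ)) + 1 - T).toNat = T + 1 := by omega
    rw [this]
    push_cast
    ring
  rw [h3, Real.mul_rpow (by norm_num) hTr.le]
  have h4 : (T : ℝ) ^ (-((d : ℝ) * sig m - 1)) = T * (T : ℝ) ^ (-((d : ℝ) * sig m)) := by
    nth_rewrite 2 [← Real.rpow_one (T : ℝ)]
    rw [← Real.rpow_add hTr]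
    congr 1
    ring
  rw [h4]
  have h5 : 0 ≤ (2 : ℝ) ^ (-((d : ℝ) * sig m)) * (T : ℝ) ^ (-((d : ℝ) * sig m)) := by positivity
  nlinarith

/-- the sum over a window -/
theorem mass_up (d m T B : ℕ) (hT : 1 ≤ T) (κ : ℝ) (hκ : 0 < κ) (hκd : κ = d * sig m - 1) :
    mass d m ((Finset.Icc (-(B : ℤ)) B).filter fun x => (T : ℤ) ≤ |x|) ≤
      2 * (1 + 1 / κ) * (T : ℝ) ^ (-κ) := by
  classical
  have hsub : ((Finset.Icc (-(B : ℤ)) B).filter fun x => (T : ℤ) ≤ |x|) ⊆
      (Finset.Icc T B).image (fun b : ℕ => (b : ℤ)) ∪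
      (Finset.Icc T B).image (fun b : ℕ => -(b : ℤ)) := by
    intro x hx
    obtain ⟨h1, h2⟩ := Finset.mem_filter.1 hx
    rw [Finset.mem_Icc, ← abs_le] at h1
    have h3 : x.natAbs ∈ Finset.Icc T B := by
      rw [Finset.mem_Icc]
      rw [← Int.natCast_natAbs] at h1 h2
      exact ⟨by exact_mod_cast h2, by exact_mod_cast h1⟩
    rw [Finset.mem_union, Finset.mem_image, Finset.mem_image]
    rcases Int.natAbs_eq x with h | h
    · exact Or.inl ⟨_, h3, h.symm⟩
    · exact Or.inr ⟨_, h3, h.symm⟩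
  have hnn : ∀ x : ℤ, 0 ≤ (max 1 |(x : ℝ)|) ^ (-((d : ℝ) * sig m)) := fun x =>
    Real.rpow_nonneg (zero_le_one.trans (le_max_left _ _)) _
  have hone : ∀ g : ℕ → ℤ, (∀ b, |((g b : ℤ) : ℝ)| = b) → Function.Injective g →
      ∑ x ∈ (Finset.Icc T B).image g, (max 1 |(x : ℝ)|) ^ (-((d : ℝ) * sig m)) ≤
        (1 + 1 / κ) * (T : ℝ) ^ (-κ) := by
    intro g hg hinj
    rw [Finset.sum_image fun x _ y _ h => hinj h]
    refine le_trans (le_of_eq ?_) (Pool.Agent.U580.VP.sum_rpow κ hκ T hT B)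
    refine Finset.sum_congr rfl fun b hb => ?_
    have hb1 : (1 : ℝ) ≤ b := by
      have := (Finset.mem_Icc.1 hb).1
      exact_mod_cast hT.trans this
    rw [hg, max_eq_right hb1, hκd]
    congr 1
    ring
  unfold mass
  refine (Finset.sum_le_sum_of_subset_of_nonneg hsub fun x _ _ => hnn x).trans ?_
  have h1 := hone (fun b => (b : ℤ)) (fun b => by simp) Nat.cast_injective
  have h2 := hone (fun b => -(b : ℤ)) (fun b => by simp) (fun a b h => by
    have : (a : ℤ) = b := neg_injective h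
    exact_mod_cast this)
  have h3 := Finset.sum_union_inter (s₁ := (Finset.Icc T B).image fun b : ℕ => (b : ℤ))
    (s₂ := (Finset.Icc T B).image fun b : ℕ => -(b : ℤ))
    (f := fun x : ℤ => (max 1 |(x : ℝ)|) ^ (-((d : ℝ) * sig m)))
  have h4 : 0 ≤ ∑ x ∈ ((Finset.Icc T B).image fun b : ℕ => (b : ℤ)) ∩
      ((Finset.Icc T B).image fun b : ℕ => -(b : ℤ)), (max 1 |(x : ℝ)|) ^ (-((d : ℝ) * sig m)) :=
    Finset.sum_nonneg fun x _ => hnn x
  linarith

theorem with_mono (d m H : ℕ) {A A' : Set ℤ} (h : A ⊆ A') :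
    WithPoint d m H A ⊆ WithPoint d m H A' :=
  fun _ ⟨hf, x, hx, hy⟩ => ⟨hf, x, h hx, hy⟩

/-- **The integral points of random superelliptic curves.** Let `d ≥ 1`, `m ≥ 2`, `σ = 1 - 1/m`. There
are `c, C > 0` and `P` such that for all `H ≥ 1`
(1) for every `B ≥ 1` and every finite set `A` of integers of absolute value at most `B` the probability
of an integral point of `y ^ m = f(x)` with `x ∈ A` is at most `C max(1, B/H) ^ d H ^ (-σ) mass(A)`; if
`C B ^ P ≤ H`, then it is at least `c H ^ (-σ) mass(A)`, and the probability of two such points with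
different abscissas in `A` is at most `C B ^ P H ^ (-σ)` times the probability of one;
(2) if `κ = d σ - 1 > 0`, then for all `T ≥ 1` and `B` the probability of an integral point with
`T ≤ |x| ≤ B` is at most `C max(1, B/H) ^ d H ^ (-σ) T ^ (-κ)`, and at least `c H ^ (-σ) T ^ (-κ)` if
`2 T ≤ B` and `C T ^ P ≤ H`. -/
theorem result (d m : ℕ) (hd : 1 ≤ d) (hm : 2 ≤ m) :
    ∃ (c C : ℝ) (P : ℕ), 0 < c ∧ 0 < C ∧ ∀ H : ℕ, 1 ≤ H →
      (Polys d H).Finite ∧ (Polys d H).Nonempty ∧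
      (∀ B : ℕ, 1 ≤ B → ∀ A : Finset ℤ, (∀ x ∈ A, |x| ≤ B) →
        proportion d H (WithPoint d m H A) ≤
          C * (max 1 ((B : ℝ) / H)) ^ d * ((H : ℝ) ^ (-sig m) * mass d m A) ∧
        (C * (B : ℝ) ^ P ≤ H →
          c * ((H : ℝ) ^ (-sig m) * mass d m A) ≤ proportion d H (WithPoint d m H A) ∧
          proportion d H (WithTwoPoints d m H A) ≤
            C * (B : ℝ) ^ P * (H : ℝ) ^ (-sig m) * proportion d H (WithPoint d m H A))) ∧
      (0 < d * sig m - 1 → ∀ T B : ℕ, 1 ≤ T →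
        proportion d H (WithPoint d m H {x | (T : ℤ) ≤ |x| ∧ |x| ≤ B}) ≤
          C * (max 1 ((B : ℝ) / H)) ^ d * ((H : ℝ) ^ (-sig m) * (T : ℝ) ^ (-(d * sig m - 1))) ∧
        (2 * T ≤ B → C * (T : ℝ) ^ P ≤ H →
          c * ((H : ℝ) ^ (-sig m) * (T : ℝ) ^ (-(d * sig m - 1))) ≤
            proportion d H (WithPoint d m H {x | (T : ℤ) ≤ |x| ∧ |x| ≤ B}))) := by
  classical
  obtain ⟨c, C, P, hc, hC, h⟩ := poly_law d hd (semi_pow hm)
  obtain ⟨κ, hκd⟩ : ∃ κ : ℝ, κ = d * sig m - 1 := ⟨_, rfl⟩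
  obtain ⟨Q, hQ⟩ : ∃ Q : ℝ, Q = (2 : ℝ) ^ (-((d : ℝ) * sig m)) := ⟨_, rfl⟩
  have hQ0 : 0 < Q := by rw [hQ]; positivity
  have hQ1 : Q ≤ 1 := by
    rw [hQ]
    refine Real.rpow_le_one_of_one_le_of_nonpos (by norm_num) ?_
    have hm2 : (2 : ℝ) ≤ m := by exact_mod_cast hm
    have : 1 / (m : ℝ) ≤ 1 := by
      rw [div_le_one (by linarith)]
      linarith
    have h2 : 0 ≤ (d : ℝ) * sig m := mul_nonneg (Nat.cast_nonneg _) (by unfold sig; linarith)
    linarith
  obtain ⟨R, hR⟩ : ∃ R : ℝ, R = C * (2 * (1 + 1 / |κ|)) := ⟨_, rfl⟩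
  have hR0 : 0 ≤ R := by rw [hR]; positivity
  obtain ⟨C', hC'⟩ : ∃ C' : ℝ, C' = (C ^ 2 + C) * 2 ^ (2 * P) + R := ⟨_, rfl⟩
  have h2P : (1 : ℝ) ≤ 2 ^ (2 * P) := one_le_pow₀ (by norm_num)
  have hCC : C ^ 2 + C ≤ C' := by
    rw [hC']
    have : 0 ≤ (C ^ 2 + C) * ((2 : ℝ) ^ (2 * P) - 1) :=
      mul_nonneg (by positivity) (by linarith)
    nlinarith
  have hC0' : 0 < C' := by
    have : 0 < C ^ 2 + C := by positivity
    linarith
  have hCle : C ≤ C' := by
    have : 0 ≤ C ^ 2 := by positivity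
    linarith
  -- the first part
  have part1 : ∀ H : ℕ, 1 ≤ H → ∀ B : ℕ, 1 ≤ B → ∀ A : Finset ℤ, (∀ x ∈ A, |x| ≤ B) →
      proportion d H (WithPoint d m H A) ≤
        C * (max 1 ((B : ℝ) / H)) ^ d * ((H : ℝ) ^ (-sig m) * mass d m A) ∧
      ((C ^ 2 + C) * (B : ℝ) ^ (2 * P) ≤ H →
        c * ((H : ℝ) ^ (-sig m) * mass d m A) ≤ proportion d H (WithPoint d m H A) ∧
        proportion d H (WithTwoPoints d m H A) ≤
          C * (B : ℝ) ^ P * (H : ℝ) ^ (-sig m) * proportion d H (WithPoint d m H A)) := by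
    intro H hH B hB A hA
    obtain ⟨-, hpos, -⟩ := pl_card d H
    have hpos' : (0 : ℝ) < ((Polys d H).ncard : ℝ) := by exact_mod_cast hpos
    have hpl : ((Pl d H).ncard : ℝ) = ((Polys d H).ncard : ℝ) := rfl
    have hA' : ∀ x ∈ A.image v, Pool.Agent.U580.RG.Prm x ∧ Pool.Agent.U580.VP.ht x ≤ B := by
      intro z hz
      obtain ⟨x, hx, rfl⟩ := Finset.mem_image.1 hz
      refine ⟨prm_v x, ?_⟩
      rw [ht_v]
      refine max_le hB ?_
      have := hA x hx
      rw [← Int.natCast_natAbs] at this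
      exact_mod_cast this
    have hind : ∀ x ∈ A.image v, ∀ y ∈ A.image v, x ≠ y → Indep x y := by
      intro z hz z' hz' hne
      obtain ⟨x, -, rfl⟩ := Finset.mem_image.1 hz
      obtain ⟨x', -, rfl⟩ := Finset.mem_image.1 hz'
      exact indep_v fun h => hne (congrArg v h)
    obtain ⟨h1, h2⟩ := h H B hH hB (A.image v) hA' hind
    rw [mass_image, ← with_eq, hpl] at h1
    refine ⟨?_, fun hcond => ?_⟩
    · unfold proportion
      rw [div_le_iff₀ hpos']
      exact h1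
    · obtain ⟨h3, h4⟩ := cond_of hC hm hH hB hcond
      obtain ⟨h5, h6⟩ := h2 h3 h4
      rw [mass_image, ← with_eq, hpl] at h5
      rw [← with_eq, ← two_eq] at h6
      unfold proportion
      refine ⟨(le_div_iff₀ hpos').2 h5, ?_⟩
      rw [div_le_iff₀ hpos']
      refine h6.trans (le_of_eq ?_)
      unfold sig
      field_simp
  refine ⟨c * Q, C', 2 * P, by positivity, hC0', fun H hH => ?_⟩
  have hHr : (0 : ℝ) < H := by exact_mod_cast hH
  have hHs : (0 : ℝ) ≤ (H : ℝ) ^ (-sig m) := Real.rpow_nonneg hHr.le _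
  obtain ⟨hfin, hpos, -⟩ := pl_card d H
  have hpos' : (0 : ℝ) < ((Polys d H).ncard : ℝ) := by exact_mod_cast hpos
  have hprop0 : ∀ S, 0 ≤ proportion d H S := fun S => by unfold proportion; positivity
  refine ⟨hfin, Set.nonempty_of_ncard_ne_zero hpos.ne', fun B hB A hA => ⟨?_, fun hcond => ?_⟩,
    fun hκ T B hT => ⟨?_, fun h2T hcond => ?_⟩⟩
  · have hM0 := mass_nonneg d m A
    have hm0 : (0 : ℝ) ≤ max 1 ((B : ℝ) / H) := zero_le_one.trans (le_max_left _ _)
    refine (part1 H hH B hB A hA).1.trans ?_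
    refine mul_le_mul_of_nonneg_right (mul_le_mul_of_nonneg_right hCle (by positivity))
      (by positivity)
  · have hM0 := mass_nonneg d m A
    have hBP : (0 : ℝ) ≤ (B : ℝ) ^ (2 * P) := by positivity
    obtain ⟨h1, h2⟩ := (part1 H hH B hB A hA).2
      ((mul_le_mul_of_nonneg_right hCC hBP).trans hcond)
    refine ⟨?_, h2.trans ?_⟩
    · refine le_trans ?_ h1
      refine mul_le_mul_of_nonneg_right ?_ (by positivity)
      nlinarith
    · refine mul_le_mul_of_nonneg_right (mul_le_mul_of_nonneg_right ?_ hHs) (hprop0 _)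
      have hBr : (1 : ℝ) ≤ B := by exact_mod_cast hB
      exact mul_le_mul hCle (pow_le_pow_right₀ hBr (by omega)) (by positivity) hC0'.le
  · have hm0 : (0 : ℝ) ≤ max 1 ((B : ℝ) / H) := zero_le_one.trans (le_max_left _ _)
    have hTr : (0 : ℝ) < T := by exact_mod_cast hT
    have hset : {x : ℤ | (T : ℤ) ≤ |x| ∧ |x| ≤ B} =
        (((Finset.Icc (-(B : ℤ)) B).filter fun x => (T : ℤ) ≤ |x| : Finset ℤ) : Set ℤ) := by
      ext x
      rw [Finset.mem_coe, Finset.mem_filter, Finset.mem_Icc, ← abs_le]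
      exact and_comm
    rcases Nat.eq_zero_or_pos B with hB | hB
    · have hem : WithPoint d m H {x : ℤ | (T : ℤ) ≤ |x| ∧ |x| ≤ B} = ∅ := by
        rw [Set.eq_empty_iff_forall_notMem]
        rintro f ⟨-, x, ⟨h1, h2⟩, -⟩
        have h3 : (1 : ℤ) ≤ T := by exact_mod_cast hT
        rw [hB] at h2
        push_cast at h2
        linarith
      rw [hem]
      unfold proportion
      rw [Set.ncard_empty, Nat.cast_zero, zero_div]
      positivity
    · rw [hset]
      have h1 := (part1 H hH B hB ((Finset.Icc (-(B : ℤ)) B).filter fun x => (T : ℤ) ≤ |x|)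
        (fun x hx => by
          have := (Finset.mem_filter.1 hx).1
          rw [Finset.mem_Icc, ← abs_le] at this
          exact this)).1
      refine h1.trans ?_
      have h2 := mass_up d m T B hT κ (by rw [hκd]; exact hκ) hκd
      rw [← hκd]
      have hκ0 : 0 < κ := by rw [hκd]; exact hκ
      have h3 : C * (2 * (1 + 1 / κ)) ≤ C' := by
        have h4 : R ≤ C' := by
          rw [hC']
          have : 0 ≤ (C ^ 2 + C) * (2 : ℝ) ^ (2 * P) := by positivity
          linarith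
        rw [hR, abs_of_pos hκ0] at h4
        exact h4
      calc C * (max 1 ((B : ℝ) / H)) ^ d * ((H : ℝ) ^ (-sig m) *
          mass d m ((Finset.Icc (-(B : ℤ)) B).filter fun x => (T : ℤ) ≤ |x|))
          ≤ C * (max 1 ((B : ℝ) / H)) ^ d * ((H : ℝ) ^ (-sig m) *
            (2 * (1 + 1 / κ) * (T : ℝ) ^ (-κ))) :=
            mul_le_mul_of_nonneg_left (mul_le_mul_of_nonneg_left h2 hHs) (by positivity)
        _ = (C * (2 * (1 + 1 / κ))) * ((max 1 ((B : ℝ) / H)) ^ d *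
            ((H : ℝ) ^ (-sig m) * (T : ℝ) ^ (-κ))) := by ring
        _ ≤ C' * ((max 1 ((B : ℝ) / H)) ^ d * ((H : ℝ) ^ (-sig m) * (T : ℝ) ^ (-κ))) :=
            mul_le_mul_of_nonneg_right h3 (by positivity)
        _ = _ := by ring
  · have hTr : (0 : ℝ) < T := by exact_mod_cast hT
    have hcond2 : (C ^ 2 + C) * ((2 * T : ℕ) : ℝ) ^ (2 * P) ≤ H := by
      refine le_trans ?_ hcond
      have e1 : ((2 * T : ℕ) : ℝ) ^ (2 * P) = 2 ^ (2 * P) * (T : ℝ) ^ (2 * P) := by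
        push_cast
        rw [mul_pow]
      rw [e1, ← mul_assoc]
      refine mul_le_mul_of_nonneg_right ?_ (by positivity)
      rw [hC']
      linarith
    have h1 := ((part1 H hH (2 * T) (by omega) (Finset.Icc (T : ℤ) (2 * T)) (fun x hx => by
      obtain ⟨h2, h3⟩ := Finset.mem_Icc.1 hx
      rw [abs_of_nonneg (by have : (0 : ℤ) ≤ T := Int.natCast_nonneg T; linarith)]
      push_cast
      exact h3)).2 hcond2).1
    have h2 := mass_low d m T hm hT
    rw [← hQ] at h2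
    have h3 : WithPoint d m H ((Finset.Icc (T : ℤ) (2 * T) : Finset ℤ) : Set ℤ) ⊆
        WithPoint d m H {x : ℤ | (T : ℤ) ≤ |x| ∧ |x| ≤ B} := by
      refine with_mono d m H fun x hx => ?_
      rw [Finset.mem_coe, Finset.mem_Icc] at hx
      have h4 : (0 : ℤ) ≤ T := Int.natCast_nonneg T
      have h5 : |x| = x := abs_of_nonneg (by linarith [hx.1])
      refine ⟨by rw [h5]; exact hx.1, ?_⟩
      rw [h5]
      have h6 : ((2 * T : ℕ) : ℤ) ≤ B := by exact_mod_cast h2T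
      push_cast at h6
      linarith [hx.2]
    have h4 : proportion d H (WithPoint d m H ((Finset.Icc (T : ℤ) (2 * T) : Finset ℤ) : Set ℤ)) ≤
        proportion d H (WithPoint d m H {x : ℤ | (T : ℤ) ≤ |x| ∧ |x| ≤ B}) := by
      unfold proportion
      refine div_le_div_of_nonneg_right ?_ hpos'.le
      exact_mod_cast Set.ncard_le_ncard h3 (hfin.subset fun f hf => hf.1)
    refine le_trans ?_ (h1.trans h4)
    calc c * Q * ((H : ℝ) ^ (-sig m) * (T : ℝ) ^ (-(d * sig m - 1)))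
        = c * ((H : ℝ) ^ (-sig m) * (Q * (T : ℝ) ^ (-(d * sig m - 1)))) := by ring
      _ ≤ _ := mul_le_mul_of_nonneg_left (mul_le_mul_of_nonneg_left h2 hHs) hc.le

end Pool.Agent.U580.TT.RandomPolynomialsOut
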